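import Pool.Agent.Y7.EJ.P3

/-! Project EJ: the system of the main modes with an almost perfect transfer. Statements. -/

open Set Filter Topology MeasureTheory

set_option autoImplicit false

namespace Pool.Agent.Y7.EJ

open Pool.Agent.Y5 Pool.Agent.Y5.D

/-- `∫_τ^s L n |x (n+1)|` (recall `L (n+1) = lm (n+1) L n`) -/
noncomputable def Aa (lm L : ℕ → ℝ) (x : ℕ → ℝ → ℝ) (n : ℕ) (τ s : ℝ) : ℝ :=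
  (Gd.I L x (n + 1) s - Gd.I L x (n + 1) τ) / lm (n + 1)

/-- The state at the time `τ = τ_n` at which the energy is in the mode `n` and the energy of the
modes `≥ n+1` reaches the threshold `hh n ^ 2`. -/
structure St (lm L hh : ℕ → ℝ) (T : ℝ) (x : ℕ → ℝ → ℝ) (n : ℕ) (τ ρ : ℝ) : Prop where
  τ0 : 0 ≤ τ
  τT : τ < T
  ρ9 : 9 / 10 ≤ ρ
  car : ρ ≤ x n τ
  thr : √(Y x (n + 1) τ) = hh n
  nxt : 99 / 100 * hh n ≤ x (n + 1) τ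
  sI : ∑ i ∈ Finset.range (n + 1), Gd.I L x i τ ≤ 2 * lm n
  I1 : Gd.I L x (n + 1) τ ≤ 10 * hh n * lm (n + 1)
  time : τ ≤ (3 - (1 / 2) ^ n) * lm 0

/-- The stage `n` is not finished at the time `t`. -/
structure Gt (lm L hh : ℕ → ℝ) (T : ℝ) (x : ℕ → ℝ → ℝ) (n : ℕ) (τ t : ℝ) : Prop where
  τt : τ ≤ t
  tT : t < T
  thr : ∀ s ∈ Icc τ t, √(Y x (n + 2) s) ≤ hh (n + 1)
  ang : ∀ s ∈ Icc τ t, Aa lm L x n τ s ≤ 17 / 10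
  pos : ∀ s ∈ Icc τ t, hh n / 2 ≤ x (n + 1) s
  nx : ∀ s ∈ Icc τ t, Aa lm L x (n + 1) τ s ≤ 5 * hh (n + 1)

/-- errors in the equations -/
def S_ERR : Prop := ∀ (lm L C ℓ M hh : ℕ → ℝ) (B : ℕ → ℕ → ℝ) (T : ℝ) (x f : ℕ → ℝ → ℝ),
  Gd lm L C ℓ M hh B T x f → ∀ t ∈ Ico 0 T,
    (∀ n, |vf3 L C ℓ B (fun k => x k t) n + f n t + L n * x (n + 1) t ^ 2|
      ≤ 10 * hh n ^ 8 * L n + 2 * L n * Y x (n + 2) t) ∧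
    (∀ n, |vf3 L C ℓ B (fun k => x k t) (n + 1) + f (n + 1) t - L n * x n t * x (n + 1) t|
      ≤ 3 * hh n ^ 4 * L n + 2 * L (n + 1) * Y x (n + 2) t) ∧
    ∀ n, |vf3 L C ℓ B (fun k => x k t) (n + 1) + f (n + 1) t
        - (L n * x n t * x (n + 1) t + L n * C n * x n t ^ 2)|
      ≤ 2 * hh n ^ 4 * L n * |x (n + 1) t| + 2 * L (n + 1) * Y x (n + 2) t + ph lm (n + 1)

/-- rotation -/
def S_ROT : Prop := ∀ (X Y X' Y' A A' P P' : ℝ → ℝ) (L a b η : ℝ), a ≤ b →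
  ContinuousOn X (Icc a b) → ContinuousOn Y (Icc a b) → ContinuousOn A (Icc a b) →
  ContinuousOn P (Icc a b) →
  (∀ t ∈ Ioo a b, HasDerivAt X (X' t) t ∧ HasDerivAt Y (Y' t) t ∧ HasDerivAt A (A' t) t ∧
    HasDerivAt P (P' t) t ∧ A' t = L * Y t ∧
    |X' t + L * Y t ^ 2| + |Y' t - L * X t * Y t| ≤ P' t) →
  A a = 0 → P b - P a ≤ η →
  |X b - (X a * Real.cos (A b) - Y a * Real.sin (A b))| ≤ 2 * η ∧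
  |Y b - (X a * Real.sin (A b) + Y a * Real.cos (A b))| ≤ 2 * η

/-- duration of the stage -/
def S_TIME : Prop := ∀ (lm L C ℓ M hh : ℕ → ℝ) (B : ℕ → ℕ → ℝ) (T : ℝ) (x f : ℕ → ℝ → ℝ),
  Gd lm L C ℓ M hh B T x f → ∀ (n : ℕ) (τ ρ t : ℝ), St lm L hh T x n τ ρ →
  Gt lm L hh T x n τ t → L n * (t - τ) ≤ 4 / hh n ∧ t ≤ (3 - (1 / 2) ^ (n + 1)) * lm 0

/-- integrals and tails -/
def S_TAIL : Prop := ∀ (lm L C ℓ M hh : ℕ → ℝ) (B : ℕ → ℕ → ℝ) (T : ℝ) (x f : ℕ → ℝ → ℝ),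
  Gd lm L C ℓ M hh B T x f → ∀ (n : ℕ) (τ ρ : ℝ), St lm L hh T x n τ ρ →
  (∀ s ∈ Icc 0 τ, √(Y x (n + 2) s) ≤ eta lm (n + 1)) ∧
  Gd.I L x (n + 2) τ ≤ hh (n + 1) * lm (n + 2) ∧
  ∀ t, Gt lm L hh T x n τ t →
    (∀ s ∈ Icc τ t, ∑ i ∈ Finset.range (n + 2), Gd.I L x i s
      ≤ lm (n + 1) * (Aa lm L x n τ s + 11 * hh n)) ∧
    (∀ s ∈ Icc τ t, √(Y x (n + 2) s)
      ≤ Real.exp (lm (n + 1) * (Aa lm L x n τ s - Real.pi / 2 + 12 * hh n))) ∧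
    ∑ i ∈ Finset.range (n + 3), Gd.I L x i t ≤ 1 / 10 * lm (n + 2) ∧
    ∀ s ∈ Icc 0 t, √(Y x (n + 3) s) ≤ eta lm (n + 2)

/-- the rotating pair -/
def S_XY : Prop := ∀ (lm L C ℓ M hh : ℕ → ℝ) (B : ℕ → ℕ → ℝ) (T : ℝ) (x f : ℕ → ℝ → ℝ),
  Gd lm L C ℓ M hh B T x f → ∀ (n : ℕ) (τ ρ t : ℝ), St lm L hh T x n τ ρ →
  Gt lm L hh T x n τ t →
    |x n t - (x n τ * Real.cos (Aa lm L x n τ t) - x (n + 1) τ * Real.sin (Aa lm L x n τ t))|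
      ≤ hh n / 1000 ∧
    |x (n + 1) t - (x n τ * Real.sin (Aa lm L x n τ t) + x (n + 1) τ *
      Real.cos (Aa lm L x n τ t))| ≤ hh n / 1000

/-- the mode `n+1` -/
def S_YP : Prop := ∀ (lm L C ℓ M hh : ℕ → ℝ) (B : ℕ → ℕ → ℝ) (T : ℝ) (x f : ℕ → ℝ → ℝ),
  Gd lm L C ℓ M hh B T x f → ∀ (n : ℕ) (τ ρ t : ℝ), St lm L hh T x n τ ρ →
  Gt lm L hh T x n τ t → 0 ≤ Aa lm L x n τ t ∧ 9 / 10 * hh n ≤ x (n + 1) t ∧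
    (3 / 2 ≤ Aa lm L x n τ t → 8 / 10 ≤ x (n + 1) t) ∧
    x (n + 1) t ≤ Aa lm L x n τ t + 11 / 10 * hh n

/-- the mode `n+2` is almost nonnegative -/
def S_NEG : Prop := ∀ (lm L C ℓ M hh : ℕ → ℝ) (B : ℕ → ℕ → ℝ) (T : ℝ) (x f : ℕ → ℝ → ℝ),
  Gd lm L C ℓ M hh B T x f → ∀ (m : ℕ) (t : ℝ), t ∈ Ico 0 T → t ≤ 3 * lm 0 →
  ∑ i ∈ Finset.range (m + 1), Gd.I L x i t ≤ 2 * lm m →
  (∀ s ∈ Icc 0 t, √(Y x (m + 2) s) ≤ eta lm (m + 1)) →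
  ∀ s ∈ Icc 0 t, -Real.exp (-(1 / 2) * lm (m + 1)) ≤ x (m + 1) s

/-- the integral of the mode `n+2` -/
def S_JJ : Prop := ∀ (lm L C ℓ M hh : ℕ → ℝ) (B : ℕ → ℕ → ℝ) (T : ℝ) (x f : ℕ → ℝ → ℝ),
  Gd lm L C ℓ M hh B T x f → ∀ (n : ℕ) (τ ρ t : ℝ), St lm L hh T x n τ ρ →
  Gt lm L hh T x n τ t → Aa lm L x (n + 1) τ t ≤ 4 * hh (n + 1)

/-- the angle does not exceed `π/2 + hh n` -/
def S_LOW : Prop := ∀ (lm L C ℓ M hh : ℕ → ℝ) (B : ℕ → ℕ → ℝ) (T : ℝ) (x f : ℕ → ℝ → ℝ),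
  Gd lm L C ℓ M hh B T x f → ∀ (n : ℕ) (τ ρ t : ℝ), St lm L hh T x n τ ρ →
  Gt lm L hh T x n τ t → Aa lm L x n τ t ≤ Real.pi / 2 + hh n

/-- one stage -/
def S_STAGE : Prop := ∀ (lm L C ℓ M hh : ℕ → ℝ) (B : ℕ → ℕ → ℝ) (T : ℝ) (x f : ℕ → ℝ → ℝ),
  Gd lm L C ℓ M hh B T x f → ∀ (n : ℕ) (τ ρ : ℝ), St lm L hh T x n τ ρ →
  9 / 10 ≤ ρ - hh n / 50 →
  (∃ τ', τ < τ' ∧ St lm L hh T x (n + 1) τ' (ρ - hh n / 50)) ∨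
    ∀ t ∈ Ico τ T, Gt lm L hh T x n τ t

/-- the first stage -/
def S_BASE : Prop := ∀ (lm L C ℓ M hh : ℕ → ℝ) (B : ℕ → ℕ → ℝ) (T : ℝ) (x f : ℕ → ℝ → ℝ),
  Gd lm L C ℓ M hh B T x f → (∃ τ, St lm L hh T x 0 τ (1 - hh 0 / 50)) ∨
    (T ≤ 2 * lm 0 ∧ ∀ t ∈ Ico 0 T, ∑ i ∈ Finset.range 2, Gd.I L x i t ≤ 1 / 10 * lm 1)

/-- Blow-up for the perturbed system of the main modes, with an almost perfect transfer. -/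
def S_ODEP : Prop := ∀ (lm L C ℓ M hh : ℕ → ℝ) (B : ℕ → ℕ → ℝ), SeqP lm L C ℓ M hh B →
  ∃ φ : ℕ → ℝ, (∀ n, 0 < φ n) ∧ ∃ T₁ : ℝ, 0 < T₁ ∧
    ∀ (T : ℝ) (x f : ℕ → ℝ → ℝ), 0 < T →
    (∀ n, ∀ t ∈ Ico 0 T, HasDerivWithinAt (x n)
      (vf3 L C ℓ B (fun m => x m t) n + f n t) (Ico 0 T) t) →
    (∀ T' < T, ∃ Mx, ∀ t ∈ Icc 0 T', ∀ n, L n ^ 10 * |x n t| ≤ Mx) →
    (∀ t ∈ Ico 0 T, ∑' n, x n t ^ 2 ≤ 1) →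
    (∀ n, ∀ t ∈ Ico 0 T, |f n t| ≤ φ 0 * |x n t| + φ n) →
    x 0 0 = 1 → (∀ n, x (n + 1) 0 = 0) →
    T ≤ T₁ ∧
    ((∀ n, ∃ t ∈ Ico 0 T, 1 - hh 0 ≤ x n t) ∨
      ∃ n₀, ∀ t ∈ Ico 0 T, ∀ m, n₀ ≤ m → |x m t| ≤ Real.exp (-(lm (m - 1) / 200)))

end Pool.Agent.Y7.EJ
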