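import Pool.Agent.Y303.SK.Defs

/-!
Project EJ: loss of energy at the blow-up time for the Navier-Stokes equations with an additional
skew-adjoint linear term. Definitions.
-/

open Set Filter Topology MeasureTheory Metric

set_option autoImplicit false

namespace Pool.Agent.Y7.EJ

open Pool.Agent.Y5 (E3)
open Pool.Agent.Y5.D (Ix qd vf3 Init)
open Pool.Agent.Y6.N (lin TSol XSol Rot)
open Pool.Agent.Y6.K (Kz lv)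

/-- Weak conditions on the parameters (`Y6.N.Seq` without the lower bound of `C`). -/
structure SeqW (lm L C ℓ M : ℕ → ℝ) (B : ℕ → ℕ → ℝ) : Prop where
  L0 : 1 ≤ L 0
  lm_succ : ∀ n, lm (n + 1) * L n = L (n + 1)
  lm_big : ∀ n, 10 ^ 30 ≤ lm n
  lm_grow : ∀ n : ℕ, 100 * ((n : ℝ) + 1) * lm n ≤ lm (n + 1)
  M_one : ∀ n, 1 ≤ M n
  M_mono : ∀ n, M n ≤ M (n + 1)
  M_le : ∀ n, M (n + 1) ≤ L n ^ 4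
  exp_big : ∀ n, (L (n + 5) * M (n + 5)) ^ 10 ≤ Real.exp (lm n / 10 ^ 6)
  C_nn : ∀ n, 0 ≤ C n
  C_hi : ∀ n, C n ≤ Real.exp (-(199 / 10000 * lm n))
  B_lo : ∀ i n, i < n → 999 / 1000 ≤ B i n
  B_hi : ∀ i n, i < n → B i n ≤ 1001 / 1000
  ℓ_nonneg : ∀ n, 0 ≤ ℓ n
  ℓ_zero : 10 ^ 6 * (ℓ 0 * lm 0) ≤ L 0
  ℓ_succ : ∀ n, 10 ^ 6 * ℓ (n + 1) ≤ L n * (9 / 1000) ^ n

/-- Conditions on the parameters for a transfer without losses; `hh n` are the thresholds. -/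
structure SeqP (lm L C ℓ M hh : ℕ → ℝ) (B : ℕ → ℕ → ℝ) : Prop where
  L0 : 1 ≤ L 0
  lm_succ : ∀ n, lm (n + 1) * L n = L (n + 1)
  lm_big : ∀ n, 10 ^ 30 ≤ lm n
  lm_grow : ∀ n : ℕ, 100 * ((n : ℝ) + 1) * lm n ≤ lm (n + 1)
  M_one : ∀ n, 1 ≤ M n
  M_mono : ∀ n, M n ≤ M (n + 1)
  M_le : ∀ n, M (n + 1) ≤ L n ^ 4
  exp_big : ∀ n, (L (n + 5) * M (n + 5)) ^ 10 ≤ Real.exp (lm n / 10 ^ 6)
  C_eq : ∀ n, C n = Real.exp (-(Real.pi / 2 * lm n))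
  B_lo : ∀ i n, i < n → 1 - (lm n)⁻¹ ≤ B i n
  B_hi : ∀ i n, i < n → B i n ≤ 1 + (lm n)⁻¹
  ℓ_nonneg : ∀ n, 0 ≤ ℓ n
  hh_pos : ∀ n, 0 < hh n
  hh_zero : hh 0 ≤ 1 / 10 ^ 9
  hh_succ : ∀ n, hh (n + 1) ≤ hh n / 1000
  hh_next : ∀ n, hh n ^ 2 ≤ hh (n + 1)
  hh_lm : ∀ n, 1 ≤ lm n * hh n ^ 8
  hh_ratio : ∀ n, lm n ≤ hh n ^ 8 * lm (n + 1)
  ℓ_zero : ℓ 0 * lm 0 ≤ hh 0 ^ 2 * L 0
  ℓ_succ : ∀ n, ℓ (n + 1) ≤ hh n ^ 4 * L n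

end Pool.Agent.Y7.EJ
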