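import Pool.Agent.Y7.EJ.Stm

/-! Project EJ: relations between the conditions on the parameters. -/

set_option autoImplicit false

namespace Pool.Agent.Y7.EJ

variable {lm L C ℓ M hh : ℕ → ℝ} {B : ℕ → ℕ → ℝ}

/-- The old conditions hold with another sequence `C`. -/
theorem SeqW.fake (h : SeqW lm L C ℓ M B) :
    Pool.Agent.Y6.N.Seq lm L (fun n => Real.exp (-(lm n / 50))) ℓ M B := by
  refine ⟨h.L0, h.lm_succ, h.lm_big, h.lm_grow, h.M_one, h.M_mono, h.M_le, h.exp_big, ?_, ?_,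
    h.B_lo, h.B_hi, h.ℓ_nonneg, h.ℓ_zero, h.ℓ_succ⟩
  · intro n
    apply Real.exp_le_exp.2
    have := h.lm_big n
    linarith
  · intro n
    apply Real.exp_le_exp.2
    have := h.lm_big n
    linarith

theorem SeqP.weak (h : SeqP lm L C ℓ M hh B) : SeqW lm L C ℓ M B := by
  have hlm : ∀ n, 0 < lm n := fun n => lt_of_lt_of_le (by norm_num) (h.lm_big n)
  have hi : ∀ n, (lm n)⁻¹ ≤ 1 / 1000 := fun n => by
    have := h.lm_big n
    rw [inv_le_comm₀ (hlm n) (by norm_num)]; linarith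
  have hL : ∀ n, 0 < L n := by
    intro n
    induction n with
    | zero => exact lt_of_lt_of_le one_pos h.L0
    | succ n ih => rw [← h.lm_succ n]; exact mul_pos (hlm _) ih
  have hh1 : ∀ n, hh n ≤ 1 / 10 ^ 9 * (1 / 1000) ^ n := by
    intro n
    induction n with
    | zero => simpa using h.hh_zero
    | succ n ih =>
      have := h.hh_succ n
      have e : (1 : ℝ) / 10 ^ 9 * (1 / 1000) ^ (n + 1) = (1 / 10 ^ 9 * (1 / 1000) ^ n) / 1000 := by
        rw [pow_succ]; ring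
      rw [e]
      linarith
  refine ⟨h.L0, h.lm_succ, h.lm_big, h.lm_grow, h.M_one, h.M_mono, h.M_le, h.exp_big, ?_, ?_,
    ?_, ?_, h.ℓ_nonneg, ?_, ?_⟩
  · intro n
    rw [h.C_eq]
    exact (Real.exp_pos _).le
  · intro n
    rw [h.C_eq]
    apply Real.exp_le_exp.2
    have h1 := hlm n
    have h2 := Real.pi_gt_three
    nlinarith
  · intro i n hin
    have := h.B_lo i n hin
    have := hi n
    linarith
  · intro i n hin
    have := h.B_hi i n hin
    have := hi n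
    linarith
  · have h1 := h.ℓ_zero
    have h2 := h.hh_zero
    have h3 := h.hh_pos 0
    have h4 : hh 0 ^ 2 ≤ (1 / 10 ^ 9) ^ 2 := pow_le_pow_left₀ h3.le h2 2
    have h5 : hh 0 ^ 2 * L 0 ≤ (1 / 10 ^ 9) ^ 2 * L 0 := mul_le_mul_of_nonneg_right h4 (hL 0).le
    have h6 := hL 0
    linarith
  · intro n
    have h1 := h.ℓ_succ n
    have h3 := h.hh_pos n
    have h4 : hh n ^ 4 ≤ (1 / 10 ^ 9 * (1 / 1000) ^ n) ^ 4 := pow_le_pow_left₀ h3.le (hh1 n) 4
    have h5 : (1 / 10 ^ 9 * (1 / 1000 : ℝ) ^ n) ^ 4 ≤ 1 / 10 ^ 36 * (9 / 1000) ^ n := by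
      rw [mul_pow, ← pow_mul, mul_comm n 4, pow_mul]
      have h6 : (((1 : ℝ) / 1000) ^ 4) ^ n ≤ (9 / 1000) ^ n :=
        pow_le_pow_left₀ (by positivity) (by norm_num) n
      have h7 : ((1 : ℝ) / 10 ^ 9) ^ 4 = 1 / 10 ^ 36 := by norm_num
      rw [h7]
      gcongr
    have h8 : hh n ^ 4 * L n ≤ (1 / 10 ^ 36 * (9 / 1000) ^ n) * L n :=
      mul_le_mul_of_nonneg_right (h4.trans h5) (hL n).le
    have h9 : 0 < (9 / 1000 : ℝ) ^ n * L n := mul_pos (by positivity) (hL n)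
    calc 10 ^ 6 * ℓ (n + 1) ≤ 10 ^ 6 * ((1 / 10 ^ 36 * (9 / 1000) ^ n) * L n) := by linarith
      _ = 1 / 10 ^ 30 * ((9 / 1000 : ℝ) ^ n * L n) := by ring
      _ ≤ 1 * ((9 / 1000 : ℝ) ^ n * L n) := by
          apply mul_le_mul_of_nonneg_right _ h9.le
          norm_num
      _ = L n * (9 / 1000) ^ n := by ring

end Pool.Agent.Y7.EJ
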