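import Pool.Agent.Y7.EJ.Stm
import Pool.Agent.Y7.EJ.Fake
import Pool.Agent.Y303.SK.Fin

/-! Project EJ: the main theorem from the steps (adapted from `Y303.SK.Fin`). -/

open Set Filter Topology MeasureTheory Metric

set_option autoImplicit false

namespace Pool.Agent.Y7.EJ

open Pool.Agent.Y5 (E3)
open Pool.Agent.Y5.D (Ix qd vf3 Init)
open Pool.Agent.Y6.N
open Pool.Agent.Y6.K (Kz lv)
open Pool.Agent.Y303.SK

lemma parp_mono {a κ h q' G G' δ : ℝ} {r α ε lm L hh : ℕ → ℝ} (hG : G ≤ G')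
    (P : ParP a κ h q' G' δ r α ε lm L hh) : ParP a κ h q' G δ r α ε lm L hh :=
  { r0 := P.r0, rstep := P.rstep, rδ := P.rδ, α0 := P.α0, ε0 := P.ε0, αε := P.αε, Lr := P.Lr,
    εr := P.εr, seq := fun ℓ hℓ => P.seq ℓ fun n => ⟨(hℓ n).1, (hℓ n).2.trans hG⟩,
    Lpol := P.Lpol, small := P.small, inf := P.inf }

/-- Blow-up with loss of energy. -/
def S_MAINJ : Prop := ∀ (ν : ℝ) (Ω : Set E3), 0 < ν → IsOpen Ω → Bornology.IsBounded Ω →
  Ω.Nonempty → ∀ δ : ℝ, 0 < δ → ∃ (ι : Type) (e : ι → E3 → E3) (σ : ι → ι) (s : ι → ℝ) (i₀ : ι)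
    (T : ℝ) (u : ℝ → E3 → E3) (v : E3 → E3),
    SkewD Ω e σ s ∧ 0 < T ∧ SolD Ω ν e σ s T u ∧ u 0 = e i₀ ∧
    (∀ t ∈ Ico 0 T, ContDiff ℝ (⊤ : ℕ∞) (u t)) ∧
    (∀ k : ℕ, ∀ T' < T, ∃ M, ∀ t ∈ Icc 0 T', ∀ x, ‖iteratedFDeriv ℝ k (u t) x‖ ≤ M) ∧
    (∀ (T' : ℝ) (v : ℝ → E3 → E3), 0 < T' → SolD Ω ν e σ s T' v → v 0 = e i₀ →
      T' ≤ T ∧ ∀ t ∈ Ico 0 T', v t = u t) ∧
    (∀ t ∈ Ico 0 T, HasDerivWithinAt (fun τ => ipr (u τ) (u τ)) (-(2 * (ν * dirf (u t) (u t))))
      (Ico 0 T) t) ∧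
    (∀ M : ℝ, ∃ t ∈ Ico 0 T, ∃ x, M < ‖u t x‖) ∧
    InH Ω v ∧ (∀ w, InH Ω w → Tendsto (fun t => ipr (u t) w) (𝓝[<] T) (𝓝 (ipr v w))) ∧
    (∀ t ∈ Ico 0 T, 1 - δ ≤ ipr (u t) (u t)) ∧ ipr v v ≤ δ

lemma cs_inH {Ω : Set E3} {v : E3 → E3} (h : CS Ω v) : InH Ω v := by
  refine ⟨h.smooth.continuous.memLp_of_hasCompactSupport h.cpt, fun ε hε => ⟨v, h, ?_⟩⟩
  simpa using hε

lemma int_inner {u v : E3 → E3} (hu : MemLp u 2 volume) (hv : MemLp v 2 volume) :
    Integrable (fun x => (inner ℝ (u x) (v x) : ℝ)) volume := by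
  have h1 := hu.norm.integrable_sq
  have h2 := hv.norm.integrable_sq
  refine (h1.add h2).mono' (hu.1.inner hv.1) (Eventually.of_forall fun x => ?_)
  refine (norm_inner_le_norm _ _).trans ?_
  show _ ≤ ‖u x‖ ^ 2 + ‖v x‖ ^ 2
  nlinarith [sq_nonneg (‖u x‖ - ‖v x‖), sq_nonneg (‖u x‖), sq_nonneg (‖v x‖)]

/-- Bessel for one field -/
lemma cs_sq {Ω : Set E3} {u ψ : E3 → E3} (hu : MemLp u 2 volume) (hψ : CS Ω ψ)
    (h1 : ipr ψ ψ = 1) : ipr u ψ ^ 2 ≤ ipr u u := by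
  have hψm : MemLp ψ 2 volume := hψ.smooth.continuous.memLp_of_hasCompactSupport hψ.cpt
  have i1 := int_inner hu hu
  have i2 := int_inner hu hψm
  have i3 := int_inner hψm hψm
  obtain ⟨c, hc⟩ : ∃ c, c = ipr u ψ := ⟨_, rfl⟩
  have h2 : 0 ≤ ∫ x, (inner ℝ (u x - c • ψ x) (u x - c • ψ x) : ℝ) :=
    integral_nonneg fun x => real_inner_self_nonneg
  have h3 : ∀ x, (inner ℝ (u x - c • ψ x) (u x - c • ψ x) : ℝ) =
      inner ℝ (u x) (u x) - 2 * c * inner ℝ (u x) (ψ x) + c ^ 2 * inner ℝ (ψ x) (ψ x) := by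
    intro x
    rw [inner_sub_left, inner_sub_right, inner_sub_right, real_inner_smul_left,
      real_inner_smul_right, real_inner_smul_right, real_inner_smul_left,
      real_inner_comm (u x) (ψ x)]
    ring
  simp only [h3] at h2
  have i12 : Integrable (fun x => (inner ℝ (u x) (u x) : ℝ) - 2 * c * inner ℝ (u x) (ψ x))
    volume := i1.sub (i2.const_mul (2 * c))
  rw [integral_add i12 (i3.const_mul (c ^ 2)),
    integral_sub i1 (i2.const_mul (2 * c)), integral_const_mul, integral_const_mul] at h2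
  have e1 : ∫ x, (inner ℝ (u x) (u x) : ℝ) = ipr u u := rfl
  have e2 : ∫ x, (inner ℝ (u x) (ψ x) : ℝ) = c := hc.symm
  have e3 : ∫ x, (inner ℝ (ψ x) (ψ x) : ℝ) = 1 := h1
  rw [e1, e2, e3] at h2
  rw [← hc]
  linarith

theorem t_MAINJ_of (hBLOW : S_BLOWJ) (hPK : S_PK) (hPAR : S_PARP) (hBAS : S_BAS)
    (hFORM : S_FORM) (hMM : S_MMP) (hINT : S_INTP) (hDERB : S_DERBP) (hCONC : S_CONCP)
    (hSER : S_SER) (hENER : S_ENER) (hUNIQ : S_UNIQ) (hLIMT : S_LIMT) (hRF : S_RF) :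
    S_MAINJ := by
  intro ν Ω hν hΩ hbdΩ hne δ' hδ'
  obtain ⟨Ψ, H, a, κ, h, q, q', hpk⟩ := hPK
  obtain ⟨p, hp⟩ := hne
  obtain ⟨δ₀, hδ₀, hball⟩ := Metric.isOpen_iff.1 hΩ p hp
  -- parameters
  set G₀ : ℝ := ν * (dirf Ψ Ψ + dirf H H) with hG₀
  have hG₀0 : 0 ≤ G₀ := mul_nonneg hν.le (add_nonneg (dirf_nonneg _) (dirf_nonneg _))
  obtain ⟨r, α, ε, lm, L, hh, hP', hhη⟩ := hPAR a κ h q' (G₀ + 1) (δ₀ / 2) (δ' / 2) hpk.a0
    hpk.κ0 hpk.h0 hpk.q'0 (by linarith) (by linarith) (by linarith)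
  have hP : ParP a κ h q' G₀ (δ₀ / 2) r α ε lm L hh := parp_mono (by linarith) hP'
  have hq'1 : q' < 1 := hpk.qq.trans hpk.q1
  have hrpow : ∀ n, r n ≤ q' ^ n * r 0 := by
    intro n
    induction n with
    | zero => simp
    | succ n ih =>
      refine (hP.rstep n).trans ?_
      rw [pow_succ]
      calc q' * r n ≤ q' * (q' ^ n * r 0) := mul_le_mul_of_nonneg_left ih hpk.q'0.le
        _ = q' ^ n * q' * r 0 := by ring
  have hr0 : ∀ n, r n ≤ r 0 := by
    intro n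
    refine (hrpow n).trans ?_
    have h1 : q' ^ n ≤ 1 := pow_le_one₀ hpk.q'0.le hq'1.le
    have := hP.r0 0
    nlinarith
  have hrlim : Tendsto r atTop (𝓝 0) := by
    have h1 : Tendsto (fun n : ℕ => q' ^ n * r 0) atTop (𝓝 (0 * r 0)) :=
      (tendsto_pow_atTop_nhds_zero_of_lt_one hpk.q'0.le hq'1).mul_const _
    rw [zero_mul] at h1
    exact squeeze_zero (fun n => (hP.r0 n).le) hrpow h1
  -- main modes
  obtain ⟨m1, m2, m3, m4, -⟩ := hMM p Ψ H a κ h q q' G₀ (δ₀ / 2) r α ε lm L hh hpk hP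
  set ψ : ℕ → E3 → E3 := psi p Ψ H r α ε with hψ
  have hrδ : ∀ n, r n ≤ δ₀ / 2 := fun n => (hr0 n).trans hP.rδ
  have hcsψ : ∀ n, CS Ω (ψ n) := fun n => (m1 n).mono
    ((ball_subset_ball (by have := hrδ n; linarith)).trans hball)
  have hlow : ∀ n m, n < m → ∃ s θ, Low p (r m) H (ψ n) s θ := by
    intro n m hnm
    rcases (show n + 1 ≤ m from hnm).eq_or_lt with h1 | h1
    · subst h1
      exact ⟨_, _, m2 n⟩
    · exact ⟨_, _, m3 n m h1⟩
  have hzero : ∀ n x, x ∉ ball p (r n) → ψ n x = 0 := fun n x hx => (m1 n).zero_of hx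
  have horth' : ∀ n m, n < m → ipr (ψ n) (ψ m) = 0 := by
    intro n m hnm
    obtain ⟨s, θ, hl⟩ := hlow n m hnm
    have h1 := (hcsψ n).mono (subset_univ Ω)
    exact (hINT p Ψ H a κ h q q' G₀ (δ₀ / 2) r α ε lm L hh hpk hP m (ψ n) (ψ n) s θ s θ h1 h1 hl
      hl).1
  have horth : ∀ m n, (m = n → ipr (ψ m) (ψ n) = 1) ∧ (m ≠ n → ipr (ψ m) (ψ n) = 0) := by
    intro m n
    refine ⟨fun h1 => by rw [h1]; exact m4 n, fun h1 => ?_⟩
    rcases lt_or_gt_of_ne h1 with h2 | h2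
    · exact horth' m n h2
    · rw [(hFORM.2.1 _ _).1]
      exact horth' n m h2
  -- the other modes
  set y : E3 := p + EuclideanSpace.single (0 : Fin 3) (3 * δ₀ / 4) with hy
  have hpy : dist y p = 3 * δ₀ / 4 := by
    rw [hy, dist_eq_norm, add_sub_cancel_left, EuclideanSpace.norm_single, Real.norm_eq_abs,
      abs_of_pos (by linarith)]
  have hyb : ball y (δ₀ / 4) ⊆ Ω := by
    refine Subset.trans ?_ hball
    intro x hx
    rw [mem_ball] at hx ⊢
    have := dist_triangle x y p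
    linarith
  have hpyb : p ∉ ball y (δ₀ / 4) := by
    rw [mem_ball, dist_comm, hpy]
    linarith
  obtain ⟨w, hw⟩ := hBAS Ω p y (δ₀ / 4) ψ hΩ hp (by linarith) hyb hpyb hcsψ (by
      intro n x hx
      refine hzero n x ?_
      rw [mem_ball] at hx ⊢
      have h1 := dist_triangle y x p
      rw [dist_comm y x] at h1
      have := hrδ n
      linarith) horth (by
      intro ρ' hρ'
      obtain ⟨N, hN⟩ := Filter.eventually_atTop.1 (hrlim.eventually (gt_mem_nhds hρ'))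
      exact ⟨N, fun n hn x hx => hzero n x fun h1 => hx (ball_subset_ball (hN n hn).le h1)⟩)
    (by
      intro n
      refine ⟨Am a r α n, r (n + 2), hP.r0 _, fun x hx => ?_⟩
      have := m3 n (n + 2) le_rfl x hx
      rw [zero_smul, add_zero] at this
      exact this)
  -- the kernel
  obtain ⟨g, ℓ, ρ, R, E, K, hq⟩ := hCONC ν Ω p Ψ H a κ h q q' (δ₀ / 2) r α ε lm L hh hν hpk hP
    ((ball_subset_ball (by have := hrδ 0; linarith)).trans hball) (ℕ × Bool) w hw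
  obtain ⟨S, -, T, z, hT, hz⟩ := hBLOW (ℕ × Bool) g oo ss tt lm L _ _ ℓ ρ hh _ R E _ _ (bet w) K
    hq rot (bet_pos w)
  have hqf := hq.weak.fake
  set e : Ix (ℕ × Bool) → E3 → E3 := em ψ w with he
  have hecs : ∀ i, CS Ω (e i) := by
    rintro (n | j)
    · exact hcsψ n
    · exact hw.cs j
  have heorth : ∀ i j, (i = j → ipr (e i) (e j) = 1) ∧ (i ≠ j → ipr (e i) (e j) = 0) := by
    rintro (n | j) (n' | j')
    · refine ⟨fun h1 => (horth n n').1 (Sum.inl_injective h1), fun h1 => (horth n n').2 fun h2 =>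
        h1 (by rw [h2])⟩
    · exact ⟨fun h1 => absurd h1 (by simp), fun _ => hw.perp n j'⟩
    · refine ⟨fun h1 => absurd h1 (by simp), fun _ => ?_⟩
      rw [(hFORM.2.1 _ _).1]
      exact hw.perp n' j
    · refine ⟨fun h1 => (hw.orth j j').1 (Sum.inr_injective h1), fun h1 => (hw.orth j j').2
        fun h2 => h1 (by rw [h2])⟩
  have hskew : SkewD Ω e σI (sI S) := by
    refine ⟨hecs, heorth, fun v hv ε' hε' => hw.compl v hv ε' hε', ?_, ?_⟩
    · rintro (n | j)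
      · rfl
      · show Sum.inr (ss (ss j)) = Sum.inr j
        rw [rot.inv j]
    · rintro (n | j)
      · show (0 : ℝ) = -0
        simp
      · show S (oo (ss j)) * tt (ss j) = -(S (oo j) * tt j)
        rw [rot.grp j, rot.skew j]
        ring
  -- sizes
  have hLpos : ∀ n, 0 < L n := fun n => lt_of_lt_of_le one_pos (Bl.L_one hqf n)
  have hLs : Summable (fun n => (L n)⁻¹) := Bl.L_inv_sum hqf
  have hbd : ∀ k : ℕ, ∀ T' < T, ∃ b : Ix (ℕ × Bool) → ℝ, Summable b ∧ (∀ i, 0 ≤ b i) ∧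
      ∀ t ∈ Icc 0 T', ∀ i, |z i t| * nk k (e i) ≤ b i := by
    intro k T' hT'
    obtain ⟨X, m, hX⟩ := hDERB p Ψ H a κ h q q' G₀ (δ₀ / 2) r α ε lm L hh hpk hP k
    obtain ⟨Y, hY⟩ := hz.reg (m + 1) T' hT'
    refine ⟨Sum.elim (fun n => |X| * |Y| * (L n)⁻¹) (fun j => bet w j * nk k (w j)), ?_, ?_, ?_⟩
    · have h3 : Summable ((Sum.elim (fun n => |X| * |Y| * (L n)⁻¹)
          (fun j => bet w j * nk k (w j))) ∘ Sum.inl) := hLs.mul_left _
      have h4 : Summable ((Sum.elim (fun n => |X| * |Y| * (L n)⁻¹)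
          (fun j => bet w j * nk k (w j))) ∘ Sum.inr) := bet_nk w k
      exact (HasSum.sum h3.hasSum h4.hasSum).summable
    · rintro (n | j)
      · have := hLpos n
        simp only [Sum.elim_inl]
        positivity
      · exact mul_nonneg (bet_pos w j).le (nk_nonneg _ _)
    · intro t ht
      rintro (n | j)
      · have h1 := hY t ht n
        have h2 := hX n
        have h3 := hLpos n
        simp only [Sum.elim_inl]
        have h4 : |z (Sum.inl n) t| * nk k (ψ n) ≤ |z (Sum.inl n) t| * (|X| * L n ^ m) := by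
          refine mul_le_mul_of_nonneg_left (h2.trans ?_) (abs_nonneg _)
          exact mul_le_mul_of_nonneg_right (le_abs_self X) (pow_pos h3 m).le
        refine h4.trans ?_
        rw [mul_assoc |X| |Y|]
        have h5 : |z (Sum.inl n) t| * L n ^ m ≤ |Y| * (L n)⁻¹ := by
          rw [← div_eq_mul_inv, le_div_iff₀ h3]
          calc |z (Sum.inl n) t| * L n ^ m * L n = L n ^ (m + 1) * |z (Sum.inl n) t| := by ring
            _ ≤ Y := h1
            _ ≤ |Y| := le_abs_self Y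
        calc |z (Sum.inl n) t| * (|X| * L n ^ m) = |X| * (|z (Sum.inl n) t| * L n ^ m) := by ring
          _ ≤ |X| * (|Y| * (L n)⁻¹) := mul_le_mul_of_nonneg_left h5 (abs_nonneg _)
      · exact mul_le_mul_of_nonneg_right (hz.oth j t ⟨ht.1, ht.2.trans_lt hT'⟩) (nk_nonneg _ _)
  have hsum : ∀ t ∈ Ico 0 T, ∀ k : ℕ, Summable (fun i => |z i t| * nk k (e i)) := by
    intro t ht k
    obtain ⟨b, hb1, -, hb3⟩ := hbd k t ht.2
    exact Summable.of_nonneg_of_le (fun i => mul_nonneg (abs_nonneg _) (nk_nonneg _ _))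
      (hb3 t ⟨ht.1, le_rfl⟩) hb1
  have hco : Countable (Ix (ℕ × Bool)) := inferInstance
  have hS := fun t (ht : t ∈ Ico 0 T) => hSER Ω (Ix (ℕ × Bool)) e (fun i => z i t) hΩ hbdΩ hecs
    heorth (hsum t ht)
  set u : ℝ → E3 → E3 := fun t => ser e (fun i => z i t) with hu
  have hder : ∀ k : ℕ, ∀ T' < T, ∃ M, ∀ t ∈ Icc 0 T', ∀ x, ‖iteratedFDeriv ℝ k (u t) x‖ ≤ M := by
    intro k T' hT'
    obtain ⟨b, hb1, hb2, hb3⟩ := hbd k T' hT'
    refine ⟨∑' i, b i, fun t ht x => ?_⟩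
    have ht' : t ∈ Ico 0 T := ⟨ht.1, ht.2.trans_lt hT'⟩
    refine ((hS t ht').2.2.1 k x).trans ?_
    exact (hsum t ht' k).tsum_le_tsum (hb3 t ht) hb1
  have hcoef : ∀ t ∈ Ico 0 T, ∀ i, ipr (u t) (e i) = z i t := fun t ht i =>
    (hS t ht).2.2.2.2.2.1 i
  have hsol : SolD Ω ν e σI (sI S) T u := by
    refine ⟨fun t ht => (hS t ht).1.continuous, fun t ht => (hS t ht).2.1,
      fun t ht => ((hS t ht).1.of_le two_le).contDiffOn,
      fun t ht x _ => (hS t ht).2.2.2.1 x, fun t ht => (hS t ht).2.2.2.2.1, ?_, ?_⟩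
    · intro T' hT'
      obtain ⟨M0, h0⟩ := hder 0 T' hT'
      obtain ⟨M1, h1⟩ := hder 1 T' hT'
      obtain ⟨M2, h2⟩ := hder 2 T' hT'
      refine ⟨max M0 (max M1 M2), fun t ht x _ => ⟨?_, ?_, ?_⟩⟩
      · have := h0 t ht x
        rw [norm_iteratedFDeriv_zero] at this
        exact this.trans (le_max_left _ _)
      · have := h1 t ht x
        rw [← norm_iteratedFDeriv_fderiv, norm_iteratedFDeriv_zero] at this
        exact this.trans ((le_max_left _ _).trans (le_max_right _ _))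
      · have := h2 t ht x
        rw [← norm_iteratedFDeriv_fderiv, ← norm_iteratedFDeriv_fderiv,
          norm_iteratedFDeriv_zero] at this
        exact this.trans ((le_max_right _ _).trans (le_max_right _ _))
    · intro i t ht
      have h1 := hz.deriv i t ht
      have h2 : HasDerivWithinAt (fun τ => ipr (u τ) (e i))
          (Kz S oo ss tt (fun a => z a t) i - lin (DD ν e) (fun a => z a t) i +
            qd (cc e) (fun a => z a t) i) (Ico 0 T) t :=
        h1.congr (fun τ hτ => hcoef τ hτ i) (hcoef t ht i)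
      refine h2.congr_deriv ?_
      have e1 : Kz S oo ss tt (fun a => z a t) i = sI S i * ipr (u t) (e (σI i)) := by
        rw [hcoef t ht]
        rcases i with n | j
        · show (0 : ℝ) = 0 * _
          rw [zero_mul]
        · rfl
      have e2 : lin (DD ν e) (fun a => z a t) i = ν * dirf (u t) (e i) := by
        have h3 := (hS t ht).2.2.2.2.2.2.1 i
        have h3' : dirf (u t) (e i) = ∑' b, dirf (e i) (e b) * z b t := h3
        rw [h3', ← tsum_mul_left]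
        unfold lin DD
        exact tsum_congr fun b => by ring
      have e3 : qd (cc e) (fun a => z a t) i = -adv (u t) (u t) (e i) := by
        have h3 := (hS t ht).2.2.2.2.2.2.2 i
        have h3' : adv (u t) (u t) (e i) =
          ∑' p : Ix (ℕ × Bool) × Ix (ℕ × Bool), adv (e p.1) (e p.2) (e i) * z p.1 t * z p.2 t := h3
        rw [h3', ← tsum_neg]
        unfold qd cc
        exact tsum_congr fun b => by ring
      rw [e1, e2, e3]
      ring
  have hu0 : u 0 = e (Sum.inl 0) := by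
    funext x
    show ∑' i, z i 0 • e i x = e (Sum.inl 0) x
    rw [tsum_eq_single (Sum.inl 0)]
    · rw [hz.init.1, one_smul]
    · rintro (n | j) hi
      · rcases n with _ | n
        · exact absurd rfl hi
        · rw [hz.init.2.1, zero_smul]
      · rw [hz.init.2.2, zero_smul]
  -- blow-up
  have hblow : ∀ M : ℝ, ∃ t ∈ Ico 0 T, ∃ x, M < ‖u t x‖ := by
    intro M
    by_contra hcon
    push Not at hcon
    obtain ⟨n, hn⟩ := hP.small (M * √((volume (ball (0 : E3) 1)).toReal))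
    obtain ⟨t, ht, hbig⟩ := hz.big n
    have h1 := ipr_small (hP.r0 n) (m1 n) (m4 n) (hcon t ht)
    have h2 : ipr (u t) (ψ n) = z (Sum.inl n) t := hcoef t ht (Sum.inl n)
    rw [h2] at h1
    have h3 := hq.hh_zero
    linarith
  have huniq : ∀ (T' : ℝ) (v : ℝ → E3 → E3), 0 < T' → SolD Ω ν e σI (sI S) T' v →
      v 0 = e (Sum.inl 0) → T' ≤ T ∧ ∀ t ∈ Ico 0 T', v t = u t := by
    intro T' v hT' hv hv0
    have heq : ∀ t ∈ Ico 0 (min T' T), v t = u t :=
      hUNIQ Ω ν _ e σI (sI S) (min T' T) v u hΩ hbdΩ hν hskew (hv.mono (min_le_left _ _))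
        (hsol.mono (min_le_right _ _)) (by rw [hv0, hu0])
    have hle : T' ≤ T := by
      by_contra hcon
      rw [not_le] at hcon
      rw [min_eq_right hcon.le] at heq
      obtain ⟨M, hM⟩ := hv.bdd T hcon
      obtain ⟨t, ht, x, hx⟩ := hblow |M|
      rw [← heq t ht] at hx
      by_cases hxΩ : x ∈ Ω
      · have := (hM t ⟨ht.1, ht.2.le⟩ x hxΩ).1
        have h2 := le_abs_self M
        linarith
      · rw [hv.zero t ⟨ht.1, ht.2.trans hcon⟩ x hxΩ, norm_zero] at hx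
        exact absurd hx (not_lt.2 (abs_nonneg _))
    refine ⟨hle, fun t ht => ?_⟩
    rw [min_eq_left hle] at heq
    exact heq t ht
  have hbs : ∀ T' < T, ∃ b : Ix (ℕ × Bool) → ℝ, Summable b ∧ ∀ t ∈ Icc 0 T', ∀ i,
      |ipr (u t) (e i)| ≤ b i := by
    intro T' hT'
    obtain ⟨Y, hY⟩ := hz.reg 1 T' hT'
    refine ⟨Sum.elim (fun n => Y * (L n)⁻¹) (bet w), ?_, ?_⟩
    · have h3 : Summable ((Sum.elim (fun n => Y * (L n)⁻¹) (bet w)) ∘ Sum.inl) :=
        hLs.mul_left _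
      have h4 : Summable ((Sum.elim (fun n => Y * (L n)⁻¹) (bet w)) ∘ Sum.inr) := bet_summ w
      exact (HasSum.sum h3.hasSum h4.hasSum).summable
    · intro t ht i
      have ht' : t ∈ Ico 0 T := ⟨ht.1, ht.2.trans_lt hT'⟩
      rw [hcoef t ht']
      rcases i with n | j
      · simp only [Sum.elim_inl]
        rw [← div_eq_mul_inv, le_div_iff₀ (hLpos n), mul_comm]
        have := hY t ht n
        rwa [pow_one] at this
      · exact hz.oth j t ht'

  have hE : ∀ t ∈ Ico 0 T, HasDerivWithinAt (fun τ => ipr (u τ) (u τ))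
      (-(2 * (ν * dirf (u t) (u t)))) (Ico 0 T) t :=
    hENER Ω ν _ e σI (sI S) T u hΩ hbdΩ hskew hsol (fun t ht => (hS t ht).1.of_le two_le) hbs
  -- the energy is nonincreasing
  have hanti : AntitoneOn (fun τ => ipr (u τ) (u τ)) (Ico 0 T) := by
    refine antitoneOn_of_deriv_nonpos (convex_Ico 0 T)
      (fun t ht => (hE t ht).continuousWithinAt) ?_ ?_
    · intro t ht
      rw [interior_Ico] at ht
      have h1 := (hE t ⟨ht.1.le, ht.2⟩).hasDerivAt (Ico_mem_nhds ht.1 ht.2)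
      exact h1.differentiableAt.differentiableWithinAt
    · intro t ht
      rw [interior_Ico] at ht
      have h1 := (hE t ⟨ht.1.le, ht.2⟩).hasDerivAt (Ico_mem_nhds ht.1 ht.2)
      rw [h1.deriv]
      have := mul_nonneg hν.le (dirf_nonneg (u t))
      linarith
  have h00 : (0 : ℝ) ∈ Ico 0 T := ⟨le_rfl, hT⟩
  have hle1 : ∀ t ∈ Ico 0 T, ipr (u t) (u t) ≤ 1 := by
    intro t ht
    have h1 := hanti h00 ht ht.1
    have h2 : ipr (u 0) (u 0) = 1 := by
      rw [hu0]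
      exact (heorth _ _).1 rfl
    linarith
  have hzs : ∀ t ∈ Ico 0 T, Summable fun a => |z a t| := by
    intro t ht
    obtain ⟨b, hb1, hb2⟩ := hbs t ht.2
    refine Summable.of_nonneg_of_le (fun a => abs_nonneg _) (fun a => ?_) hb1
    rw [← hcoef t ht]
    exact hb2 t ⟨ht.1, le_rfl⟩ a
  have hlim : ∀ i, ∃ l, Tendsto (z i) (𝓝[<] T) (𝓝 l) :=
    hLIMT (ℕ × Bool) g oo ss tt L _ ℓ ρ _ R E _ _ (bet w) S T (hh 0) z K rot hT hz hzs
  have hcoef' : ∀ i, (fun t => ipr (u t) (e i)) =ᶠ[𝓝[<] T] z i := by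
    intro i
    filter_upwards [Ico_mem_nhdsLT hT] with t ht
    exact hcoef t ht i
  obtain ⟨v, hvH, hvw, hvc⟩ := hRF Ω (Ix (ℕ × Bool)) e T u hΩ hbdΩ hco hecs heorth hskew.compl hT
    hsol.inH hle1 (fun i => by
      obtain ⟨l, hl⟩ := hlim i
      exact ⟨l, hl.congr' (hcoef' i).symm⟩)
  have hvl : ∀ i, Tendsto (z i) (𝓝[<] T) (𝓝 (ipr v (e i))) := by
    intro i
    exact (hvw (e i) (cs_inH (hecs i))).congr' (hcoef' i)
  -- the times at which the energy is in the mode `n`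
  choose tn htn hbig using hz.big
  have hh0 : 0 < hh 0 := hq.hh_pos 0
  have hh1 : hh 0 ≤ 1 / 10 ^ 9 := hq.hh_zero
  have hev : ∀ T' < T, ∀ᶠ n in atTop, T' < tn n := by
    intro T' hT'
    obtain ⟨X, hX⟩ := hz.reg 1 T' hT'
    obtain ⟨N, hN⟩ := pow_unbounded_of_one_lt (2 * X) (by norm_num : (1 : ℝ) < 2)
    filter_upwards [eventually_ge_atTop N] with n hn
    by_contra hcon
    rw [not_lt] at hcon
    have h1 := hX (tn n) ⟨(htn n).1, hcon⟩ n
    have h2 := hbig n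
    have h3 : (2 : ℝ) ^ N ≤ L n := (pow_le_pow_right₀ (by norm_num) hn).trans (Bl.L_geo hqf n)
    have h4 : 1 / 2 ≤ |z (Sum.inl n) (tn n)| := by
      have := le_abs_self (z (Sum.inl n) (tn n))
      linarith
    rw [pow_one] at h1
    have h5 : L n * (1 / 2) ≤ L n * |z (Sum.inl n) (tn n)| :=
      mul_le_mul_of_nonneg_left h4 (hLpos n).le
    linarith
  have htend : Tendsto tn atTop (𝓝[<] T) := by
    refine tendsto_nhdsWithin_iff.2 ⟨?_, Eventually.of_forall fun n => (htn n).2⟩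
    refine tendsto_order.2 ⟨fun a ha => hev a ha, fun a ha => Eventually.of_forall fun n => ?_⟩
    exact (htn n).2.trans ha
  have hen1 : ∀ t ∈ Ico 0 T, ∀ F : Finset (Ix (ℕ × Bool)), ∑ i ∈ F, z i t ^ 2 ≤ 1 := by
    intro t ht F
    exact ((hz.en t ht).1.sum_le_tsum F fun i _ => sq_nonneg _).trans (hz.en t ht).2
  have hsmall : ∀ F : Finset (Ix (ℕ × Bool)), ∑ i ∈ F, ipr v (e i) ^ 2 ≤ 2 * hh 0 := by
    intro F
    have h1 : Tendsto (fun n => ∑ i ∈ F, z i (tn n) ^ 2) atTop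
        (𝓝 (∑ i ∈ F, ipr v (e i) ^ 2)) :=
      tendsto_finsetSum _ fun i _ => (((hvl i).comp htend).pow 2)
    refine le_of_tendsto h1 ?_
    classical
    obtain ⟨N, hN⟩ : ∃ N : ℕ, ∀ n, N ≤ n → (Sum.inl n : Ix (ℕ × Bool)) ∉ F := by
      have hfin : {n : ℕ | (Sum.inl n : Ix (ℕ × Bool)) ∈ F}.Finite := by
        refine Set.Finite.preimage (f := fun n : ℕ => (Sum.inl n : Ix (ℕ × Bool)))
          (s := (F : Set (Ix (ℕ × Bool)))) ?_ F.finite_toSet
        exact fun a _ b _ hab => Sum.inl_injective hab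
      obtain ⟨N, hN⟩ := hfin.bddAbove
      refine ⟨N + 1, fun n hn hmem => ?_⟩
      have := hN hmem
      omega
    filter_upwards [eventually_ge_atTop N] with n hn
    have h2 := hen1 (tn n) (htn n) (insert (Sum.inl n) F)
    rw [Finset.sum_insert (hN n hn)] at h2
    have h3 := hbig n
    have h4 : (1 - hh 0) ^ 2 ≤ z (Sum.inl n) (tn n) ^ 2 := pow_le_pow_left₀ (by linarith) h3 2
    have h5 : 0 ≤ hh 0 ^ 2 := sq_nonneg _
    linarith
  have hbelow : ∀ t ∈ Ico 0 T, 1 - δ' ≤ ipr (u t) (u t) := by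
    intro t ht
    obtain ⟨n, hn⟩ := (hev t ht.2).exists
    have h1 := hanti ht (htn n) hn.le
    have h2 : (1 - hh 0) ^ 2 ≤ ipr (u (tn n)) (u (tn n)) := by
      have h3 := hbig n
      have h4 : (1 - hh 0) ^ 2 ≤ z (Sum.inl n) (tn n) ^ 2 := pow_le_pow_left₀ (by linarith) h3 2
      refine h4.trans ?_
      rw [← hcoef (tn n) (htn n) (Sum.inl n)]
      exact cs_sq (hsol.inH _ (htn n)).1 (hecs _) ((heorth _ _).1 rfl)
    have h5 : 0 ≤ hh 0 ^ 2 := sq_nonneg _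
    have h6 : ipr (u (tn n)) (u (tn n)) ≤ ipr (u t) (u t) := h1
    nlinarith
  refine ⟨Ix (ℕ × Bool), e, σI, sI S, Sum.inl 0, T, u, v, hskew, hT, hsol, hu0,
    fun t ht => (hS t ht).1, hder, huniq, hE, hblow, hvH, hvw, hbelow, ?_⟩
  refine (hvc (2 * hh 0) hsmall).trans ?_
  linarith

end Pool.Agent.Y7.EJ
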