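import Pool.Agent.Y7.EJ.P1

/-! Derivative of the energy of the tail. -/

open Set Filter Topology MeasureTheory

set_option autoImplicit false

namespace Pool.Agent.Y7.EJ

open Pool.Agent.Y5 Pool.Agent.Y5.D

namespace Gd

variable {lm L C ℓ M hh : ℕ → ℝ} {B : ℕ → ℕ → ℝ} {T : ℝ} {x f : ℕ → ℝ → ℝ}

lemma xvf (t : ℝ) (N : ℕ) : x N t * vf3 L C ℓ B (fun i => x i t) N = -(ℓ N * x N t ^ 2)
        + Fl L C (fun i => x i t) N - Fl L C (fun i => x i t) (N + 1)
        + x N t ^ 2 * ∑ i ∈ Finset.range N, L i * B i N * x i t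
        - L N * x N t * ∑' l : ℕ, B N (N + 1 + l) * x (N + 1 + l) t ^ 2 := by
  have hN1 : ¬ (N + 1 = 0) := Nat.succ_ne_zero N
  unfold vf3 Fl
  rw [if_neg hN1]
  have e5 : N + 1 - 1 = N := by omega
  rw [e5]
  split_ifs <;> ring

lemma xb1 {K y a : ℝ} (hK : 1 ≤ K) (hy0 : 0 < y) (hy1 : y ≤ 1) (h : |a| ≤ K * y ^ 10) :
    |a| ≤ K * y := by
  refine h.trans ?_
  gcongr
  calc y ^ 10 ≤ y ^ 1 := pow_le_pow_of_le_one hy0.le hy1 (by norm_num)
    _ = y := pow_one y

lemma Flb {K t : ℝ} (q : SeqP lm L C ℓ M hh B) (hK : 1 ≤ K)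
    (h : ∀ n, |x n t| ≤ K * (L n ^ 10)⁻¹) (n : ℕ) :
    |Fl L C (fun i => x i t) n| ≤ K ^ 3 * (L n)⁻¹ := by
  unfold Fl
  split_ifs with h0
  · have := sLp q n
    rw [abs_zero]; positivity
  · have hL := sL1 q (n - 1)
    have hLp := sLp q (n - 1)
    have hLn := sL1 q n
    have hLnp := sLp q n
    have hC := sC1 q (n - 1)
    have hCp := sCp q (n - 1)
    rw [abs_mul, abs_mul, abs_mul, abs_pow, abs_of_pos hLp, abs_of_pos hCp]
    have h1 := h (n - 1)
    have h2 := h n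
    have e1 : L (n - 1) * ((L (n - 1) ^ 10)⁻¹) ^ 2 ≤ 1 := by
      rw [← inv_pow, ← pow_mul]
      have : (L (n - 1))⁻¹ ≤ 1 := inv_le_one_of_one_le₀ hL
      calc L (n - 1) * ((L (n - 1))⁻¹) ^ (10 * 2)
          ≤ L (n - 1) * ((L (n - 1))⁻¹) ^ 1 :=
            mul_le_mul_of_nonneg_left
              (pow_le_pow_of_le_one (by positivity) this (by norm_num)) hLp.le
        _ = 1 := by rw [pow_one]; exact mul_inv_cancel₀ hLp.ne'
    have e2 : (L n ^ 10)⁻¹ ≤ (L n)⁻¹ := by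
      apply inv_anti₀ hLnp
      exact le_self_pow₀ hLn (by norm_num)
    calc L (n - 1) * C (n - 1) * |x (n - 1) t| ^ 2 * |x n t|
        ≤ L (n - 1) * 1 * (K * (L (n - 1) ^ 10)⁻¹) ^ 2 * (K * (L n ^ 10)⁻¹) := by gcongr
      _ = (L (n - 1) * ((L (n - 1) ^ 10)⁻¹) ^ 2) * K ^ 3 * (L n ^ 10)⁻¹ := by ring
      _ ≤ 1 * K ^ 3 * (L n)⁻¹ := by gcongr
      _ = _ := by ring

lemma Lxb {K t : ℝ} (q : SeqP lm L C ℓ M hh B) (hK : 1 ≤ K)
    (h : ∀ n, |x n t| ≤ K * (L n ^ 10)⁻¹) (n : ℕ) : L n * |x n t| ≤ K * (L n)⁻¹ := by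
  have hL := sL1 q n
  have hLp := sLp q n
  have h1 := h n
  calc L n * |x n t| ≤ L n * (K * (L n ^ 10)⁻¹) := by gcongr
    _ ≤ L n * (K * ((L n)⁻¹ * (L n)⁻¹)) := by
        gcongr
        rw [← mul_inv]
        apply inv_anti₀ (by positivity)
        calc L n * L n = L n ^ 2 := by ring
          _ ≤ L n ^ 10 := pow_le_pow_right₀ hL (by norm_num)
    _ = K * (L n)⁻¹ * (L n * (L n)⁻¹) := by ring
    _ = _ := by rw [mul_inv_cancel₀ hLp.ne', mul_one]

lemma geo2 (k : ℕ) : ∑ i ∈ Finset.range k, ((1 : ℝ) / 2) ^ i ≤ 2 := by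
  have h := (summable_geometric_of_lt_one (r := (1 : ℝ) / 2) (by norm_num) (by norm_num))
  have h2 := h.sum_le_tsum (Finset.range k) (fun i _ => by positivity)
  rw [tsum_geometric_of_lt_one (by norm_num) (by norm_num)] at h2
  norm_num at h2 ⊢
  exact h2

lemma Ub {K t : ℝ} (q : SeqP lm L C ℓ M hh B) (hK : 1 ≤ K)
    (h : ∀ n, |x n t| ≤ K * (L n ^ 10)⁻¹) (m k : ℕ) :
    ∑ i ∈ Finset.range k, L (m + i) * |x (m + i) t| ≤ 2 * K := by
  calc ∑ i ∈ Finset.range k, L (m + i) * |x (m + i) t|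
      ≤ ∑ i ∈ Finset.range k, K * (1 / 2) ^ i := by
        refine Finset.sum_le_sum fun i _ => ?_
        refine (Lxb q hK h (m + i)).trans ?_
        gcongr
        exact (sLinv q (m + i)).trans
          (pow_le_pow_of_le_one (by norm_num) (by norm_num) (by omega))
    _ = K * ∑ i ∈ Finset.range k, (1 / 2) ^ i := by rw [Finset.mul_sum]
    _ ≤ K * 2 := by gcongr; exact geo2 k
    _ = _ := by ring

lemma U_le {K t : ℝ} (q : SeqP lm L C ℓ M hh B) (hK : 1 ≤ K)
    (h : ∀ n, |x n t| ≤ K * (L n ^ 10)⁻¹) (m : ℕ) : U L x m t ≤ 2 * K := by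
  have := Ub q hK h 0 m
  simpa [U] using this

/-- bound for the terms -/
lemma vb (g : Gd lm L C ℓ M hh B T x f) {K t : ℝ} (ht : t ∈ Ico 0 T) (hK : 1 ≤ K)
    (h : ∀ n, |x n t| ≤ K * (L n ^ 10)⁻¹) (n : ℕ) :
    |x n t * (vf3 L C ℓ B (fun i => x i t) n + f n t)| ≤ 12 * K ^ 3 * (L n)⁻¹ := by
  have q := g.sq
  have hL := sL1 q n
  have hLp := sLp q n
  set y := (L n)⁻¹ with hy
  have hy0 : 0 < y := by positivity
  have hy1 : y ≤ 1 := inv_le_one_of_one_le₀ hL
  have hLy : L n * y = 1 := mul_inv_cancel₀ hLp.ne'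
  have hx : |x n t| ≤ K * y ^ 10 := by rw [hy, inv_pow]; exact h n
  have hx1 : |x n t| ≤ K * y := xb1 hK hy0 hy1 hx
  have hx2 : |x n t| ≤ 1 := g.abs_le_one ht n
  have hK3 : K ≤ K ^ 3 := le_self_pow₀ hK (by norm_num)
  have hKy : 0 < K ^ 3 * y := by positivity
  have hLx : L n * |x n t| ≤ K * y := Lxb q hK h n
  rw [mul_add, xvf]
  have t1 : |ℓ n * x n t ^ 2| ≤ K ^ 3 * y := by
    rw [abs_mul, abs_pow, abs_of_nonneg (q.ℓ_nonneg n)]
    calc ℓ n * |x n t| ^ 2 ≤ L n * |x n t| ^ 2 := by gcongr; exact sℓ q n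
      _ = L n * |x n t| * |x n t| := by ring
      _ ≤ K * y * 1 := by gcongr
      _ ≤ K ^ 3 * y := by rw [mul_one]; gcongr
  have t2 := Flb q hK h n
  have t3 : |Fl L C (fun i => x i t) (n + 1)| ≤ K ^ 3 * y := by
    refine (Flb q hK h (n + 1)).trans ?_
    have : (L (n + 1))⁻¹ ≤ y := inv_anti₀ hLp (sLmono q (Nat.le_succ n))
    gcongr
  have t4 : |x n t ^ 2 * ∑ i ∈ Finset.range n, L i * B i n * x i t| ≤ 3 * (K ^ 3 * y) := by
    rw [abs_mul, abs_pow]
    have h1 := strain (x := x) q (le_refl n) t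
    have h2 := U_le q hK h n
    calc |x n t| ^ 2 * |∑ i ∈ Finset.range n, L i * B i n * x i t|
        ≤ |x n t| ^ 2 * (1001 / 1000 * (2 * K)) := by
          gcongr; exact h1.trans (by gcongr)
      _ = |x n t| * |x n t| * (1001 / 1000 * (2 * K)) := by ring
      _ ≤ (K * y) * 1 * (1001 / 1000 * (2 * K)) := by gcongr
      _ = (2002 / 1000) * (K ^ 2 * y) := by ring
      _ ≤ 3 * (K ^ 3 * y) := by
          have : K ^ 2 ≤ K ^ 3 := pow_le_pow_right₀ hK (by norm_num)
          gcongr; norm_num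
  have t5 : |L n * x n t * ∑' l : ℕ, B n (n + 1 + l) * x (n + 1 + l) t ^ 2|
      ≤ 2 * (K ^ 3 * y) := by
    have h1 := g.tsB ht (i := n) (m := n + 1) (by omega)
    have h2 := g.Y_le_one ht (n + 1)
    rw [abs_mul, abs_mul, abs_of_pos hLp, abs_of_nonneg h1.2.1]
    calc L n * |x n t| * ∑' l : ℕ, B n (n + 1 + l) * x (n + 1 + l) t ^ 2
        ≤ (K * y) * (1001 / 1000 * 1) := by
          gcongr
          · exact h1.2.1
          · exact h1.2.2.trans (by gcongr)
      _ ≤ 2 * (K * y) := by nlinarith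
      _ ≤ 2 * (K ^ 3 * y) := by gcongr
  have t6 : |x n t * f n t| ≤ 2 * (K ^ 3 * y) := by
    rw [abs_mul]
    have h1 := g.hf n t ht
    have h2 : ph lm 0 ≤ 1 := Real.exp_le_one_iff.2 (by have := slm q 0; linarith)
    have h3 : ph lm n ≤ 1 := Real.exp_le_one_iff.2 (by have := slm q n; linarith)
    have h4 : |f n t| ≤ 2 := by
      have := ph_pos lm 0
      have : ph lm 0 * |x n t| ≤ 1 * 1 := by gcongr
      linarith
    calc |x n t| * |f n t| ≤ (K * y) * 2 := by gcongr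
      _ = 2 * (K * y) := by ring
      _ ≤ 2 * (K ^ 3 * y) := by gcongr
  rw [abs_le] at *
  constructor <;> linarith [t1.1, t1.2, t2.1, t2.2, t3.1, t3.2, t4.1, t4.2, t5.1, t5.2, t6.1, t6.2]

lemma Yb {K t : ℝ} (q : SeqP lm L C ℓ M hh B) (hK : 1 ≤ K)
    (h : ∀ n, |x n t| ≤ K * (L n ^ 10)⁻¹) (m : ℕ) : Y x m t ≤ 2 * K ^ 2 * (1 / 2) ^ m := by
  have h2 : Summable fun j : ℕ => K ^ 2 * (1 / 2) ^ m * (1 / 2 : ℝ) ^ j :=
    (summable_geometric_of_lt_one (by norm_num) (by norm_num)).mul_left _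
  have h1 : ∀ j, x (m + j) t ^ 2 ≤ K ^ 2 * (1 / 2) ^ m * (1 / 2 : ℝ) ^ j := by
    intro j
    have hL1 := sL1 q (m + j)
    have hLp := sLp q (m + j)
    have h3 : |x (m + j) t| ≤ K * (L (m + j))⁻¹ := by
      refine xb1 hK (by positivity) (inv_le_one_of_one_le₀ hL1) ?_
      rw [inv_pow]; exact h (m + j)
    have h4 : |x (m + j) t| ^ 2 ≤ (K * (L (m + j))⁻¹) ^ 2 := by gcongr
    rw [sq_abs] at h4
    refine h4.trans ?_
    rw [mul_pow, mul_assoc (K ^ 2), ← pow_add]
    gcongr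
    calc ((L (m + j))⁻¹) ^ 2 ≤ ((L (m + j))⁻¹) ^ 1 :=
          pow_le_pow_of_le_one (by positivity) (inv_le_one_of_one_le₀ hL1) (by norm_num)
      _ ≤ (1 / 2) ^ (m + j) := by rw [pow_one]; exact sLinv q (m + j)
  have h3 := (sumsq q h m).tsum_le_tsum h1 h2
  rw [tsum_mul_left, tsum_geometric_of_lt_one (by norm_num) (by norm_num)] at h3
  rw [Y]
  refine h3.trans (le_of_eq ?_)
  norm_num
  ring

/-- derivative of the tail energy -/
lemma Yder (g : Gd lm L C ℓ M hh B T x f) (m : ℕ) {t : ℝ} (ht : t ∈ Ico 0 T) :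
    ∃ D, HasDerivWithinAt (Y x m) D (Ico 0 T) t ∧
      D ≤ 2 * (src L C x m t + 2 * ph lm m) * √(Y x m t)
        + 2 * ((1 + (lm m)⁻¹) * U L x m t + ph lm 0) * Y x m t := by
  have q := g.sq
  obtain ⟨T', ht', hT'⟩ := exists_between ht.2
  obtain ⟨K, hK, hb⟩ := g.bd hT'
  have hsub : Icc 0 T' ⊆ Ico 0 T := fun τ hτ => ⟨hτ.1, hτ.2.trans_lt hT'⟩
  have htI : t ∈ Icc 0 T' := ⟨ht.1, ht'.le⟩
  have hh := hb t htI
  set F : ℕ → ℝ → ℝ := fun j τ => x (m + j) τ * (vf3 L C ℓ B (fun i => x i τ) (m + j)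
    + f (m + j) τ) with hF
  have hgeo : Summable fun j : ℕ => 24 * K ^ 3 * (1 / 2 : ℝ) ^ j :=
    (summable_geometric_of_lt_one (by norm_num) (by norm_num)).mul_left _
  have hFb : ∀ j, ∀ τ ∈ Icc 0 T', |2 * F j τ| ≤ 24 * K ^ 3 * (1 / 2 : ℝ) ^ j := by
    intro j τ hτ
    rw [abs_mul, abs_two]
    have h1 := g.vb (hsub hτ) hK (hb τ hτ) (m + j)
    have h2 : (L (m + j))⁻¹ ≤ (1 / 2) ^ j := (sLinv q (m + j)).trans
          (pow_le_pow_of_le_one (by norm_num) (by norm_num) (by omega))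
    calc 2 * |F j τ| ≤ 2 * (12 * K ^ 3 * (1 / 2) ^ j) := by
          gcongr; exact h1.trans (by gcongr)
      _ = _ := by ring
  have hd := Pool.Agent.Y274.TAIL.hasDerivWithinAt_tsum (convex_Icc 0 T')
    (f := fun j τ => x (m + j) τ ^ 2) (f' := fun j τ => 2 * F j τ) hgeo
    (fun j τ hτ => by
      have := ((g.der (m + j) τ (hsub hτ)).mono hsub).fun_pow 2
      refine this.congr_deriv ?_
      simp only [hF]; ring) hFb
    (fun τ hτ => sumsq q (hb τ hτ) m) htI
  have hd' : HasDerivWithinAt (Y x m) (∑' j, 2 * F j t) (Ico 0 T) t := by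
    refine HasDerivWithinAt.mono_of_mem_nhdsWithin hd ?_
    refine mem_of_superset (inter_mem_nhdsWithin (Ico 0 T) (Iio_mem_nhds ht'))
      (fun τ hτ => ⟨hτ.1.1, le_of_lt hτ.2⟩)
  refine ⟨_, hd', ?_⟩
  have hY0 := Y_nonneg (x := x) m t
  have hlmi : 0 < (lm m)⁻¹ := inv_pos.2 (slm q m)
  set W := √(Y x m t) with hW
  have hW0 : 0 ≤ W := Real.sqrt_nonneg _
  have hxW : ∀ j, |x (m + j) t| ≤ W := fun j => g.abs_le_sqrt ht (by omega)
  -- the perturbation
  have hsF : Summable fun j => F j t := by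
    refine Summable.of_norm_bounded hgeo fun j => ?_
    rw [Real.norm_eq_abs]
    have := hFb j t htI
    rw [abs_mul, abs_two] at this
    linarith [abs_nonneg (F j t)]
  have hfb : ∀ j, |x (m + j) t * f (m + j) t| ≤ ph lm 0 * x (m + j) t ^ 2 + W * ph lm (m + j) := by
    intro j
    rw [abs_mul]
    have h1 := g.hf (m + j) t ht
    have h2 := ph_pos lm (m + j)
    calc |x (m + j) t| * |f (m + j) t|
        ≤ |x (m + j) t| * (ph lm 0 * |x (m + j) t| + ph lm (m + j)) := by gcongr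
      _ = ph lm 0 * |x (m + j) t| ^ 2 + |x (m + j) t| * ph lm (m + j) := by ring
      _ ≤ _ := by rw [sq_abs]; gcongr; exact hxW j
  have hsf' : Summable fun j => ph lm 0 * x (m + j) t ^ 2 + W * ph lm (m + j) :=
    ((g.summ ht m).mul_left _).add ((phsum q m).1.mul_left _)
  have hsf : Summable fun j => x (m + j) t * f (m + j) t :=
    Summable.of_norm_bounded hsf' fun j => by rw [Real.norm_eq_abs]; exact hfb j
  have hf1 : ∑' j, x (m + j) t * f (m + j) t ≤ ph lm 0 * Y x m t + W * (2 * ph lm m) := by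
    refine (hsf.tsum_le_tsum (fun j => (le_abs_self _).trans (hfb j)) hsf').trans ?_
    rw [((g.summ ht m).mul_left _).tsum_add ((phsum q m).1.mul_left _), tsum_mul_left,
      tsum_mul_left]
    have := (phsum q m).2
    rw [Y]
    gcongr
  -- the main part
  set V : ℕ → ℝ := fun j => x (m + j) t * vf3 L C ℓ B (fun i => x i t) (m + j) with hV
  have hsV : Summable V := by
    have : V = fun j => F j t - x (m + j) t * f (m + j) t := by
      ext j; simp only [hV, hF]; ring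
    rw [this]
    exact hsF.sub hsf
  have hsplit : ∑' j, F j t = ∑' j, V j + ∑' j, x (m + j) t * f (m + j) t := by
    rw [← hsV.tsum_add hsf]
    refine tsum_congr fun j => ?_
    simp only [hV, hF]; ring
  have hsrc : Fl L C (fun i => x i t) m ≤ src L C x m t * W := by
    unfold Fl src
    split_ifs
    · simp
    · have := sLp q (m - 1)
      have := sCp q (m - 1)
      gcongr
      exact (le_abs_self _).trans (by simpa using hxW 0)
  have hV1 : ∑' j, V j ≤ src L C x m t * W + (1 + (lm m)⁻¹) * U L x m t * Y x m t := by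
    have hlim := hsV.hasSum.tendsto_sum_nat
    have hlim2 : Tendsto (fun k : ℕ => src L C x m t * W + (1 + (lm m)⁻¹) * U L x m t * Y x m t
        + 6 * K ^ 3 * (1 / 2 : ℝ) ^ k) atTop
        (𝓝 (src L C x m t * W + (1 + (lm m)⁻¹) * U L x m t * Y x m t)) := by
      have h1 := (tendsto_pow_atTop_nhds_zero_of_lt_one (r := (1 / 2 : ℝ)) (by norm_num)
        (by norm_num)).const_mul (6 * K ^ 3)
      have h2 := h1.const_add (src L C x m t * W + (1 + (lm m)⁻¹) * U L x m t * Y x m t)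
      simpa using h2
    refine le_of_tendsto_of_tendsto' hlim hlim2 fun k => ?_
    rw [g.part ht m k]
    have a1 : 0 ≤ ∑ j ∈ Finset.range k, ℓ (m + j) * x (m + j) t ^ 2 :=
      Finset.sum_nonneg fun j _ => mul_nonneg (q.ℓ_nonneg _) (sq_nonneg _)
    have hpow : (L (m + k))⁻¹ ≤ (1 / 2) ^ k := (sLinv q (m + k)).trans
          (pow_le_pow_of_le_one (by norm_num) (by norm_num) (by omega))
    have a2 : -(Fl L C (fun i => x i t) (m + k)) ≤ K ^ 3 * (1 / 2) ^ k := by
      have h1 := Flb q hK hh (m + k)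
      have h2 := neg_abs_le (Fl L C (fun i => x i t) (m + k))
      have h3 : K ^ 3 * (L (m + k))⁻¹ ≤ K ^ 3 * (1 / 2) ^ k := by gcongr
      linarith
    have a3 : ∑ j ∈ Finset.range k, x (m + j) t ^ 2 *
        ∑ i ∈ Finset.range m, L i * B i (m + j) * x i t ≤ (1 + (lm m)⁻¹) * U L x m t * Y x m t := by
      have hU := U_nonneg (x := x) q m t
      calc _ ≤ ∑ j ∈ Finset.range k, x (m + j) t ^ 2 * ((1 + (lm m)⁻¹) * U L x m t) := by
            refine Finset.sum_le_sum fun j _ => ?_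
            gcongr
            exact (le_abs_self _).trans (strainS q (by omega) t)
        _ = (∑ j ∈ Finset.range k, x (m + j) t ^ 2) * ((1 + (lm m)⁻¹) * U L x m t) := by
            rw [Finset.sum_mul]
        _ ≤ Y x m t * ((1 + (lm m)⁻¹) * U L x m t) := by
            gcongr
            exact (g.summ ht m).sum_le_tsum _ fun _ _ => sq_nonneg _
        _ = _ := by ring
    have a4 : -(∑ i ∈ Finset.range k, L (m + i) * x (m + i) t *
          ∑' l : ℕ, B (m + i) (m + k + l) * x (m + k + l) t ^ 2) ≤ 5 * K ^ 3 * (1 / 2) ^ k := by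
      have hYb := Yb q hK hh (m + k)
      have hU := Ub q hK hh m k
      calc -(∑ i ∈ Finset.range k, L (m + i) * x (m + i) t *
          ∑' l : ℕ, B (m + i) (m + k + l) * x (m + k + l) t ^ 2)
          = ∑ i ∈ Finset.range k, -(L (m + i) * x (m + i) t *
          ∑' l : ℕ, B (m + i) (m + k + l) * x (m + k + l) t ^ 2) := by
            rw [Finset.sum_neg_distrib]
        _ ≤ ∑ i ∈ Finset.range k, L (m + i) * |x (m + i) t| *
              (1001 / 1000 * Y x (m + k) t) := by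
            refine Finset.sum_le_sum fun i hi => ?_
            have hi' := Finset.mem_range.1 hi
            have h1 := g.tsB ht (i := m + i) (m := m + k) (by omega)
            have hLp := sLp q (m + i)
            have h2 := neg_abs_le (x (m + i) t)
            calc -(L (m + i) * x (m + i) t * ∑' l : ℕ, B (m + i) (m + k + l) *
                  x (m + k + l) t ^ 2)
                = L (m + i) * (-(x (m + i) t)) * ∑' l : ℕ, B (m + i) (m + k + l) *
                  x (m + k + l) t ^ 2 := by ring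
              _ ≤ L (m + i) * |x (m + i) t| * ∑' l : ℕ, B (m + i) (m + k + l) *
                  x (m + k + l) t ^ 2 := by
                  have := h1.2.1
                  gcongr
                  linarith
              _ ≤ _ := by gcongr; exact h1.2.2
        _ = (∑ i ∈ Finset.range k, L (m + i) * |x (m + i) t|) *
              (1001 / 1000 * Y x (m + k) t) := by rw [Finset.sum_mul]
        _ ≤ (2 * K) * (1001 / 1000 * (2 * K ^ 2 * (1 / 2) ^ (m + k))) := by
            have := Y_nonneg (x := x) (m + k) t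
            gcongr
        _ ≤ (2 * K) * (1001 / 1000 * (2 * K ^ 2 * (1 / 2) ^ k)) := by
            gcongr 2 * K * (1001 / 1000 * (2 * K ^ 2 * ?_))
            exact pow_le_pow_of_le_one (by norm_num) (by norm_num) (by omega)
        _ = 4004 / 1000 * (K ^ 3 * (1 / 2) ^ k) := by ring
        _ ≤ 5 * (K ^ 3 * (1 / 2) ^ k) := by gcongr; norm_num
        _ = _ := by ring
    linarith
  rw [tsum_mul_left, hsplit]
  nlinarith

lemma Ycont (g : Gd lm L C ℓ M hh B T x f) (m : ℕ) : ContinuousOn (Y x m) (Ico 0 T) :=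
  fun _ ht => (g.Yder m ht).choose_spec.1.continuousWithinAt

end Gd

end Pool.Agent.Y7.EJ
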