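import Pool.Agent.Y7.EJ.P2

/-! Generic lemmas, numerical facts, bounds of the vector field. -/

open Set Filter Topology MeasureTheory

set_option autoImplicit false

namespace Pool.Agent.Y7.EJ

open Pool.Agent.Y5 Pool.Agent.Y5.D

/-- Gronwall for square roots, variable rate. -/
lemma sqrt_gronQ {Y D P P' Q Q' : ℝ → ℝ} {a b : ℝ} (hab : a ≤ b)
    (hc : ContinuousOn Y (Icc a b)) (hY : ∀ t ∈ Icc a b, 0 ≤ Y t)
    (hP : ContinuousOn P (Icc a b)) (hPd : ∀ t ∈ Ioo a b, HasDerivAt P (P' t) t)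
    (hP0 : ∀ t ∈ Ioo a b, 0 ≤ P' t)
    (hQ : ContinuousOn Q (Icc a b)) (hQd : ∀ t ∈ Ioo a b, HasDerivAt Q (Q' t) t)
    (hQ0 : ∀ t ∈ Ioo a b, 0 ≤ Q' t)
    (hd : ∀ t ∈ Ioo a b, HasDerivAt Y (D t) t)
    (h : ∀ t ∈ Ioo a b, D t ≤ 2 * P' t * √(Y t) + 2 * Q' t * Y t) :
    √(Y b) ≤ Real.exp (Q b - Q a) * (√(Y a) + (P b - P a)) := by
  have key : ∀ δ : ℝ, 0 < δ →
      √(Y b + δ) ≤ Real.exp (Q b - Q a) * (√(Y a + δ) + (P b - P a)) := by
    intro δ hδ
    have hmonoQ : ∀ t ∈ Icc a b, Q a ≤ Q t := fun t ht =>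
      mono_of ht.1 (hQ.mono (Icc_subset_Icc_right ht.2))
        (fun τ hτ => hQd τ ⟨hτ.1, hτ.2.trans_le ht.2⟩)
        (fun τ hτ => hQ0 τ ⟨hτ.1, hτ.2.trans_le ht.2⟩)
    have hmono := mono_of (f := fun t => P t - Real.exp (-(Q t - Q a)) * √(Y t + δ))
      (f' := fun t => P' t - (Real.exp (-(Q t - Q a)) * (-(Q' t)) * √(Y t + δ)
        + Real.exp (-(Q t - Q a)) * (D t / (2 * √(Y t + δ))))) hab
      (by
        refine hP.sub (ContinuousOn.mul ?_ ?_)
        · exact ((hQ.sub continuousOn_const).neg).rexp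
        · exact (hc.add continuousOn_const).sqrt)
      (fun t ht => by
        have hpos : 0 < Y t + δ := by have := hY t ⟨ht.1.le, ht.2.le⟩; linarith
        have e1 : HasDerivAt (fun t => √(Y t + δ)) (D t / (2 * √(Y t + δ))) t :=
          ((hd t ht).add_const δ).sqrt hpos.ne'
        have e2 : HasDerivAt (fun t => Real.exp (-(Q t - Q a)))
            (Real.exp (-(Q t - Q a)) * (-(Q' t))) t := by
          have := (((hQd t ht).sub_const (Q a))).fun_neg.exp
          simpa using this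
        exact (hPd t ht).sub (e2.mul e1))
      (fun t ht => by
        have hY0 := hY t ⟨ht.1.le, ht.2.le⟩
        have hpos : 0 < Y t + δ := by linarith
        set g := √(Y t + δ) with hg
        have hgpos : 0 < g := Real.sqrt_pos.2 hpos
        have hg2 : g ^ 2 = Y t + δ := Real.sq_sqrt hpos.le
        have hsq : √(Y t) ≤ g := Real.sqrt_le_sqrt (by linarith)
        have hP0' := hP0 t ht
        have hQ0' := hQ0 t ht
        have h1 : D t / (2 * g) ≤ P' t + Q' t * g := by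
          rw [div_le_iff₀ (by positivity)]
          have := h t ht
          nlinarith [mul_le_mul_of_nonneg_left hsq hP0', mul_nonneg hQ0' hδ.le]
        have he : Real.exp (-(Q t - Q a)) ≤ 1 := by
          rw [Real.exp_le_one_iff]
          linarith [hmonoQ t ⟨ht.1.le, ht.2.le⟩]
        have he0 := Real.exp_pos (-(Q t - Q a))
        have h2 : Real.exp (-(Q t - Q a)) * (D t / (2 * g))
            ≤ Real.exp (-(Q t - Q a)) * (P' t + Q' t * g) := by gcongr
        nlinarith [mul_le_mul_of_nonneg_right he hP0'])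
    have hmono' : P a - √(Y a + δ) ≤ P b - Real.exp (-(Q b - Q a)) * √(Y b + δ) := by
      simpa using hmono
    have he : Real.exp (Q b - Q a) * Real.exp (-(Q b - Q a)) = 1 := by
      rw [← Real.exp_add]; simp
    have he0 := Real.exp_pos (Q b - Q a)
    have h3 : Real.exp (-(Q b - Q a)) * √(Y b + δ) ≤ √(Y a + δ) + (P b - P a) := by linarith
    calc √(Y b + δ) = Real.exp (Q b - Q a) * (Real.exp (-(Q b - Q a)) * √(Y b + δ)) := by
          rw [← mul_assoc, he, one_mul]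
      _ ≤ _ := by gcongr
  have c1 : Tendsto (fun δ : ℝ => √(Y b + δ)) (𝓝[>] 0) (𝓝 (√(Y b))) := by
    have : Continuous fun δ : ℝ => √(Y b + δ) := by fun_prop
    have := this.tendsto 0
    rw [add_zero] at this
    exact this.mono_left nhdsWithin_le_nhds
  have c2 : Tendsto (fun δ : ℝ => Real.exp (Q b - Q a) * (√(Y a + δ) + (P b - P a))) (𝓝[>] 0)
      (𝓝 (Real.exp (Q b - Q a) * (√(Y a) + (P b - P a)))) := by
    have : Continuous fun δ : ℝ => Real.exp (Q b - Q a) * (√(Y a + δ) + (P b - P a)) := by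
      fun_prop
    have := this.tendsto 0
    simp only [add_zero] at this
    exact this.mono_left nhdsWithin_le_nhds
  exact le_of_tendsto_of_tendsto c1 c2 (eventually_nhdsWithin_of_forall fun δ hδ => key δ hδ)

/-- continuous induction for two functions -/
lemma cont_ind3 {f₁ f₂ : ℝ → ℝ} {a b c₁ c₂ : ℝ} (hf₁ : ContinuousOn f₁ (Ico a b))
    (hf₂ : ContinuousOn f₂ (Ico a b)) (ha₁ : f₁ a < c₁) (ha₂ : f₂ a < c₂)
    (h : ∀ t ∈ Ioo a b, (∀ τ ∈ Ico a t, f₁ τ < c₁ ∧ f₂ τ < c₂) → f₁ t < c₁ ∧ f₂ t < c₂) :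
    ∀ t ∈ Ico a b, f₁ t < c₁ ∧ f₂ t < c₂ := by
  have hc : ContinuousOn (fun t => max (f₁ t - c₁) (f₂ t - c₂)) (Ico a b) :=
    (hf₁.sub continuousOn_const).sup (hf₂.sub continuousOn_const)
  have key : ∀ t, max (f₁ t - c₁) (f₂ t - c₂) < 0 ↔ f₁ t < c₁ ∧ f₂ t < c₂ := fun t => by
    rw [max_lt_iff, sub_neg, sub_neg]
  rcases first_time hc ((key a).2 ⟨ha₁, ha₂⟩) with h1 | ⟨t₁, ht₁, h2, h3⟩
  · exact fun t ht => (key t).1 (h1 t ht)
  · exfalso
    have h4 := (key t₁).2 (h t₁ ht₁ fun τ hτ => (key τ).1 (h3 τ hτ))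
    linarith [h2, h4]

/-- Gronwall for the positive part. -/
lemma pos_gron {g g' Q Q' : ℝ → ℝ} {b ζ : ℝ} (hb : 0 ≤ b) (hζ : 0 ≤ ζ)
    (hg : ContinuousOn g (Icc 0 b)) (hgd : ∀ t ∈ Ioo 0 b, HasDerivAt g (g' t) t)
    (hQ : ContinuousOn Q (Icc 0 b)) (hQd : ∀ t ∈ Ioo 0 b, HasDerivAt Q (Q' t) t)
    (hQ0 : ∀ t ∈ Ioo 0 b, 0 ≤ Q' t) (h0 : g 0 ≤ 0)
    (h : ∀ t ∈ Ioo 0 b, 0 ≤ g t → g' t ≤ Q' t * g t + ζ) :
    g b ≤ Real.exp (Q b - Q 0) * (ζ * b) := by
  by_contra hcon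
  push Not at hcon
  have hgb : 0 < g b := lt_of_le_of_lt (by positivity) hcon
  -- the last zero
  set N := {t | t ∈ Icc 0 b ∧ g t ≤ 0} with hN
  have hclosed : IsClosed N := by
    have : N = Icc 0 b ∩ g ⁻¹' Iic 0 := by ext; simp [hN]
    rw [this]
    exact hg.preimage_isClosed_of_isClosed isClosed_Icc isClosed_Iic
  have hNne : N.Nonempty := ⟨0, ⟨le_rfl, hb⟩, h0⟩
  have hNb : BddAbove N := ⟨b, fun t ht => ht.1.2⟩
  have hmem : sSup N ∈ N := hclosed.csSup_mem hNne hNb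
  set s := sSup N with hs
  have hsb : s < b := by
    rcases hmem.1.2.eq_or_lt with h1 | h1
    · exfalso; have := hmem.2; rw [h1] at this; linarith
    · exact h1
  have hs0 : 0 ≤ s := hmem.1.1
  have hpos : ∀ t ∈ Ioc s b, 0 < g t := fun t ht => by
    by_contra hn
    push Not at hn
    have : t ≤ s := le_csSup hNb ⟨⟨hs0.trans ht.1.le, ht.2⟩, hn⟩
    linarith [ht.1]
  have hsub : Icc s b ⊆ Icc 0 b := Icc_subset_Icc_left hs0
  have hmQ : ∀ t ∈ Icc s b, Q s ≤ Q t := fun t ht =>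
    mono_of ht.1 (hQ.mono ((Icc_subset_Icc_right ht.2).trans hsub))
      (fun τ hτ => hQd τ ⟨hs0.trans_lt hτ.1, hτ.2.trans_le ht.2⟩)
      (fun τ hτ => hQ0 τ ⟨hs0.trans_lt hτ.1, hτ.2.trans_le ht.2⟩)
  have hmQ0 : Q 0 ≤ Q s :=
    mono_of hs0 (hQ.mono (Icc_subset_Icc_right hsb.le))
      (fun τ hτ => hQd τ ⟨hτ.1, hτ.2.trans hsb⟩)
      (fun τ hτ => hQ0 τ ⟨hτ.1, hτ.2.trans hsb⟩)
  have hmono := mono_of (f := fun t => ζ * t - Real.exp (-(Q t - Q s)) * g t)
    (f' := fun t => ζ - (Real.exp (-(Q t - Q s)) * (-(Q' t)) * g t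
      + Real.exp (-(Q t - Q s)) * g' t)) hsb.le
    (by
      refine ContinuousOn.sub (by fun_prop) (ContinuousOn.mul ?_ (hg.mono hsub))
      exact (((hQ.mono hsub).sub continuousOn_const).neg).rexp)
    (fun t ht => by
      have ht' : t ∈ Ioo 0 b := ⟨hs0.trans_lt ht.1, ht.2⟩
      have e2 : HasDerivAt (fun t => Real.exp (-(Q t - Q s)))
          (Real.exp (-(Q t - Q s)) * (-(Q' t))) t := by
        have := (((hQd t ht').sub_const (Q s))).fun_neg.exp
        simpa using this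
      have e3 : HasDerivAt (fun t : ℝ => ζ * t) ζ t := by
        simpa using (hasDerivAt_id t).const_mul ζ
      exact e3.sub (e2.mul (hgd t ht')))
    (fun t ht => by
      have ht' : t ∈ Ioo 0 b := ⟨hs0.trans_lt ht.1, ht.2⟩
      have h1 := h t ht' (hpos t ⟨ht.1, ht.2.le⟩).le
      have he0 := Real.exp_pos (-(Q t - Q s))
      have he : Real.exp (-(Q t - Q s)) ≤ 1 := by
        rw [Real.exp_le_one_iff]
        linarith [hmQ t ⟨ht.1.le, ht.2.le⟩]
      have h2 := mul_le_mul_of_nonneg_left h1 he0.le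
      nlinarith [mul_le_mul_of_nonneg_right he hζ])
  have hgs := hmem.2
  have h5 : Real.exp (-(Q b - Q s)) * g b ≤ ζ * b := by
    have h6 : ζ * s - Real.exp (-(Q s - Q s)) * g s ≤ ζ * b - Real.exp (-(Q b - Q s)) * g b := hmono
    rw [sub_self, neg_zero, Real.exp_zero, one_mul] at h6
    have : 0 ≤ ζ * s := by positivity
    linarith
  have he : Real.exp (Q b - Q s) * Real.exp (-(Q b - Q s)) = 1 := by
    rw [← Real.exp_add]; simp
  have h7 : g b ≤ Real.exp (Q b - Q s) * (ζ * b) := by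
    calc g b = Real.exp (Q b - Q s) * (Real.exp (-(Q b - Q s)) * g b) := by
          rw [← mul_assoc, he, one_mul]
      _ ≤ _ := by gcongr
  have h8 : Real.exp (Q b - Q s) * (ζ * b) ≤ Real.exp (Q b - Q 0) * (ζ * b) := by
    gcongr
  linarith

section seq

variable {lm L C ℓ M hh : ℕ → ℝ} {B : ℕ → ℕ → ℝ}

/-- a quantity which is larger than all polynomial quantities -/
noncomputable def EE (lm : ℕ → ℝ) (n : ℕ) : ℝ := Real.exp (lm n / 10 ^ 7)

lemma EE_pos (n : ℕ) : 0 < EE lm n := Real.exp_pos _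

lemma EE_lm (q : SeqP lm L C ℓ M hh B) (n : ℕ) : 10 ^ 15 * lm n ≤ EE lm n := by
  have h := q.lm_big n
  have h1 : (lm n / 10 ^ 7) ^ 2 / 2 ≤ Real.exp (lm n / 10 ^ 7) :=
    Real.quadratic_le_exp_of_nonneg (by positivity) |>.trans' (by
      have : (0 : ℝ) ≤ lm n / 10 ^ 7 := by positivity
      linarith)
  refine le_trans ?_ h1
  have h2 : 10 ^ 30 * lm n ≤ lm n ^ 2 := by nlinarith [slm q n]
  have e : (lm n / 10 ^ 7) ^ 2 / 2 = lm n ^ 2 / (2 * 10 ^ 14) := by ring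
  rw [e, le_div_iff₀ (by positivity)]
  have h3 := slm q n
  nlinarith

lemma EE_big (q : SeqP lm L C ℓ M hh B) (n : ℕ) : 10 ^ 45 ≤ EE lm n := by
  have h := q.lm_big n
  have := EE_lm q n
  linarith

lemma EE_L (q : SeqP lm L C ℓ M hh B) {k n : ℕ} (hk : k ≤ n + 5) : L k ≤ EE lm n := by
  have h := q.exp_big n
  have h1 := sLmono q hk
  have h2 := sL1 q (n + 5)
  have h3 : L (n + 5) ≤ L (n + 5) * M (n + 5) := by
    have := q.M_one (n + 5)
    nlinarith
  have e : Real.exp (lm n / 10 ^ 6) = EE lm n ^ 10 := by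
    rw [EE, ← Real.exp_nat_mul]; congr 1; push_cast; ring
  rw [e] at h
  have h4 : L (n + 5) * M (n + 5) ≤ EE lm n := by
    exact le_of_pow_le_pow_left₀ (by norm_num) (EE_pos n).le h
  linarith

lemma EE_lm' (q : SeqP lm L C ℓ M hh B) {k n : ℕ} (hk : k ≤ n) : lm k ≤ EE lm n := by
  have h := EE_lm q n
  have h1 := slmmono q hk
  have := slm q n
  linarith

lemma EE_lm4 (q : SeqP lm L C ℓ M hh B) {k n : ℕ} (hk : k ≤ n) : 4 * lm k ≤ EE lm n := by
  have h := EE_lm q n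
  have h1 := slmmono q hk
  have := slm q n
  linarith

lemma EE_exp (q : SeqP lm L C ℓ M hh B) (n k : ℕ) {α β : ℝ} (h : (k : ℝ) / 10 ^ 7 + α ≤ β) :
    EE lm n ^ k * Real.exp (α * lm n) ≤ Real.exp (β * lm n) := by
  rw [EE, ← Real.exp_nat_mul, ← Real.exp_add]
  apply Real.exp_le_exp.2
  have := slm q n
  calc (k : ℝ) * (lm n / 10 ^ 7) + α * lm n = ((k : ℝ) / 10 ^ 7 + α) * lm n := by ring
    _ ≤ β * lm n := by gcongr

lemma exp_next (q : SeqP lm L C ℓ M hh B) (n : ℕ) {α : ℝ} (h : α ≤ 0) :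
    Real.exp (α * lm (n + 1)) ≤ Real.exp (100 * α * lm n) := by
  apply Real.exp_le_exp.2
  have := slm100 q n
  nlinarith

lemma ph_eq (n : ℕ) : ph lm n = Real.exp ((-1) * lm n) := by
  rw [ph]; congr 1; ring

lemma C_hi' (q : SeqP lm L C ℓ M hh B) (n : ℕ) : C n ≤ Real.exp (-(157 / 100) * lm n) := by
  rw [q.C_eq n]
  apply Real.exp_le_exp.2
  have h1 := slm q n
  have h2 := Real.pi_gt_d2
  nlinarith

lemma C_lo' (q : SeqP lm L C ℓ M hh B) (n : ℕ) : Real.exp (-(158 / 100) * lm n) ≤ C n := by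
  rw [q.C_eq n]
  apply Real.exp_le_exp.2
  have h1 := slm q n
  have h2 := Real.pi_lt_d2
  nlinarith

/-- bound for the tails -/
noncomputable def eta (lm : ℕ → ℝ) (n : ℕ) : ℝ := Real.exp (-(14 / 10) * lm n)

lemma eta_pos (n : ℕ) : 0 < eta lm n := Real.exp_pos _

end seq

namespace Gd

variable {lm L C ℓ M hh : ℕ → ℝ} {B : ℕ → ℕ → ℝ} {T : ℝ} {x f : ℕ → ℝ → ℝ}

/-- common estimates of the terms of the vector field -/
lemma vf_terms (g : Gd lm L C ℓ M hh B T x f) {t : ℝ} (ht : t ∈ Ico 0 T) (m : ℕ) :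
    |x m t * ∑ i ∈ Finset.range m, L i * B i m * x i t| ≤ 1001 / 1000 * U L x m t * |x m t| ∧
    0 ≤ L m * ∑' k : ℕ, B m (m + 1 + k) * x (m + 1 + k) t ^ 2 ∧
    L m * ∑' k : ℕ, B m (m + 1 + k) * x (m + 1 + k) t ^ 2 ≤ 1001 / 1000 * L m * Y x (m + 1) t ∧
    |L m * C m * x m t * x (m + 1) t| ≤ C m * L m * |x (m + 1) t| * |x m t| := by
  have q := g.sq
  have hL := sLp q m
  have hC := sCp q m
  have h1 := g.tsB ht (i := m) (m := m + 1) (by omega)
  have h2 := strain (x := x) q (le_refl m) t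
  refine ⟨?_, mul_nonneg hL.le h1.2.1, ?_, ?_⟩
  · rw [abs_mul, mul_comm]; gcongr
  · calc _ ≤ L m * (1001 / 1000 * Y x (m + 1) t) := by gcongr; exact h1.2.2
      _ = _ := by ring
  · rw [abs_mul, abs_mul, abs_mul, abs_of_pos hL, abs_of_pos hC]
    apply le_of_eq; ring

/-- lower bound for the vector field -/
lemma vf_ge (g : Gd lm L C ℓ M hh B T x f) {t : ℝ} (ht : t ∈ Ico 0 T) (m : ℕ) :
    src L C x m t - (ℓ m + C m * L m * |x (m + 1) t|
        + 1001 / 1000 * U L x m t + ph lm 0) * |x m t| - 1001 / 1000 * L m * Y x (m + 1) t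
        - ph lm m
      ≤ vf3 L C ℓ B (fun k => x k t) m + f m t := by
  obtain ⟨h1, h2, h3, h4⟩ := g.vf_terms ht m
  have h5 : ℓ m * x m t ≤ ℓ m * |x m t| := by
    have := g.sq.ℓ_nonneg m
    gcongr
    exact le_abs_self _
  have h6 := neg_le_of_abs_le (g.hf m t ht)
  have h7 := neg_le_of_abs_le h1
  have h8 := le_of_abs_le h4
  unfold vf3 src
  simp only
  linarith

/-- lower bound for the vector field at a negative mode -/
lemma vf_ge_neg (g : Gd lm L C ℓ M hh B T x f) {t : ℝ} (ht : t ∈ Ico 0 T) (m : ℕ)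
    (hx : x m t ≤ 0) :
    -((C m * L m * |x (m + 1) t|
        + 1001 / 1000 * U L x m t + ph lm 0) * |x m t|) - 1001 / 1000 * L m * Y x (m + 1) t
        - ph lm m
      ≤ vf3 L C ℓ B (fun k => x k t) m + f m t := by
  obtain ⟨h1, h2, h3, h4⟩ := g.vf_terms ht m
  have h5 : ℓ m * x m t ≤ 0 := mul_nonpos_of_nonneg_of_nonpos (g.sq.ℓ_nonneg m) hx
  have h6 := neg_le_of_abs_le (g.hf m t ht)
  have h7 := neg_le_of_abs_le h1
  have h8 := le_of_abs_le h4
  have h9 := src_nonneg (x := x) g.sq m t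
  unfold vf3
  unfold src at h9
  simp only
  linarith

/-- upper bound for the vector field at a positive mode -/
lemma vf_le (g : Gd lm L C ℓ M hh B T x f) {t : ℝ} (ht : t ∈ Ico 0 T) (m : ℕ) (h0 : 0 ≤ x m t) :
    vf3 L C ℓ B (fun k => x k t) m + f m t ≤
      src L C x m t + (C m * L m * |x (m + 1) t| + 1001 / 1000 * U L x m t + ph lm 0) * x m t
        + ph lm m := by
  obtain ⟨h1, h2, h3, h4⟩ := g.vf_terms ht m
  have h5 : 0 ≤ ℓ m * x m t := mul_nonneg (g.sq.ℓ_nonneg m) h0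
  have h6 := le_of_abs_le (g.hf m t ht)
  have h7 := le_of_abs_le h1
  have h8 := neg_le_of_abs_le h4
  rw [abs_of_nonneg h0] at h6 h7 h8
  unfold vf3 src
  simp only
  linarith

/-- growth of the energy of the tail under a bounded strain -/
lemma grow (g : Gd lm L C ℓ M hh B T x f) (i : ℕ) {α t q c : ℝ} (h0 : 0 ≤ α) (hαt : α ≤ t)
    (ht : t < T) (hq : 0 ≤ q) (hc : 0 ≤ c)
    (hU : ∀ τ ∈ Ioo α t, (1 + (lm i)⁻¹) * U L x i τ + ph lm 0 ≤ q)
    (hx : ∀ τ ∈ Ioo α t, src L C x i τ + 2 * ph lm i ≤ c) :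
    √(Y x i t) ≤ Real.exp (q * (t - α)) * (√(Y x i α) + c * (t - α)) := by
  have hsub : Icc α t ⊆ Ico 0 T := fun τ hτ => ⟨h0.trans hτ.1, hτ.2.trans_lt ht⟩
  have h1 := sqrt_gron (Y := Y x i) (D := deriv (Y x i)) (P := fun τ => c * τ) (P' := fun _ => c)
    (a := α) (b := t) (q := q) hαt hq ((g.Ycont i).mono hsub) (fun τ _ => Y_nonneg _ _)
    (by fun_prop) (fun τ _ => by simpa using (hasDerivAt_id τ).const_mul c) (fun _ _ => hc)
    (fun τ hτ => by
      have hτ' : τ ∈ Ico 0 T := hsub ⟨hτ.1.le, hτ.2.le⟩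
      obtain ⟨D, hD, _⟩ := g.Yder i hτ'
      have h2 := hD.hasDerivAt (Ico_mem_nhds (h0.trans_lt hτ.1) (hτ.2.trans ht))
      rw [h2.deriv]; exact h2)
    (fun τ hτ => by
      have hτ' : τ ∈ Ico 0 T := hsub ⟨hτ.1.le, hτ.2.le⟩
      obtain ⟨D, hD, hDle⟩ := g.Yder i hτ'
      have h2 := hD.hasDerivAt (Ico_mem_nhds (h0.trans_lt hτ.1) (hτ.2.trans ht))
      rw [h2.deriv]
      refine hDle.trans ?_
      have h3 := hU τ hτ
      have h4 := hx τ hτ
      have h5 := Y_nonneg (x := x) i τ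
      gcongr)
  have e : c * t - c * α = c * (t - α) := by ring
  rwa [e] at h1

lemma cabs (g : Gd lm L C ℓ M hh B T x f) (i : ℕ) :
    ContinuousOn (fun τ => L i * |x i τ|) (Ico 0 T) :=
  continuousOn_const.mul (g.cont i).abs

/-- integral of a mode -/
noncomputable def I (L : ℕ → ℝ) (x : ℕ → ℝ → ℝ) (i : ℕ) (t : ℝ) : ℝ :=
  Pr (fun τ => L i * |x i τ|) t

lemma I_mono (g : Gd lm L C ℓ M hh B T x f) (i : ℕ) {s t : ℝ} (hs : 0 ≤ s) (hst : s ≤ t)
    (ht : t < T) : I L x i s ≤ I L x i t :=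
  Pr_mono (g.cabs i) ⟨hs, hst.trans_lt ht⟩ ⟨hs.trans hst, ht⟩ hst fun τ _ =>
    mul_nonneg (sLp g.sq i).le (abs_nonneg _)

lemma I_nonneg (g : Gd lm L C ℓ M hh B T x f) (i : ℕ) {t : ℝ} (ht : t ∈ Ico 0 T) :
    0 ≤ I L x i t := by
  have := g.I_mono i le_rfl ht.1 ht.2
  simpa [I] using this

/-- growth of the energy of the tail, with integrals -/
lemma growI (g : Gd lm L C ℓ M hh B T x f) (m : ℕ) {t c : ℝ} (ht : t ∈ Ico 0 T)
    (hc : ∀ τ ∈ Ioo 0 t, src L C x (m + 1) τ + 2 * ph lm (m + 1) ≤ c) :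
    √(Y x (m + 1) t) ≤ Real.exp ((1 + (lm (m + 1))⁻¹) * ∑ i ∈ Finset.range (m + 1), I L x i t
      + ph lm 0 * t) * (c * t) := by
  have q := g.sq
  rcases ht.1.eq_or_lt with h0 | h0
  · subst h0
    have : Y x (m + 1) 0 = 0 := by
      rw [Y]
      have : ∀ j : ℕ, x (m + 1 + j) 0 ^ 2 = 0 := fun j => by
        have e : m + 1 + j = m + j + 1 := by omega
        rw [e, g.hn]; simp
      simp [this]
    rw [this]; simp
  have hc0 : 0 ≤ c := by
    have h1 := hc (t / 2) ⟨by linarith, by linarith⟩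
    have h2 := src_nonneg (x := x) q (m + 1) (t / 2)
    have h3 := ph_pos lm (m + 1)
    linarith
  have hsub : Icc 0 t ⊆ Ico 0 T := fun τ hτ => ⟨hτ.1, hτ.2.trans_lt ht.2⟩
  have h1 := sqrt_gronQ (Y := Y x (m + 1)) (D := deriv (Y x (m + 1))) (P := fun τ => c * τ)
    (P' := fun _ => c)
    (Q := fun τ => (1 + (lm (m + 1))⁻¹) * ∑ i ∈ Finset.range (m + 1), I L x i τ + ph lm 0 * τ)
    (Q' := fun τ => (1 + (lm (m + 1))⁻¹) * U L x (m + 1) τ + ph lm 0)
    (a := 0) (b := t) ht.1 ((g.Ycont (m + 1)).mono hsub) (fun τ _ => Y_nonneg _ _)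
    (by fun_prop) (fun τ _ => by simpa using (hasDerivAt_id τ).const_mul c) (fun _ _ => hc0)
    (by
      refine ContinuousOn.add (continuousOn_const.mul ?_) (by fun_prop)
      exact continuousOn_finset_sum _ fun i _ => (Pr_cont (g.cabs i)).mono hsub)
    (fun τ hτ => by
      have h1 : HasDerivAt (fun τ => ∑ i ∈ Finset.range (m + 1), I L x i τ)
          (U L x (m + 1) τ) τ := by
        have := HasDerivAt.fun_sum (u := Finset.range (m + 1)) (A := fun i τ => I L x i τ)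
          (A' := fun i => L i * |x i τ|) (x := τ)
          (fun i _ => Pr_deriv (g.cabs i) ⟨hτ.1, hτ.2.trans ht.2⟩)
        exact this
      have h2 : HasDerivAt (fun τ : ℝ => ph lm 0 * τ) (ph lm 0) τ := by
        simpa using (hasDerivAt_id τ).const_mul (ph lm 0)
      exact (h1.const_mul _).fun_add h2)
    (fun τ hτ => by
      have := U_nonneg (x := x) q (m + 1) τ
      have := ph_pos lm 0
      have := slm q (m + 1)
      positivity)
    (fun τ hτ => by
      have hτ' : τ ∈ Ico 0 T := hsub ⟨hτ.1.le, hτ.2.le⟩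
      obtain ⟨D, hD, _⟩ := g.Yder (m + 1) hτ'
      have h2 := hD.hasDerivAt (Ico_mem_nhds hτ.1 (hτ.2.trans ht.2))
      rw [h2.deriv]; exact h2)
    (fun τ hτ => by
      have hτ' : τ ∈ Ico 0 T := hsub ⟨hτ.1.le, hτ.2.le⟩
      obtain ⟨D, hD, hDle⟩ := g.Yder (m + 1) hτ'
      have h2 := hD.hasDerivAt (Ico_mem_nhds hτ.1 (hτ.2.trans ht.2))
      rw [h2.deriv]
      refine hDle.trans ?_
      have h4 := hc τ hτ
      gcongr)
  have hY0 : Y x (m + 1) 0 = 0 := by
    rw [Y]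
    have : ∀ j : ℕ, x (m + 1 + j) 0 ^ 2 = 0 := fun j => by
      have e : m + 1 + j = m + j + 1 := by omega
      rw [e, g.hn]; simp
    simp [this]
  rw [hY0] at h1
  simpa [I] using h1

/-- bound of the tails -/
lemma TB (g : Gd lm L C ℓ M hh B T x f) {m : ℕ} {t : ℝ} (ht : t ∈ Ico 0 T) (htl : t ≤ 4 * lm 0)
    (hI : ∑ i ∈ Finset.range (m + 1), I L x i t ≤ 1 / 10 * lm m) :
    √(Y x (m + 1) t) ≤ eta lm m := by
  have q := g.sq
  have h1 := g.growI m ht (c := 2 * (EE lm m * Real.exp (-(157 / 100) * lm m))) (fun τ hτ => by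
    have hL := EE_L q (k := m) (n := m) (by omega)
    have hLp := sLp q m
    have hCp := sCp q m
    have hC := C_hi' q m
    have hE := EE_big q m
    have hx : x m τ ^ 2 ≤ 1 := by
      have := g.abs_le_one ⟨hτ.1.le, hτ.2.trans ht.2⟩ m
      rw [← sq_abs]
      exact pow_le_one₀ (abs_nonneg _) this
    have a1 : src L C x (m + 1) τ ≤ EE lm m * Real.exp (-(157 / 100) * lm m) := by
      unfold src
      rw [if_neg (by omega), Nat.add_sub_cancel]
      calc L m * C m * x m τ ^ 2 ≤ EE lm m * Real.exp (-(157 / 100) * lm m) * 1 := by gcongr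
        _ = _ := mul_one _
    have a2 : 2 * ph lm (m + 1) ≤ EE lm m * Real.exp (-(157 / 100) * lm m) := by
      rw [ph_eq]
      have h2 := exp_next q m (α := -1) (by norm_num)
      have h3 : Real.exp (100 * (-1) * lm m) ≤ Real.exp (-(157 / 100) * lm m) := by
        apply Real.exp_le_exp.2
        have := slm q m
        nlinarith
      have h4 : (2 : ℝ) ≤ EE lm m := by linarith
      have h5 : Real.exp (-1 * lm (m + 1)) ≤ Real.exp (-(157 / 100) * lm m) := h2.trans h3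
      gcongr
    linarith)
  refine h1.trans ?_
  have hE := EE_big q m
  have hlm0 := slm q 0
  have hb1 : (1 + (lm (m + 1))⁻¹) * ∑ i ∈ Finset.range (m + 1), I L x i t + ph lm 0 * t
      ≤ 11 / 100 * lm m := by
    have hS : 0 ≤ ∑ i ∈ Finset.range (m + 1), I L x i t :=
      Finset.sum_nonneg fun i _ => g.I_nonneg i ht
    have hi : (lm (m + 1))⁻¹ ≤ 1 / 100 := by
      have := q.lm_big (m + 1)
      rw [inv_le_comm₀ (slm q (m + 1)) (by norm_num)]; linarith
    have hi2 : (1 + (lm (m + 1))⁻¹) * ∑ i ∈ Finset.range (m + 1), I L x i t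
        ≤ (1 + 1 / 100) * (1 / 10 * lm m) := by gcongr
    have h2 : ph lm 0 * t ≤ 4 := by
      have h3 : ph lm 0 * lm 0 ≤ 1 := by
        rw [ph, Real.exp_neg, ← div_eq_inv_mul, div_le_one (Real.exp_pos _)]
        linarith [Real.add_one_le_exp (lm 0)]
      have h4 := ph_pos lm 0
      calc ph lm 0 * t ≤ ph lm 0 * (4 * lm 0) := by gcongr
        _ = 4 * (ph lm 0 * lm 0) := by ring
        _ ≤ 4 := by linarith
    have := q.lm_big m
    linarith
  have ht' : t ≤ EE lm m := htl.trans (EE_lm4 q (Nat.zero_le m))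
  have ht0 := ht.1
  calc Real.exp ((1 + (lm (m + 1))⁻¹) * ∑ i ∈ Finset.range (m + 1), I L x i t + ph lm 0 * t)
        * (2 * (EE lm m * Real.exp (-(157 / 100) * lm m)) * t)
      ≤ Real.exp (11 / 100 * lm m)
        * (EE lm m * (EE lm m * Real.exp (-(157 / 100) * lm m)) * EE lm m) := by
        have := EE_pos (lm := lm) m
        gcongr
        linarith
    _ = EE lm m ^ 3 * (Real.exp (11 / 100 * lm m) * Real.exp (-(157 / 100) * lm m)) := by
        ring
    _ = EE lm m ^ 3 * Real.exp (-(146 / 100) * lm m) := by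
        rw [← Real.exp_add]; congr 2; ring
    _ ≤ Real.exp (-(14 / 10) * lm m) := EE_exp q m 3 (by norm_num)

/-- bound of all tails -/
lemma TBall (g : Gd lm L C ℓ M hh B T x f) {n : ℕ} {t : ℝ} (ht : t ∈ Ico 0 T) (htl : t ≤ 4 * lm 0)
    (hI : ∑ i ∈ Finset.range (n + 1), I L x i t ≤ 1 / 10 * lm n) : ∀ m, n ≤ m →
    ∑ i ∈ Finset.range (m + 1), I L x i t ≤ 1 / 10 * lm m ∧
    ∀ τ ∈ Icc 0 t, √(Y x (m + 1) τ) ≤ eta lm m := by
  have q := g.sq
  have key : ∀ m, ∑ i ∈ Finset.range (m + 1), I L x i t ≤ 1 / 10 * lm m →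
      ∀ τ ∈ Icc 0 t, √(Y x (m + 1) τ) ≤ eta lm m := by
    intro m hm τ hτ
    refine g.TB ⟨hτ.1, hτ.2.trans_lt ht.2⟩ (hτ.2.trans htl) (le_trans ?_ hm)
    exact Finset.sum_le_sum fun i _ => g.I_mono i hτ.1 hτ.2 ht.2
  intro m hm
  induction m, hm using Nat.le_induction with
  | base => exact ⟨hI, key n hI⟩
  | succ m hm ih =>
    have h1 : I L x (m + 1) t ≤ 1 := by
      have h2 := Pr_le_lin (g.cabs (m + 1)) (α := 0) (t := t) (c := L (m + 1) * eta lm m) le_rfl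
        ht.2 ht.1 (fun τ hτ => by
          have h3 := (g.abs_le_sqrt (t := τ) ⟨hτ.1.le, hτ.2.trans ht.2⟩ (le_refl (m + 1))).trans
            (ih.2 τ ⟨hτ.1.le, hτ.2.le⟩)
          have := sLp q (m + 1)
          gcongr)
      rw [Pr_zero, sub_zero, sub_zero] at h2
      refine h2.trans ?_
      have hL := EE_L q (k := m + 1) (n := m) (by omega)
      have ht' : t ≤ EE lm m := htl.trans (EE_lm4 q (Nat.zero_le m))
      have hLp := sLp q (m + 1)
      have ht0 := ht.1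
      have he := eta_pos (lm := lm) m
      calc L (m + 1) * eta lm m * t ≤ EE lm m * eta lm m * EE lm m := by
            have := EE_pos (lm := lm) m
            gcongr
        _ = EE lm m ^ 2 * Real.exp (-(14 / 10) * lm m) := by rw [eta]; ring
        _ ≤ Real.exp (0 * lm m) := EE_exp q m 2 (by norm_num)
        _ = 1 := by simp
    have h2 : ∑ i ∈ Finset.range (m + 1 + 1), I L x i t ≤ 1 / 10 * lm (m + 1) := by
      rw [Finset.sum_range_succ]
      have := slm100 q m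
      have := q.lm_big m
      have := ih.1
      linarith
    exact ⟨h2, key (m + 1) h2⟩

end Gd

end Pool.Agent.Y7.EJ
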