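import Pool.Agent.Y7.EJ.Stm
import Pool.Agent.Y494.ND.Tools

/-!
# SK-PB: the perturbation of the main modes is small if the other modes are small

`t_PB3 : Pool.Agent.Y303.SK.S_PB3`.
-/

open Set Filter Topology

set_option autoImplicit false

namespace Pool.Agent.Y7.EJ.PB

open Pool.Agent.Y5.D (Ix qd vf3 Init)
open Pool.Agent.Y6.N
open Pool.Agent.Y303.SK
open Pool.Agent.Y7.EJ

variable {J : Type} {g : J → ℕ} {lm L C ℓ M ρ : ℕ → ℝ} {B : ℕ → ℕ → ℝ} {R E : Ix J → ℝ}
  {D : Ix J → Ix J → ℝ} {c : Ix J → Ix J → Ix J → ℝ}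

theorem R_nonneg (h : KD g L C ℓ ρ B R E D c) (i : Ix J) : 0 ≤ R i := by
  have h1 := h.bil i {Sum.inl 0} (fun _ => 1) (fun _ => 1)
  simp at h1
  exact (abs_nonneg _).trans h1

theorem E_nonneg (h : KD g L C ℓ ρ B R E D c) (i : Ix J) : 0 ≤ E i := by
  have h1 := h.dlin i {Sum.inl 0} (fun _ => 1)
  simp at h1
  exact (abs_nonneg _).trans h1

theorem c_le (h : KD g L C ℓ ρ B R E D c) (i a : Ix J) : |c i a a| ≤ R i := by
  have h1 := h.bil i {a} (fun _ => 1) (fun _ => 1)
  simpa using h1

theorem D_le (h : KD g L C ℓ ρ B R E D c) (i a : Ix J) : |D i a| ≤ E i := by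
  have h1 := h.dlin i {a} (fun _ => 1)
  simpa using h1

/-- finite sums of squares -/
theorem fin_sq {I : Type} [DecidableEq I] {z : I → ℝ} (hz : Summable fun a => z a ^ 2)
    (hz1 : ∑' a, z a ^ 2 ≤ 1) (s t : Finset I) (hst : s ⊆ t) (z' : I → ℝ)
    (h1 : ∀ a ∈ s, z' a ^ 2 = z a ^ 2) (h2 : ∀ a, a ∉ s → z' a = 0) :
    √(∑ a ∈ t, z' a ^ 2) ≤ 1 := by
  rw [Real.sqrt_le_one]
  rw [← Finset.sum_subset hst (fun a _ ha => by rw [h2 a ha]; norm_num)]
  rw [Finset.sum_congr rfl h1]
  exact (hz.sum_le_tsum s (fun a _ => sq_nonneg _)).trans hz1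

/-- the sign choice -/
theorem sgn_mul (x y : ℝ) : x * (if 0 ≤ x * y then y else -y) = |x * y| := by
  split_ifs with h
  · rw [abs_of_nonneg h]
  · rw [abs_of_neg (not_le.mp h)]
    ring

theorem row (h : KD g L C ℓ ρ B R E D c) {z : Ix J → ℝ} (hz : Summable fun a => z a ^ 2)
    (hz1 : ∑' a, z a ^ 2 ≤ 1) (i b : Ix J) (s : Finset (Ix J)) :
    ∑ a ∈ s, |c i a b * z a| ≤ R i := by
  classical
  set z' : Ix J → ℝ := fun a => if a ∈ s then (if 0 ≤ c i a b * z a then z a else -z a) else 0
    with hz'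
  set w' : Ix J → ℝ := fun a => if a = b then 1 else 0 with hw'
  have h1 := h.bil i (insert b s) z' w'
  have e1 : ∑ a ∈ insert b s, ∑ b' ∈ insert b s, c i a b' * z' a * w' b' =
      ∑ a ∈ s, |c i a b * z a| := by
    have e0 : ∀ a ∈ insert b s, ∑ b' ∈ insert b s, c i a b' * z' a * w' b' = c i a b * z' a := by
      intro a _
      simp only [hw', mul_ite, mul_one, mul_zero]
      rw [Finset.sum_ite_eq' (insert b s) b, if_pos (Finset.mem_insert_self _ _)]
    rw [Finset.sum_congr rfl e0]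
    rw [← Finset.sum_subset (Finset.subset_insert b s) (fun a _ ha => by
      simp only [hz', if_neg ha, mul_zero])]
    refine Finset.sum_congr rfl fun a ha => ?_
    simp only [hz', if_pos ha]
    exact sgn_mul _ _
  have e2 : √(∑ a ∈ insert b s, z' a ^ 2) ≤ 1 := by
    refine fin_sq hz hz1 s _ (Finset.subset_insert _ _) z' ?_ ?_
    · intro a ha
      simp only [hz', if_pos ha]
      split_ifs <;> ring
    · intro a ha
      simp only [hz', if_neg ha]
  have e3 : √(∑ a ∈ insert b s, w' a ^ 2) = 1 := by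
    have : ∑ a ∈ insert b s, w' a ^ 2 = 1 := by
      simp only [hw', ite_pow, one_pow]
      rw [show (0 : ℝ) ^ 2 = 0 by norm_num, Finset.sum_ite_eq' (insert b s) b,
        if_pos (Finset.mem_insert_self _ _)]
    rw [this, Real.sqrt_one]
  rw [e1, e3, mul_one] at h1
  refine (le_abs_self _).trans (h1.trans ?_)
  exact mul_le_of_le_one_right (R_nonneg h i) e2

theorem col (h : KD g L C ℓ ρ B R E D c) {z : Ix J → ℝ} (hz : Summable fun a => z a ^ 2)
    (hz1 : ∑' a, z a ^ 2 ≤ 1) (i b : Ix J) (s : Finset (Ix J)) :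
    ∑ a ∈ s, |c i b a * z a| ≤ R i := by
  classical
  set z' : Ix J → ℝ := fun a => if a ∈ s then (if 0 ≤ c i b a * z a then z a else -z a) else 0
    with hz'
  set w' : Ix J → ℝ := fun a => if a = b then 1 else 0 with hw'
  have h1 := h.bil i (insert b s) w' z'
  have e1 : ∑ a ∈ insert b s, ∑ b' ∈ insert b s, c i a b' * w' a * z' b' =
      ∑ a ∈ s, |c i b a * z a| := by
    rw [Finset.sum_comm]
    have e0 : ∀ a ∈ insert b s, ∑ b' ∈ insert b s, c i b' a * w' b' * z' a = c i b a * z' a := by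
      intro a _
      simp only [hw', mul_ite, mul_one, mul_zero, ite_mul, zero_mul]
      rw [Finset.sum_ite_eq' (insert b s) b, if_pos (Finset.mem_insert_self _ _)]
    rw [Finset.sum_congr rfl e0]
    rw [← Finset.sum_subset (Finset.subset_insert b s) (fun a _ ha => by
      simp only [hz', if_neg ha, mul_zero])]
    refine Finset.sum_congr rfl fun a ha => ?_
    simp only [hz', if_pos ha]
    exact sgn_mul _ _
  have e2 : √(∑ a ∈ insert b s, z' a ^ 2) ≤ 1 := by
    refine fin_sq hz hz1 s _ (Finset.subset_insert _ _) z' ?_ ?_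
    · intro a ha
      simp only [hz', if_pos ha]
      split_ifs <;> ring
    · intro a ha
      simp only [hz', if_neg ha]
  have e3 : √(∑ a ∈ insert b s, w' a ^ 2) = 1 := by
    have : ∑ a ∈ insert b s, w' a ^ 2 = 1 := by
      simp only [hw', ite_pow, one_pow]
      rw [show (0 : ℝ) ^ 2 = 0 by norm_num, Finset.sum_ite_eq' (insert b s) b,
        if_pos (Finset.mem_insert_self _ _)]
    rw [this, Real.sqrt_one]
  rw [e1, e3, one_mul] at h1
  refine (le_abs_self _).trans (h1.trans ?_)
  exact mul_le_of_le_one_right (R_nonneg h i) e2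

theorem drow (h : KD g L C ℓ ρ B R E D c) {z : Ix J → ℝ} (hz : Summable fun a => z a ^ 2)
    (hz1 : ∑' a, z a ^ 2 ≤ 1) (i : Ix J) (s : Finset (Ix J)) :
    ∑ a ∈ s, |D i a * z a| ≤ E i := by
  classical
  set z' : Ix J → ℝ := fun a => if a ∈ s then (if 0 ≤ D i a * z a then z a else -z a) else 0
    with hz'
  have h1 := h.dlin i s z'
  have e1 : ∑ a ∈ s, D i a * z' a = ∑ a ∈ s, |D i a * z a| := by
    refine Finset.sum_congr rfl fun a ha => ?_
    simp only [hz', if_pos ha]
    exact sgn_mul _ _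
  have e2 : √(∑ a ∈ s, z' a ^ 2) ≤ 1 := by
    refine fin_sq hz hz1 s _ subset_rfl z' ?_ ?_
    · intro a ha
      simp only [hz', if_pos ha]
      split_ifs <;> ring
    · intro a ha
      simp only [hz', if_neg ha]
  rw [e1] at h1
  refine (le_abs_self _).trans (h1.trans ?_)
  exact mul_le_of_le_one_right (E_nonneg h i) e2

/-- bound of a double series by the bounds of its rows -/
theorem dbl {I K : Type} {F : I × K → ℝ} (hF : Summable F) {b : I → ℝ} (hb : Summable b)
    (h : ∀ w, ∀ s : Finset K, ∑ k ∈ s, |F (w, k)| ≤ b w) : |∑' p, F p| ≤ ∑' w, b w := by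
  have h1 : Summable fun p => |F p| := hF.abs
  have h2 : |∑' p, F p| ≤ ∑' p, |F p| := by
    have := norm_tsum_le_tsum_norm (f := F) (by simpa only [Real.norm_eq_abs] using h1)
    simpa only [Real.norm_eq_abs] using this
  refine h2.trans ?_
  rw [h1.tsum_prod]
  refine Summable.tsum_le_tsum (fun w => ?_) h1.prod hb
  exact (h1.prod_factor w).tsum_le_of_sum_le (h w)

/-- The table. -/
theorem tab_sum' (hK : KD g L C ℓ ρ B R E D c) (hs : SeqW lm L C ℓ M B) {z : Ix J → ℝ}
    (hx : Summable fun i : ℕ => z (Sum.inl i) ^ 2) (n : ℕ) :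
    ∑' p : ℕ × ℕ, c (Sum.inl n) (Sum.inl p.1) (Sum.inl p.2) * z (Sum.inl p.1) * z (Sum.inl p.2) =
      vf3 L C ℓ B (fun m => z (Sum.inl m)) n + ℓ n * z (Sum.inl n) := by
  classical
  set x : ℕ → ℝ := fun m => z (Sum.inl m) with hxd
  let P1 : ℕ × ℕ → ℝ := fun p => if p.1 = n ∧ p.2 < n then L p.2 * B p.2 n * x p.1 * x p.2 else 0
  let P2 : ℕ × ℕ → ℝ := fun p => if p.1 = p.2 ∧ n < p.1 then -(L n * B n p.1) * x p.1 * x p.2 else 0
  let P3 : ℕ × ℕ → ℝ := fun p => if p.1 = p.2 ∧ n = p.1 + 1 then L p.1 * C p.1 * x p.1 * x p.2 else 0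
  let P4 : ℕ × ℕ → ℝ := fun p => if p.1 = n ∧ p.2 = n + 1 then -(L n * C n) * x p.1 * x p.2 else 0
  have hP1 : HasSum P1 (∑ j ∈ Finset.range n, L j * B j n * x n * x j) := by
    have h1 : HasSum P1 (∑ p ∈ ({n} : Finset ℕ) ×ˢ Finset.range n, P1 p) := by
      refine hasSum_sum_of_ne_finset_zero fun p hp => ?_
      rw [Finset.mem_product, Finset.mem_singleton, Finset.mem_range] at hp
      exact if_neg hp
    rw [Finset.sum_product, Finset.sum_singleton] at h1
    have e : ∑ j ∈ Finset.range n, P1 (n, j) = ∑ j ∈ Finset.range n, L j * B j n * x n * x j := by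
      refine Finset.sum_congr rfl fun j hj => ?_
      exact if_pos ⟨rfl, Finset.mem_range.1 hj⟩
    rwa [e] at h1
  have hP2 : HasSum P2 (-(L n * ∑' m : ℕ, B n (n + 1 + m) * x (n + 1 + m) ^ 2)) := by
    have hi : Function.Injective (fun m : ℕ => (n + 1 + m, n + 1 + m)) := by
      intro a b hab
      have := congrArg Prod.fst hab
      simp only at this
      omega
    rw [← hi.hasSum_iff]
    · have h1 : Summable fun m : ℕ => B n (n + 1 + m) * x (n + 1 + m) ^ 2 := by
        have h2 : Summable fun m : ℕ => 1001 / 1000 * x (n + 1 + m) ^ 2 :=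
          (hx.comp_injective (i := fun m => n + 1 + m) (fun a b h => by simpa using h)).mul_left _
        refine Summable.of_nonneg_of_le (fun m => ?_) (fun m => ?_) h2
        · have := hs.B_lo n (n + 1 + m) (by omega)
          have h3 : 0 ≤ B n (n + 1 + m) := by linarith
          positivity
        · exact mul_le_mul_of_nonneg_right (hs.B_hi n (n + 1 + m) (by omega)) (sq_nonneg _)
      have h2 := (h1.hasSum.mul_left (L n)).neg
      refine h2.congr_fun ?_
      intro m
      show (if n + 1 + m = n + 1 + m ∧ n < n + 1 + m then _ else _) = _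
      rw [if_pos ⟨rfl, by omega⟩]
      ring
    · intro p hp
      refine if_neg ?_
      rintro ⟨h1, h2⟩
      apply hp
      refine ⟨p.1 - (n + 1), ?_⟩
      refine Prod.ext ?_ ?_
      · show n + 1 + (p.1 - (n + 1)) = p.1
        omega
      · show n + 1 + (p.1 - (n + 1)) = p.2
        omega
  have hP3 : HasSum P3 (if n = 0 then 0 else L (n - 1) * C (n - 1) * x (n - 1) ^ 2) := by
    by_cases h0 : n = 0
    · rw [if_pos h0]
      refine hasSum_zero.congr_fun ?_
      intro p
      refine (if_neg ?_)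
      rintro ⟨_, h⟩
      omega
    · rw [if_neg h0]
      have h1 : HasSum P3 (P3 (n - 1, n - 1)) := by
        refine hasSum_single _ fun p hp => ?_
        refine if_neg ?_
        rintro ⟨h1, h2⟩
        apply hp
        refine Prod.ext ?_ ?_
        · show p.1 = n - 1
          omega
        · show p.2 = n - 1
          omega
      have e : P3 (n - 1, n - 1) = L (n - 1) * C (n - 1) * x (n - 1) ^ 2 := by
        show (if n - 1 = n - 1 ∧ n = n - 1 + 1 then _ else _) = _
        rw [if_pos ⟨rfl, by omega⟩]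
        ring
      rwa [e] at h1
  have hP4 : HasSum P4 (-(L n * C n * x n * x (n + 1))) := by
    have h1 : HasSum P4 (P4 (n, n + 1)) := by
      refine hasSum_single _ fun p hp => ?_
      refine if_neg ?_
      rintro ⟨h1, h2⟩
      exact hp (Prod.ext h1 h2)
    have e : P4 (n, n + 1) = -(L n * C n * x n * x (n + 1)) := by
      show (if n = n ∧ n + 1 = n + 1 then _ else _) = _
      rw [if_pos ⟨rfl, rfl⟩]
      ring
    rwa [e] at h1
  have hsum := ((hP1.add hP2).add hP3).add hP4
  have hfun : (fun p : ℕ × ℕ => c (Sum.inl n) (Sum.inl p.1) (Sum.inl p.2) * z (Sum.inl p.1) *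
      z (Sum.inl p.2)) = fun p => P1 p + P2 p + P3 p + P4 p := by
    funext p
    rw [hK.tab]
    simp only [P1, P2, P3, P4, hxd]
    split_ifs <;> ring
  rw [hfun, hsum.tsum_eq]
  unfold vf3
  rw [Finset.mul_sum]
  have e : ∑ j ∈ Finset.range n, L j * B j n * x n * x j = ∑ i ∈ Finset.range n, x n * (L i * B i n * x i) :=
    Finset.sum_congr rfl fun j _ => by ring
  rw [e]
  ring

/-- The choice of the bounds. -/
theorem choice [Countable J] (g : J → ℕ) (R E : Ix J → ℝ) (φ : ℕ → ℝ) (hφ : ∀ n, 0 < φ n)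
    (hR : ∀ i, 0 ≤ R i) (hE : ∀ i, 0 ≤ E i) : ∃ β p : J → ℝ, (∀ j, 0 < β j) ∧ (∀ j, β j ≤ p j) ∧
      Summable p ∧ ∑' j, p j ≤ 1 ∧ (∀ j, R (Sum.inr j) * β j ≤ φ 0 * p j) ∧
      ∀ j n, n < g j → (4 * R (Sum.inl n) + E (Sum.inl n)) * β j ≤ φ n * p j := by
  classical
  have := Encodable.ofCountable J
  obtain ⟨p, hp, s, hs, hs1⟩ := posSumOfEncodable one_pos J
  have hne : ∀ w : J, (Finset.range (g w + 1)).Nonempty := fun w => ⟨0, by simp⟩
  set m : J → ℝ := fun w => min (min 1 (φ 0 / (1 + R (Sum.inr w))))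
    ((Finset.range (g w + 1)).inf' (hne w)
      (fun n => φ n / (1 + (4 * R (Sum.inl n) + E (Sum.inl n))))) with hm
  have hm0 : ∀ w, 0 < m w := by
    intro w
    refine lt_min (lt_min one_pos (div_pos (hφ 0) (by linarith [hR (Sum.inr w)]))) ?_
    rw [Finset.lt_inf'_iff]
    intro n _
    exact div_pos (hφ n) (by linarith [hR (Sum.inl n), hE (Sum.inl n)])
  have hm1 : ∀ w, m w ≤ 1 := fun w => (min_le_left _ _).trans (min_le_left _ _)
  have hm2 : ∀ w, R (Sum.inr w) * m w ≤ φ 0 := by
    intro w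
    have h1 : m w ≤ φ 0 / (1 + R (Sum.inr w)) := (min_le_left _ _).trans (min_le_right _ _)
    have h2 := hR (Sum.inr w)
    rw [le_div_iff₀ (by linarith)] at h1
    nlinarith [hm0 w]
  have hm3 : ∀ w n, n < g w → (4 * R (Sum.inl n) + E (Sum.inl n)) * m w ≤ φ n := by
    intro w n hn
    have h1 : m w ≤ φ n / (1 + (4 * R (Sum.inl n) + E (Sum.inl n))) :=
      (min_le_right _ _).trans (Finset.inf'_le _ (Finset.mem_range.mpr (by omega)))
    have h2 := hR (Sum.inl n)
    have h3 := hE (Sum.inl n)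
    rw [le_div_iff₀ (by linarith)] at h1
    nlinarith [hm0 w]
  refine ⟨fun j => p j * m j, p, fun j => mul_pos (hp j) (hm0 j), fun j => ?_, hs.summable, ?_,
    fun j => ?_, fun j n hn => ?_⟩
  · exact mul_le_of_le_one_right (hp j).le (hm1 j)
  · rw [hs.tsum_eq]
    exact hs1
  · nlinarith [hm2 j, hp j]
  · nlinarith [hm3 j n hn, hp j]

theorem t_PBW : S_PBW := by
  classical
  intro J g o σ τ lm L C M ℓ ρ φ B R E D c hK hs hrot hφ
  have hcount : Countable J := by
    have h1 : (⋃ m, {j | o j ≤ m}) = (univ : Set J) := by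
      ext j
      simp only [mem_iUnion, mem_univ, iff_true]
      exact ⟨o j, le_refl (o j)⟩
    have h2 : (univ : Set J).Countable := by
      rw [← h1]
      exact countable_iUnion fun m => (hrot.fin m).countable
    exact countable_univ_iff.mp h2
  obtain ⟨β, p, hβ0, hβp, hps, hp1, hRβ, hnβ⟩ := choice g R E φ hφ (R_nonneg hK) (E_nonneg hK)
  have hβs : Summable β := Summable.of_nonneg_of_le (fun j => (hβ0 j).le) hβp hps
  refine ⟨β, hβ0, hβs, ?_⟩
  intro z hz hz1 hzβ n hG
  -- the tails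
  set T : J → ℝ := fun w => if n < g w then β w else 0 with hT
  have hT0 : ∀ w, 0 ≤ T w := fun w => by
    simp only [hT]
    split_ifs
    · exact (hβ0 w).le
    · exact le_rfl
  have hTβ : ∀ w, T w ≤ β w := fun w => by
    simp only [hT]
    split_ifs
    · exact le_rfl
    · exact (hβ0 w).le
  have hTs : Summable T := Summable.of_nonneg_of_le hT0 hTβ hβs
  have hTsum : (4 * R (Sum.inl n) + E (Sum.inl n)) * ∑' w, T w ≤ φ n := by
    rw [← tsum_mul_left]
    have h1 : ∀ w, (4 * R (Sum.inl n) + E (Sum.inl n)) * T w ≤ φ n * p w := by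
      intro w
      simp only [hT]
      split_ifs with h
      · exact hnβ w n h
      · rw [mul_zero]
        exact mul_nonneg (hφ n).le ((hβ0 w).le.trans (hβp w))
    refine (Summable.tsum_le_tsum h1 (hTs.mul_left _) (hps.mul_left _)).trans ?_
    rw [tsum_mul_left]
    exact mul_le_of_le_one_right (hφ n).le hp1
  have hRs : Summable fun w => R (Sum.inr w) * β w :=
    Summable.of_nonneg_of_le (fun w => mul_nonneg (R_nonneg hK _) (hβ0 w).le) hRβ (hps.mul_left _)
  have hRsum : ∑' w, R (Sum.inr w) * β w ≤ φ 0 := by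
    refine (Summable.tsum_le_tsum hRβ hRs (hps.mul_left _)).trans ?_
    rw [tsum_mul_left]
    exact mul_le_of_le_one_right (hφ 0).le hp1
  have hRn := R_nonneg hK (Sum.inl n)
  have hEn := E_nonneg hK (Sum.inl n)
  -- the splitting
  obtain ⟨s1, s2, s3, s4, hsplit⟩ := Pool.Agent.Y494.ND.split4 hG
  have hx : Summable fun i : ℕ => z (Sum.inl i) ^ 2 := hz.comp_injective Sum.inl_injective
  have htab := tab_sum' hK hs hx n
  -- the linear term
  have hDs : Summable fun b => |D (Sum.inl n) b * z b| :=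
    summable_of_sum_le (fun _ => abs_nonneg _) (drow hK hz hz1 (Sum.inl n))
  have hDs' : Summable fun b => D (Sum.inl n) b * z b := hDs.of_abs
  have hlin : lin D z (Sum.inl n) = ℓ n * z (Sum.inl n) +
      ∑' w, D (Sum.inl n) (Sum.inr w) * z (Sum.inr w) := by
    unfold lin
    have h1 : Summable ((fun b => D (Sum.inl n) b * z b) ∘ Sum.inl) :=
      hDs'.comp_injective Sum.inl_injective
    have h2 : Summable ((fun b => D (Sum.inl n) b * z b) ∘ Sum.inr) :=
      hDs'.comp_injective Sum.inr_injective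
    have h3 := Summable.tsum_sum (f := fun b => D (Sum.inl n) b * z b) h1 h2
    rw [h3]
    congr 1
    rw [tsum_eq_single n]
    · rw [hK.dmain, if_pos rfl]
    · intro m hm
      rw [hK.dmain, if_neg hm.symm, zero_mul]
  have hlin2 : |∑' w, D (Sum.inl n) (Sum.inr w) * z (Sum.inr w)| ≤
      E (Sum.inl n) * ∑' w, T w := by
    rw [← tsum_mul_left, ← Real.norm_eq_abs]
    refine tsum_of_norm_bounded (hTs.mul_left _).hasSum fun w => ?_
    rw [Real.norm_eq_abs, abs_mul]
    by_cases hw : g w ≤ n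
    · rw [hK.dsep n w hw, abs_zero, zero_mul]
      exact mul_nonneg hEn (hT0 w)
    · have : T w = β w := if_pos (not_le.mp hw)
      rw [this]
      exact mul_le_mul (D_le hK _ _) (hzβ w) (abs_nonneg _) hEn
  -- first block
  have t1 : |∑' p : ℕ × J, c (Sum.inl n) (Sum.inl p.1) (Sum.inr p.2) * z (Sum.inl p.1) *
      z (Sum.inr p.2)| ≤ |z (Sum.inl n)| * ∑' w, R (Sum.inr w) * β w +
        R (Sum.inl n) * ∑' w, T w := by
    have e1 := (Equiv.prodComm J ℕ).tsum_eq (fun p : ℕ × J =>
      c (Sum.inl n) (Sum.inl p.1) (Sum.inr p.2) * z (Sum.inl p.1) * z (Sum.inr p.2))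
    rw [← e1, ← tsum_mul_left, ← tsum_mul_left, ← (hRs.mul_left _).tsum_add (hTs.mul_left _)]
    refine dbl ((Equiv.prodComm J ℕ).summable_iff.mpr s2)
      ((hRs.mul_left _).add (hTs.mul_left _)) ?_
    intro w s
    show ∑ i ∈ s, |c (Sum.inl n) (Sum.inl i) (Sum.inr w) * z (Sum.inl i) * z (Sum.inr w)| ≤ _
    by_cases hw : g w ≤ n
    · have h1 : ∀ i ∈ s, |c (Sum.inl n) (Sum.inl i) (Sum.inr w) * z (Sum.inl i) *
          z (Sum.inr w)| ≤ if i = n then |z (Sum.inl n)| * (R (Sum.inr w) * β w) else 0 := by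
        intro i _
        split_ifs with hi
        · subst hi
          rw [hK.anti, abs_mul, abs_mul, abs_neg]
          calc |c (Sum.inr w) (Sum.inl i) (Sum.inl i)| * |z (Sum.inl i)| * |z (Sum.inr w)|
              ≤ R (Sum.inr w) * |z (Sum.inl i)| * β w := by
                refine mul_le_mul ?_ (hzβ w) (abs_nonneg _)
                  (mul_nonneg (R_nonneg hK _) (abs_nonneg _))
                exact mul_le_mul_of_nonneg_right (c_le hK _ _) (abs_nonneg _)
            _ = _ := by ring
        · have hc : c (Sum.inl n) (Sum.inl i) (Sum.inr w) = 0 := by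
            by_contra hc
            have h4 := hK.sepm n (Sum.inl i) (Sum.inr w) hc (fun w' h => by cases h)
              (fun w' h => by
                rw [← Sum.inr.inj h]
                exact hw) (Or.inr ⟨w, rfl⟩)
            exact hi (Sum.inl.inj h4)
          rw [hc]
          simp
      refine (Finset.sum_le_sum h1).trans ?_
      have h0 : 0 ≤ |z (Sum.inl n)| * (R (Sum.inr w) * β w) :=
        mul_nonneg (abs_nonneg _) (mul_nonneg (R_nonneg hK _) (hβ0 w).le)
      have h00 : 0 ≤ R (Sum.inl n) * T w := mul_nonneg hRn (hT0 w)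
      rw [Finset.sum_ite_eq' s n]
      split_ifs <;> linarith
    · have hTw : T w = β w := if_pos (not_le.mp hw)
      rw [hTw]
      have h1 := row hK hz hz1 (Sum.inl n) (Sum.inr w) (s.map ⟨Sum.inl, Sum.inl_injective⟩)
      rw [Finset.sum_map] at h1
      have h2 : ∑ i ∈ s, |c (Sum.inl n) (Sum.inl i) (Sum.inr w) * z (Sum.inl i) *
          z (Sum.inr w)| = (∑ i ∈ s, |c (Sum.inl n) (Sum.inl i) (Sum.inr w) * z (Sum.inl i)|) *
            |z (Sum.inr w)| := by
        rw [Finset.sum_mul]
        exact Finset.sum_congr rfl fun i _ => abs_mul _ _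
      rw [h2]
      have h3 : (∑ i ∈ s, |c (Sum.inl n) (Sum.inl i) (Sum.inr w) * z (Sum.inl i)|) *
            |z (Sum.inr w)| ≤ R (Sum.inl n) * β w :=
        mul_le_mul h1 (hzβ w) (abs_nonneg _) hRn
      have h0 : 0 ≤ |z (Sum.inl n)| * (R (Sum.inr w) * β w) :=
        mul_nonneg (abs_nonneg _) (mul_nonneg (R_nonneg hK _) (hβ0 w).le)
      linarith
  -- second block
  have t2 : |∑' p : J × ℕ, c (Sum.inl n) (Sum.inr p.1) (Sum.inl p.2) * z (Sum.inr p.1) *
      z (Sum.inl p.2)| ≤ R (Sum.inl n) * ∑' w, T w := by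
    rw [← tsum_mul_left]
    refine dbl s3 (hTs.mul_left _) ?_
    intro w s
    show ∑ i ∈ s, |c (Sum.inl n) (Sum.inr w) (Sum.inl i) * z (Sum.inr w) * z (Sum.inl i)| ≤ _
    by_cases hw : g w ≤ n
    · have h1 : ∀ i ∈ s, |c (Sum.inl n) (Sum.inr w) (Sum.inl i) * z (Sum.inr w) *
          z (Sum.inl i)| = 0 := by
        intro i _
        have hc : c (Sum.inl n) (Sum.inr w) (Sum.inl i) = 0 := by
          by_contra hc
          have h4 := hK.sepm n (Sum.inr w) (Sum.inl i) hc (fun w' h => by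
              rw [← Sum.inr.inj h]
              exact hw) (fun w' h => by cases h) (Or.inl ⟨w, rfl⟩)
          cases h4
        rw [hc]
        simp
      rw [Finset.sum_eq_zero h1]
      exact mul_nonneg hRn (hT0 w)
    · have hTw : T w = β w := if_pos (not_le.mp hw)
      rw [hTw]
      have h1 := col hK hz hz1 (Sum.inl n) (Sum.inr w) (s.map ⟨Sum.inl, Sum.inl_injective⟩)
      rw [Finset.sum_map] at h1
      have h2 : ∑ i ∈ s, |c (Sum.inl n) (Sum.inr w) (Sum.inl i) * z (Sum.inr w) *
          z (Sum.inl i)| = (∑ i ∈ s, |c (Sum.inl n) (Sum.inr w) (Sum.inl i) * z (Sum.inl i)|) *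
            |z (Sum.inr w)| := by
        rw [Finset.sum_mul]
        refine Finset.sum_congr rfl fun i _ => ?_
        rw [← abs_mul]
        congr 1
        ring
      rw [h2]
      exact mul_le_mul h1 (hzβ w) (abs_nonneg _) hRn
  -- third block
  have t3 : |∑' p : J × J, c (Sum.inl n) (Sum.inr p.1) (Sum.inr p.2) * z (Sum.inr p.1) *
      z (Sum.inr p.2)| ≤ 2 * (R (Sum.inl n) * ∑' w, T w) := by
    set F : J × J → ℝ := fun p => c (Sum.inl n) (Sum.inr p.1) (Sum.inr p.2) * z (Sum.inr p.1) *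
      z (Sum.inr p.2) with hF
    set F1 : J × J → ℝ := fun p => if n < g p.1 then F p else 0 with hF1
    set F2 : J × J → ℝ := fun p => if n < g p.1 then 0 else F p with hF2
    have hs1 : Summable F1 := by
      refine Summable.of_norm_bounded s4.abs fun q => ?_
      simp only [hF1, Real.norm_eq_abs]
      split_ifs
      · exact le_rfl
      · rw [abs_zero]
        exact abs_nonneg _
    have hs2 : Summable F2 := by
      refine Summable.of_norm_bounded s4.abs fun q => ?_
      simp only [hF2, Real.norm_eq_abs]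
      split_ifs
      · rw [abs_zero]
        exact abs_nonneg _
      · exact le_rfl
    have hsum : ∑' q, F q = ∑' q, F1 q + ∑' q, F2 q := by
      rw [← hs1.tsum_add hs2]
      refine tsum_congr fun q => ?_
      simp only [hF1, hF2]
      split_ifs <;> ring
    have b1 : |∑' q, F1 q| ≤ R (Sum.inl n) * ∑' w, T w := by
      rw [← tsum_mul_left]
      refine dbl hs1 (hTs.mul_left _) ?_
      intro w s
      by_cases hw : n < g w
      · have hTw : T w = β w := if_pos hw
        rw [hTw]
        have h1 := col hK hz hz1 (Sum.inl n) (Sum.inr w) (s.map ⟨Sum.inr, Sum.inr_injective⟩)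
        rw [Finset.sum_map] at h1
        have h2 : ∑ w' ∈ s, |F1 (w, w')| =
            (∑ i ∈ s, |c (Sum.inl n) (Sum.inr w) (Sum.inr i) * z (Sum.inr i)|) *
              |z (Sum.inr w)| := by
          rw [Finset.sum_mul]
          refine Finset.sum_congr rfl fun i _ => ?_
          rw [← abs_mul]
          simp only [hF1, hF, if_pos hw]
          congr 1
          ring
        rw [h2]
        exact mul_le_mul h1 (hzβ w) (abs_nonneg _) hRn
      · have h1 : ∀ i ∈ s, |F1 (w, i)| = 0 := by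
          intro i _
          simp only [hF1, if_neg hw, abs_zero]
        rw [Finset.sum_eq_zero h1]
        exact mul_nonneg hRn (hT0 w)
    have b2 : |∑' q, F2 q| ≤ R (Sum.inl n) * ∑' w, T w := by
      rw [← tsum_mul_left]
      rw [← (Equiv.prodComm J J).tsum_eq F2]
      refine dbl ((Equiv.prodComm J J).summable_iff.mpr hs2) (hTs.mul_left _) ?_
      intro w s
      show ∑ k ∈ s, |F2 (k, w)| ≤ _
      by_cases hw : n < g w
      · have hTw : T w = β w := if_pos hw
        rw [hTw]
        have h1 := row hK hz hz1 (Sum.inl n) (Sum.inr w) (s.map ⟨Sum.inr, Sum.inr_injective⟩)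
        rw [Finset.sum_map] at h1
        have h2 : ∑ w' ∈ s, |F2 (w', w)| ≤
            (∑ i ∈ s, |c (Sum.inl n) (Sum.inr i) (Sum.inr w) * z (Sum.inr i)|) *
              |z (Sum.inr w)| := by
          rw [Finset.sum_mul]
          refine Finset.sum_le_sum fun i _ => ?_
          rw [← abs_mul]
          simp only [hF2, hF]
          split_ifs
          · rw [abs_zero]
            exact abs_nonneg _
          · exact le_rfl
        exact h2.trans (mul_le_mul h1 (hzβ w) (abs_nonneg _) hRn)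
      · have h1 : ∀ i ∈ s, |F2 (i, w)| = 0 := by
          intro i _
          simp only [hF2]
          split_ifs with hi
          · exact abs_zero
          · have hc : c (Sum.inl n) (Sum.inr i) (Sum.inr w) = 0 := by
              by_contra hc
              have h4 := hK.sepm n (Sum.inr i) (Sum.inr w) hc (fun w' h => by
                  rw [← Sum.inr.inj h]
                  exact not_lt.mp hi) (fun w' h => by
                  rw [← Sum.inr.inj h]
                  exact not_lt.mp hw) (Or.inl ⟨i, rfl⟩)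
              cases h4
            simp only [hF, hc]
            simp
        rw [Finset.sum_eq_zero h1]
        exact mul_nonneg hRn (hT0 w)
    rw [hsum]
    refine (abs_add_le _ _).trans ?_
    linarith
  -- conclusion
  have e0 : qd c z (Sum.inl n) - lin D z (Sum.inl n) - vf3 L C ℓ B (fun m => z (Sum.inl m)) n =
      ∑' p : ℕ × J, c (Sum.inl n) (Sum.inl p.1) (Sum.inr p.2) * z (Sum.inl p.1) * z (Sum.inr p.2) +
      ∑' p : J × ℕ, c (Sum.inl n) (Sum.inr p.1) (Sum.inl p.2) * z (Sum.inr p.1) * z (Sum.inl p.2) +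
      ∑' p : J × J, c (Sum.inl n) (Sum.inr p.1) (Sum.inr p.2) * z (Sum.inr p.1) * z (Sum.inr p.2) +
      -∑' w, D (Sum.inl n) (Sum.inr w) * z (Sum.inr w) := by
    have : vf3 L C ℓ B (fun m => z (Sum.inl m)) n =
      ∑' p : ℕ × ℕ, c (Sum.inl n) (Sum.inl p.1) (Sum.inl p.2) * z (Sum.inl p.1) * z (Sum.inl p.2)
        - ℓ n * z (Sum.inl n) := by
      rw [htab]
      ring
    rw [this, hlin]
    unfold qd
    rw [hsplit]
    ring
  rw [e0]
  refine (abs_add_le _ _).trans ?_
  rw [abs_neg]
  have u1 := (abs_add_le (∑' p : ℕ × J, c (Sum.inl n) (Sum.inl p.1) (Sum.inr p.2) *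
      z (Sum.inl p.1) * z (Sum.inr p.2) + ∑' p : J × ℕ, c (Sum.inl n) (Sum.inr p.1) (Sum.inl p.2) *
      z (Sum.inr p.1) * z (Sum.inl p.2)) (∑' p : J × J, c (Sum.inl n) (Sum.inr p.1)
      (Sum.inr p.2) * z (Sum.inr p.1) * z (Sum.inr p.2)))
  have u2 := (abs_add_le (∑' p : ℕ × J, c (Sum.inl n) (Sum.inl p.1) (Sum.inr p.2) *
      z (Sum.inl p.1) * z (Sum.inr p.2)) (∑' p : J × ℕ, c (Sum.inl n) (Sum.inr p.1) (Sum.inl p.2) *
      z (Sum.inr p.1) * z (Sum.inl p.2)))
  have u3 : |z (Sum.inl n)| * ∑' w, R (Sum.inr w) * β w ≤ φ 0 * |z (Sum.inl n)| := by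
    rw [mul_comm]
    exact mul_le_mul_of_nonneg_right hRsum (abs_nonneg _)
  linarith

end Pool.Agent.Y7.EJ.PB
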