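import Pool.Agent.Y7.EJ.Stm

/-!
# Project NSK, job NSK-PERS: persistence and local bounds for the main system
-/

open Set Filter Topology

set_option autoImplicit false

namespace Pool.Agent.Y7.EJ.Pers

open Pool.Agent.Y5.D (vf3)
open Pool.Agent.Y6.N (XSol)
open Pool.Agent.Y7.EJ

/-- damped comparison -/
theorem damped_cmp {g G β β' : ℝ → ℝ} {l a b : ℝ} (hl : 0 ≤ l)
    (hg : ∀ t ∈ Icc a b, HasDerivWithinAt g (-(l * g t) + G t) (Icc a b) t)
    (hβ : ∀ t, HasDerivAt β (β' t) t) (hpos : ∀ t ∈ Icc a b, 0 < β t) (h0 : |g a| ≤ β a)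
    (hG : ∀ t ∈ Ico a b, |g t| = β t → |G t| < β' t) : ∀ t ∈ Icc a b, |g t| ≤ β t := by
  intro t ht
  have hab : a ≤ b := ht.1.trans ht.2
  have key := image_le_of_deriv_right_lt_deriv_boundary' (f := fun s => g s ^ 2)
    (f' := fun s => 2 * g s * (-(l * g s) + G s)) (a := a) (b := b)
    (B := fun s => β s ^ 2) (B' := fun s => 2 * β s * β' s)
    (fun s hs => ((hg s hs).continuousWithinAt).pow 2)
    (fun s hs => by
      have h1 := ((hg s ⟨hs.1, hs.2.le⟩).mono_of_mem_nhdsWithin
          (Icc_mem_nhdsGE_of_mem hs)).pow 2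
      refine h1.congr_deriv ?_
      norm_num)
    (by
      have h1 := hpos a ⟨le_rfl, hab⟩
      have h2 : |g a| ^ 2 ≤ β a ^ 2 := pow_le_pow_left₀ (abs_nonneg _) h0 2
      rwa [sq_abs] at h2)
    (fun s _ => ((hβ s).continuousAt.continuousWithinAt).pow 2)
    (fun s _ => by
      have h1 := ((hβ s).pow 2).hasDerivWithinAt (s := Ici s)
      refine h1.congr_deriv ?_
      norm_num)
    (by
      intro s hs he
      have hs' : s ∈ Icc a b := ⟨hs.1, hs.2.le⟩
      have hb := hpos s hs'
      have h1 : |g s| = β s := by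
        have h2 : |g s| ^ 2 = β s ^ 2 := by rw [sq_abs]; exact he
        exact (pow_left_inj₀ (abs_nonneg _) hb.le (by norm_num)).1 h2
      have h2 := hG s hs h1
      have h3 : g s * G s ≤ β s * |G s| := by
        rw [← h1, ← abs_mul]
        exact le_abs_self _
      have h4 : β s * |G s| < β s * β' s := mul_lt_mul_of_pos_left h2 hb
      have h5 : 0 ≤ l * g s ^ 2 := mul_nonneg hl (sq_nonneg _)
      nlinarith) ht
  have hb := hpos t ht
  exact abs_le_of_sq_le_sq key hb.le

section seq

variable {lm L C ℓ M : ℕ → ℝ} {B : ℕ → ℕ → ℝ}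

theorem L_one (h : SeqW lm L C ℓ M B) (n : ℕ) : 1 ≤ L n := by
  induction n with
  | zero => exact h.L0
  | succ n ih =>
    rw [← h.lm_succ n]
    nlinarith [h.lm_big (n + 1)]

theorem L_step (h : SeqW lm L C ℓ M B) (n : ℕ) : 10 ^ 30 * L n ≤ L (n + 1) := by
  rw [← h.lm_succ n]
  nlinarith [h.lm_big (n + 1), L_one h n]

theorem L_geo (h : SeqW lm L C ℓ M B) (n : ℕ) : (2 : ℝ) ^ n ≤ L n := by
  induction n with
  | zero => simpa using h.L0
  | succ n ih =>
    have := L_step h n
    have h1 := L_one h n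
    rw [pow_succ]
    nlinarith

theorem L_mono (h : SeqW lm L C ℓ M B) {m n : ℕ} (hmn : m ≤ n) : L m ≤ L n := by
  refine monotone_nat_of_le_succ (f := L) (fun k => ?_) hmn
  have := L_step h k
  have h1 := L_one h k
  nlinarith

theorem C_nonneg (h : SeqW lm L C ℓ M B) (n : ℕ) : 0 ≤ C n := h.C_nn n

theorem C_le_one (h : SeqW lm L C ℓ M B) (n : ℕ) : C n ≤ 1 := by
  refine (h.C_hi n).trans ?_
  rw [Real.exp_le_one_iff]
  have := h.lm_big n
  nlinarith

/-- the small coefficients -/
theorem C_small (hs : SeqW lm L C ℓ M B) (k i : ℕ) :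
    C i * L (i + 1) ^ (k + 10) ≤ L (k + 5) ^ (k + 10) := by
  have hL5 : 1 ≤ L (k + 5) ^ (k + 10) := one_le_pow₀ (L_one hs _)
  rcases lt_or_ge i (k + 4) with h | h
  · have h1 : L (i + 1) ≤ L (k + 5) := L_mono hs (by omega)
    have h2 := L_one hs (i + 1)
    calc C i * L (i + 1) ^ (k + 10) ≤ 1 * L (k + 5) ^ (k + 10) := by
          have := C_le_one hs i
          have := C_nonneg hs i
          gcongr
      _ = _ := one_mul _
  · refine le_trans ?_ hL5
    obtain ⟨j, rfl⟩ : ∃ j, i = j + 4 := ⟨i - 4, by omega⟩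
    have hLone := L_one hs (j + 4 + 1)
    have hMone := hs.M_one (j + 5)
    have h1 : L (j + 4 + 1) ^ 10 ≤ Real.exp (lm j / 10 ^ 6) := by
      refine le_trans ?_ (hs.exp_big j)
      have h2 : L (j + 4 + 1) ≤ L (j + 5) * M (j + 5) := by
        have h3 := L_one hs (j + 5)
        have e : j + 4 + 1 = j + 5 := by omega
        rw [e]
        nlinarith
      gcongr
    have h2 : L (j + 4 + 1) ^ (k + 10) ≤ Real.exp ((k + 10 : ℕ) * (lm j / 10 ^ 6)) := by
      rw [Real.exp_nat_mul]
      refine pow_le_pow_left₀ (by linarith) ?_ _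
      exact (le_self_pow₀ hLone (by norm_num)).trans h1
    have hlm : ∀ n, lm n ≤ lm (n + 1) := by
      intro n
      have h3 := hs.lm_grow n
      have h4 := hs.lm_big n
      have h5 : (0 : ℝ) ≤ n := Nat.cast_nonneg n
      nlinarith
    have h3 : 100 * (((j + 3 : ℕ) : ℝ) + 1) * lm j ≤ lm (j + 4) := by
      refine le_trans ?_ (hs.lm_grow (j + 3))
      have h4 : lm j ≤ lm (j + 3) := (hlm j).trans ((hlm (j + 1)).trans (hlm (j + 2)))
      gcongr
    calc C (j + 4) * L (j + 4 + 1) ^ (k + 10)
        ≤ Real.exp (-(199 / 10000 * lm (j + 4))) * Real.exp ((k + 10 : ℕ) * (lm j / 10 ^ 6)) := by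
          have := hs.C_hi (j + 4)
          have := C_nonneg hs (j + 4)
          gcongr
      _ = Real.exp (-(199 / 10000 * lm (j + 4)) + (k + 10 : ℕ) * (lm j / 10 ^ 6)) := by
          rw [Real.exp_add]
      _ ≤ 1 := by
          rw [Real.exp_le_one_iff]
          have h4 : (k : ℝ) ≤ j := by exact_mod_cast (by omega : k ≤ j)
          have h5 := hs.lm_big j
          have h6 : (0 : ℝ) ≤ k := Nat.cast_nonneg k
          push_cast at h3 ⊢
          nlinarith

/-- the part of the vector field without the damping -/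
noncomputable def Gf (L C : ℕ → ℝ) (B : ℕ → ℕ → ℝ) (x : ℕ → ℝ) (n : ℕ) : ℝ :=
  (if n = 0 then 0 else L (n - 1) * C (n - 1) * x (n - 1) ^ 2)
  - L n * C n * x n * x (n + 1)
  + x n * ∑ i ∈ Finset.range n, L i * B i n * x i
  - L n * ∑' m : ℕ, B n (n + 1 + m) * x (n + 1 + m) ^ 2

theorem vf3_eq (L C ℓ : ℕ → ℝ) (B : ℕ → ℕ → ℝ) (x : ℕ → ℝ) (n : ℕ) :
    vf3 L C ℓ B x n = -(ℓ n * x n) + Gf L C B x n := by
  unfold vf3 Gf
  ring

theorem B_abs (h : SeqW lm L C ℓ M B) {i n : ℕ} (hin : i < n) : |B i n| ≤ 2 := by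
  have h1 := h.B_lo i n hin
  have h2 := h.B_hi i n hin
  rw [abs_of_nonneg (by linarith)]
  linarith

theorem geo_sum (n : ℕ) : ∑ i ∈ Finset.range n, (1 / 2 : ℝ) ^ i ≤ 2 := by
  have h3 := Summable.sum_le_tsum (Finset.range n) (f := fun n : ℕ => (1 / 2 : ℝ) ^ n)
    (fun n _ => by positivity) summable_geometric_two
  rwa [tsum_geometric_two] at h3

/-- the main estimate of the vector field -/
theorem G_bound (h : SeqW lm L C ℓ M B) (k : ℕ) {X W : ℝ} {x : ℕ → ℝ}
    (hX : ∀ m, L m ^ 2 * |x m| ≤ X) (hW : ∀ m, L m ^ k * |x m| ≤ W) (h1 : ∀ m, |x m| ≤ 1)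
    (n : ℕ) : L n ^ k * |Gf L C B x n| ≤ L (k + 5) ^ (k + 10) + 7 * (X * W) := by
  have hL := L_one h
  have hL0 : ∀ m, 0 < L m := fun m => by linarith [hL m]
  have hX0 : 0 ≤ X := (mul_nonneg (pow_nonneg (hL0 0).le 2) (abs_nonneg (x 0))).trans (hX 0)
  have hW0 : 0 ≤ W := (mul_nonneg (pow_nonneg (hL0 0).le k) (abs_nonneg (x 0))).trans (hW 0)
  have hc0 : 0 < L (k + 5) ^ (k + 10) := pow_pos (hL0 _) _
  have hLn := hL0 n
  -- first term
  have t1 : L n ^ k * |if n = 0 then 0 else L (n - 1) * C (n - 1) * x (n - 1) ^ 2| ≤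
      L (k + 5) ^ (k + 10) := by
    cases n with
    | zero => simpa using hc0.le
    | succ m =>
      simp only [Nat.succ_ne_zero, if_false, Nat.add_sub_cancel]
      have hC := C_nonneg h m
      have hLm := hL0 m
      rw [abs_of_nonneg (by positivity)]
      have e1 : x m ^ 2 ≤ 1 := by
        rw [← sq_abs]
        exact pow_le_one₀ (abs_nonneg _) (h1 m)
      calc L (m + 1) ^ k * (L m * C m * x m ^ 2) ≤ L (m + 1) ^ k * (L (m + 1) * C m * 1) := by
            have := L_mono h (Nat.le_succ m)
            gcongr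
        _ = C m * L (m + 1) ^ (k + 1) := by ring
        _ ≤ C m * L (m + 1) ^ (k + 10) := by
            have := hL (m + 1)
            gcongr
            norm_num
        _ ≤ _ := C_small h k m
  -- second term
  have t2 : L n ^ k * |L n * C n * x n * x (n + 1)| ≤ X * W := by
    have hC := C_nonneg h n
    have hC1 := C_le_one h n
    rw [abs_mul, abs_mul, abs_of_nonneg (by positivity : (0 : ℝ) ≤ L n * C n)]
    have e1 : L n * |x (n + 1)| ≤ X := by
      refine le_trans ?_ (hX (n + 1))
      have := L_mono h (Nat.le_succ n)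
      have h3 := hL (n + 1)
      gcongr
      calc L n ≤ L (n + 1) := this
        _ ≤ L (n + 1) ^ 2 := le_self_pow₀ h3 (by norm_num)
    calc L n ^ k * (L n * C n * |x n| * |x (n + 1)|)
        = C n * ((L n * |x (n + 1)|) * (L n ^ k * |x n|)) := by ring
      _ ≤ 1 * (X * W) := by
          have := hW n
          gcongr
      _ = X * W := one_mul _
  -- third term
  have t3 : L n ^ k * |x n * ∑ i ∈ Finset.range n, L i * B i n * x i| ≤ 4 * (X * W) := by
    have e1 : |∑ i ∈ Finset.range n, L i * B i n * x i| ≤ 4 * X := by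
      refine (Finset.abs_sum_le_sum_abs _ _).trans ?_
      calc ∑ i ∈ Finset.range n, |L i * B i n * x i| ≤
            ∑ i ∈ Finset.range n, 2 * X * (1 / 2) ^ i := by
            refine Finset.sum_le_sum fun i hi => ?_
            have hi' := Finset.mem_range.1 hi
            have hb := B_abs h hi'
            have hLi := hL0 i
            have h3 := hX i
            have h4 := L_geo h i
            rw [abs_mul, abs_mul, abs_of_pos hLi]
            have h5 : L i * |x i| ≤ X * (1 / 2) ^ i := by
              have h6 : L i * |x i| ≤ X / L i := by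
                rw [le_div_iff₀ hLi]
                calc L i * |x i| * L i = L i ^ 2 * |x i| := by ring
                  _ ≤ X := h3
              refine h6.trans ?_
              rw [div_eq_mul_inv]
              gcongr
              rw [one_div, inv_pow]
              exact inv_anti₀ (by positivity) h4
            calc L i * |B i n| * |x i| = |B i n| * (L i * |x i|) := by ring
              _ ≤ 2 * (X * (1 / 2) ^ i) := by gcongr
              _ = 2 * X * (1 / 2) ^ i := by ring
        _ = 2 * X * ∑ i ∈ Finset.range n, (1 / 2 : ℝ) ^ i := by rw [Finset.mul_sum]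
        _ ≤ 2 * X * 2 := by
            have := geo_sum n
            gcongr
        _ = 4 * X := by ring
    rw [abs_mul]
    calc L n ^ k * (|x n| * |∑ i ∈ Finset.range n, L i * B i n * x i|)
        = (L n ^ k * |x n|) * |∑ i ∈ Finset.range n, L i * B i n * x i| := by ring
      _ ≤ W * (4 * X) := by
          have := hW n
          gcongr
      _ = 4 * (X * W) := by ring
  -- fourth term
  have t4 : L n ^ k * |L n * ∑' m : ℕ, B n (n + 1 + m) * x (n + 1 + m) ^ 2| ≤ 2 * (X * W) := by
    have e1 : ‖∑' m : ℕ, B n (n + 1 + m) * x (n + 1 + m) ^ 2‖ ≤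
        (X * W / L n ^ (k + 1)) * 2 := by
      refine tsum_of_norm_bounded (g := fun m : ℕ => (X * W / L n ^ (k + 1)) * (1 / 2) ^ m)
        (hasSum_geometric_two.mul_left _) ?_
      intro m
      have hb := B_abs h (show n < n + 1 + m by omega)
      set q := n + 1 + m with hq
      have hLq := hL0 q
      have hnq := L_mono h (show n ≤ q by omega)
      have h4 : (2 : ℝ) ^ (m + 1) ≤ L q := by
        refine le_trans ?_ (L_geo h q)
        exact pow_le_pow_right₀ (by norm_num) (by omega)
      rw [Real.norm_eq_abs, abs_mul, abs_pow]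
      have h5 : L n ^ (k + 1) * L q * |x q| ^ 2 ≤ X * W := by
        calc L n ^ (k + 1) * L q * |x q| ^ 2 ≤ L q ^ (k + 1) * L q * |x q| ^ 2 := by gcongr
          _ = (L q ^ 2 * |x q|) * (L q ^ k * |x q|) := by ring
          _ ≤ X * W := mul_le_mul (hX q) (hW q) (by positivity) hX0
      have h6 : |x q| ^ 2 ≤ X * W / L n ^ (k + 1) * (1 / 2) ^ (m + 1) := by
        have h7 : |x q| ^ 2 ≤ X * W / (L n ^ (k + 1) * L q) := by
          rw [le_div_iff₀ (by positivity)]
          linarith
        refine h7.trans ?_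
        rw [← div_div, div_eq_mul_inv _ (L q)]
        gcongr
        rw [one_div, inv_pow]
        exact inv_anti₀ (by positivity) h4
      calc |B n q| * |x q| ^ 2 ≤ 2 * (X * W / L n ^ (k + 1) * (1 / 2) ^ (m + 1)) := by gcongr
        _ = (X * W / L n ^ (k + 1)) * (1 / 2) ^ m := by rw [pow_succ]; ring
    rw [abs_mul, abs_of_pos hLn]
    rw [Real.norm_eq_abs] at e1
    calc L n ^ k * (L n * |∑' m : ℕ, B n (n + 1 + m) * x (n + 1 + m) ^ 2|)
        ≤ L n ^ k * (L n * ((X * W / L n ^ (k + 1)) * 2)) := by gcongr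
      _ = 2 * (X * W) := by
          rw [pow_succ]
          field_simp
  have hsum : |Gf L C B x n| ≤ |if n = 0 then 0 else L (n - 1) * C (n - 1) * x (n - 1) ^ 2| +
      |L n * C n * x n * x (n + 1)| + |x n * ∑ i ∈ Finset.range n, L i * B i n * x i| +
      |L n * ∑' m : ℕ, B n (n + 1 + m) * x (n + 1 + m) ^ 2| := by
    unfold Gf
    refine (abs_sub _ _).trans (add_le_add ?_ le_rfl)
    refine (abs_add_le _ _).trans (add_le_add ?_ le_rfl)
    exact abs_sub _ _
  calc L n ^ k * |Gf L C B x n| ≤ L n ^ k *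
        (|if n = 0 then 0 else L (n - 1) * C (n - 1) * x (n - 1) ^ 2| +
        |L n * C n * x n * x (n + 1)| + |x n * ∑ i ∈ Finset.range n, L i * B i n * x i| +
        |L n * ∑' m : ℕ, B n (n + 1 + m) * x (n + 1 + m) ^ 2|) := by gcongr
    _ ≤ _ := by
      rw [mul_add, mul_add, mul_add]
      linarith

end seq

/-- a continuity argument -/
theorem continuity_arg {a b W : ℝ} {N : ℕ} (w : ℕ → ℝ → ℝ)
    (hc : ∀ n ≤ N, ContinuousOn (w n) (Icc a b))
    (h : ∀ t ∈ Icc a b, (∀ u ∈ Ico a t, ∀ n ≤ N, w n u ≤ W) → ∀ n ≤ N, w n t < W) :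
    ∀ t ∈ Icc a b, ∀ n ≤ N, w n t ≤ W := by
  by_contra hcon
  push Not at hcon
  obtain ⟨t, ht, n, hn, hlt⟩ := hcon
  let B : Set ℝ := ⋃ n ∈ Iic N, (Icc a b ∩ (w n) ⁻¹' (Ici W))
  have hBc : IsCompact B := by
    refine (Set.finite_Iic N).isCompact_biUnion fun n hn => ?_
    exact isCompact_Icc.of_isClosed_subset
      ((hc n hn).preimage_isClosed_of_isClosed isClosed_Icc isClosed_Ici) inter_subset_left
  have hBn : B.Nonempty := ⟨t, mem_biUnion (show n ∈ Iic N from hn) ⟨ht, hlt.le⟩⟩
  obtain ⟨s, hs, hsl⟩ := hBc.exists_isLeast hBn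
  obtain ⟨m, hm, hsI, hsW⟩ := mem_iUnion₂.mp hs
  have h1 := h s hsI (fun u hu k hk => by
    by_contra h2
    push Not at h2
    have : s ≤ u := hsl (mem_biUnion (show k ∈ Iic N from hk)
      ⟨⟨hu.1, hu.2.le.trans hsI.2⟩, h2.le⟩)
    exact absurd hu.2 (not_lt.mpr this)) m hm
  exact absurd h1 (not_lt.mpr hsW)

theorem en_one {L C ℓ : ℕ → ℝ} {B : ℕ → ℕ → ℝ} {φ : ℕ → ℝ} {a b : ℝ} {x f : ℕ → ℝ → ℝ}
    (hS : XSol L C ℓ B φ a b x f) {t : ℝ} (ht : t ∈ Icc a b) (m : ℕ) : |x m t| ≤ 1 := by
  obtain ⟨h1, h2⟩ := hS.en t ht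
  have h3 : x m t ^ 2 ≤ ∑' n, x n t ^ 2 := h1.le_tsum m fun j _ => sq_nonneg _
  have h4 : |x m t| ^ 2 ≤ 1 := by rw [sq_abs]; linarith
  by_contra hc
  rw [not_le] at hc
  have := one_lt_pow₀ hc (n := 2) (by norm_num)
  linarith

/-- Persistence of the decay. -/
theorem t_PERSW : S_PERSW := by
  intro lm L C ℓ M B φ h hφ hφL Θ k X
  obtain ⟨cφ, hcφ⟩ := hφL k
  have hL := L_one h
  have hL0 : ∀ m, 0 < L m := fun m => by linarith [hL m]
  have hcφ0 : 0 ≤ cφ := (mul_nonneg (pow_nonneg (hL0 0).le k) (hφ 0).le).trans (hcφ 0)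
  set K : ℝ := 7 * |X| + φ 0 with hK
  have hK0 : 0 < K := by have := hφ 0; positivity
  set c : ℝ := L (k + 5) ^ (k + 10) + cφ with hc
  have hc0 : 0 < c := by have := pow_pos (hL0 (k + 5)) (k + 10); linarith
  set A : ℝ := c + L 0 ^ k with hA
  have hL0k : 0 < L 0 ^ k := pow_pos (hL0 0) k
  set lam : ℝ := 2 * K + 1 with hlam
  refine ⟨Real.exp (lam * |Θ|) * (2 * A), ?_⟩
  intro θ x f hθ0 hθ hS hx0 hx1 hX ⟨X', hX'⟩ n t ht
  have hXX : X ≤ |X| := le_abs_self X
  -- the supremum
  set Sset : Set ℝ := {r | ∃ (m : ℕ) (u : ℝ), u ∈ Icc 0 θ ∧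
    r = Real.exp (-(lam * u)) * (L m ^ k * |x m u|)} with hSset
  have hbdd : BddAbove Sset := by
    refine ⟨X', ?_⟩
    rintro r ⟨m, u, hu, rfl⟩
    have h1 := hX' m u hu
    have h2 : Real.exp (-(lam * u)) ≤ 1 := by
      rw [Real.exp_le_one_iff]
      have := hu.1
      have : 0 ≤ lam * u := by positivity
      linarith
    have h3 : 0 ≤ L m ^ k * |x m u| := mul_nonneg (pow_nonneg (hL0 m).le k) (abs_nonneg _)
    nlinarith
  set s : ℝ := sSup Sset with hs
  have hle : ∀ m, ∀ u ∈ Icc 0 θ, L m ^ k * |x m u| ≤ s * Real.exp (lam * u) := by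
    intro m u hu
    have h1 : Real.exp (-(lam * u)) * (L m ^ k * |x m u|) ≤ s := le_csSup hbdd ⟨m, u, hu, rfl⟩
    have h2 := mul_le_mul_of_nonneg_left h1 (Real.exp_pos (lam * u)).le
    rw [← mul_assoc, ← Real.exp_add, add_neg_cancel, Real.exp_zero, one_mul] at h2
    linarith
  have hs0 : 0 ≤ s := by
    have h1 := hle 0 0 ⟨le_rfl, hθ0⟩
    rw [mul_zero, Real.exp_zero, mul_one] at h1
    exact (mul_nonneg (pow_nonneg (hL0 0).le k) (abs_nonneg _)).trans h1
  -- improvement
  have himp : ∀ m, ∀ u ∈ Icc 0 θ, L m ^ k * |x m u| ≤ Real.exp (lam * u) * (A + s / 2) := by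
    intro m
    rcases hS.deriv m with hz | hd
    · intro u hu
      rw [hz u hu, abs_zero, mul_zero]
      positivity
    · intro u hu
      have key := damped_cmp (g := fun u => L m ^ k * x m u)
        (G := fun u => L m ^ k * (Gf L C B (fun j => x j u) m + f m u))
        (β := fun u => Real.exp (lam * u) * (A + s / 2))
        (β' := fun u => lam * Real.exp (lam * u) * (A + s / 2)) (l := ℓ m) (a := 0) (b := θ)
        (h.ℓ_nonneg m)
        (fun v hv => by
          have h1 := (hd v hv).const_mul (L m ^ k)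
          refine h1.congr_deriv ?_
          rw [vf3_eq]
          ring)
        (fun v => by
          have h1 : HasDerivAt (fun v : ℝ => lam * v) lam v := by
            simpa using (hasDerivAt_id v).const_mul lam
          refine (h1.exp.mul_const (A + s / 2)).congr_deriv ?_
          ring)
        (fun v _ => by positivity)
        (by
          simp only [mul_zero, Real.exp_zero, one_mul]
          cases m with
          | zero =>
            rw [hx0, mul_one, abs_of_pos hL0k]
            linarith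
          | succ m =>
            rw [hx1, mul_zero, abs_zero]
            positivity)
        (fun v hv _ => by
          have hv' : v ∈ Icc 0 θ := ⟨hv.1, hv.2.le⟩
          have g1 := G_bound h k (X := |X|) (W := s * Real.exp (lam * v))
            (x := fun j => x j v) (fun j => (hX j v hv').trans hXX) (fun j => hle j v hv')
            (fun j => en_one hS hv' j) m
          have g2 := hS.pert m v hv'
          have g3 := hcφ m
          have g4 := hle m v hv'
          have hLk : 0 < L m ^ k := pow_pos (hL0 m) k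
          have g5 : L m ^ k * |f m v| ≤ φ 0 * (s * Real.exp (lam * v)) + cφ := by
            calc L m ^ k * |f m v| ≤ L m ^ k * (φ 0 * |x m v| + φ m) := by gcongr
              _ = φ 0 * (L m ^ k * |x m v|) + L m ^ k * φ m := by ring
              _ ≤ φ 0 * (s * Real.exp (lam * v)) + cφ := by
                  have := hφ 0
                  gcongr
          rw [abs_mul, abs_of_pos hLk]
          have g6 : L m ^ k * |Gf L C B (fun j => x j v) m + f m v| ≤
              c + K * (s * Real.exp (lam * v)) := by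
            calc L m ^ k * |Gf L C B (fun j => x j v) m + f m v| ≤
                  L m ^ k * (|Gf L C B (fun j => x j v) m| + |f m v|) := by
                  have := abs_add_le (Gf L C B (fun j => x j v) m) (f m v)
                  gcongr
              _ = L m ^ k * |Gf L C B (fun j => x j v) m| + L m ^ k * |f m v| := by ring
              _ ≤ (L (k + 5) ^ (k + 10) + 7 * (|X| * (s * Real.exp (lam * v)))) +
                  (φ 0 * (s * Real.exp (lam * v)) + cφ) := add_le_add g1 g5
              _ = c + K * (s * Real.exp (lam * v)) := by rw [hc, hK]; ring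
          refine g6.trans_lt ?_
          have g7 : 1 ≤ Real.exp (lam * v) := Real.one_le_exp (by have := hv.1; positivity)
          have g8 : c < lam * Real.exp (lam * v) * A := by
            have g9 : A ≤ lam * Real.exp (lam * v) * A := by
              have g10 : 1 ≤ lam * Real.exp (lam * v) := by nlinarith
              have : 0 < A := by linarith
              nlinarith
            linarith
          have g11 : K * (s * Real.exp (lam * v)) ≤ lam * Real.exp (lam * v) * (s / 2) := by
            have g12 : 0 ≤ s * Real.exp (lam * v) := by positivity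
            rw [hlam]
            nlinarith
          linarith) u hu
      rwa [abs_mul, abs_of_pos (pow_pos (hL0 m) k)] at key
  have hs2 : s ≤ A + s / 2 := by
    refine csSup_le ⟨_, 0, 0, ⟨le_rfl, hθ0⟩, rfl⟩ ?_
    rintro r ⟨m, u, hu, rfl⟩
    have h1 := mul_le_mul_of_nonneg_left (himp m u hu) (Real.exp_pos (-(lam * u))).le
    rwa [← mul_assoc (Real.exp (-(lam * u))) (Real.exp (lam * u)), ← Real.exp_add,
      neg_add_cancel, Real.exp_zero, one_mul] at h1
  have h1 := hle n t ht
  have h2 : Real.exp (lam * t) ≤ Real.exp (lam * |Θ|) := by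
    apply Real.exp_le_exp.2
    have h3 : t ≤ |Θ| := ht.2.trans (hθ.trans (le_abs_self _))
    have : 0 ≤ lam := by positivity
    gcongr
  calc L n ^ k * |x n t| ≤ s * Real.exp (lam * t) := h1
    _ ≤ (2 * A) * Real.exp (lam * |Θ|) := by
        have h3 : s ≤ 2 * A := by linarith
        have : 0 ≤ 2 * A := by positivity
        gcongr
    _ = _ := mul_comm _ _

/-- Local bounds. -/
theorem t_LOCW : S_LOCW := by
  intro lm L C ℓ M B φ h hφ hφL X
  obtain ⟨cφ, hcφ⟩ := hφL 3
  have hL := L_one h
  have hL0 : ∀ m, 0 < L m := fun m => by linarith [hL m]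
  have hcφ0 : 0 ≤ cφ := (mul_nonneg (pow_nonneg (hL0 0).le 3) (hφ 0).le).trans (hcφ 0)
  set W : ℝ := 2 * (|X| + 1) with hW
  have hX0 := abs_nonneg X
  have hW0 : 0 < W := by rw [hW]; positivity
  set D : ℝ := L (3 + 5) ^ (3 + 10) + 7 * (W * W) + (φ 0 * W + cφ) with hD
  have hD0 : 0 < D := by
    have := pow_pos (hL0 (3 + 5)) (3 + 10)
    have := hφ 0
    positivity
  refine ⟨1 / (D + 1), W, by positivity, ?_⟩
  intro a b x f hab hbδ hS ⟨N, hN⟩ hinit
  have hcont : ∀ n ≤ N, ContinuousOn (x n) (Icc a b) := by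
    intro n _
    rcases hS.deriv n with hz | hd
    · exact continuousOn_const.congr (f := fun _ => (0 : ℝ)) hz
    · intro t ht
      exact (hd t ht).continuousWithinAt
  have key : ∀ t ∈ Icc a b, ∀ n ≤ N, L n ^ 3 * |x n t| ≤ W := by
    refine continuity_arg (fun n t => L n ^ 3 * |x n t|)
      (fun n hn => continuousOn_const.mul (hcont n hn).abs) ?_
    intro t ht hu n hn
    have hall : ∀ u ∈ Ico a t, ∀ m, L m ^ 3 * |x m u| ≤ W := by
      intro u hu' m
      by_cases hm : m ≤ N
      · exact hu u hu' m hm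
      · rw [hN m (not_le.mp hm) u ⟨hu'.1, hu'.2.le.trans ht.2⟩]
        simpa using hW0.le
    rcases hS.deriv n with hz | hd
    · show L n ^ 3 * |x n t| < W
      rw [hz t ht]
      simpa using hW0
    have hLn3 : 0 < L n ^ 3 := pow_pos (hL0 n) 3
    have hk := damped_cmp (g := fun u => L n ^ 3 * x n u)
      (G := fun u => L n ^ 3 * (Gf L C B (fun j => x j u) n + f n u))
      (β := fun u => |X| + 1 / 2 + (D + 1 / 2) * (u - a))
      (β' := fun _ => D + 1 / 2) (l := ℓ n) (a := a) (b := t)
      (h.ℓ_nonneg n)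
      (fun v hv => by
        have h1 := ((hd v ⟨hv.1, hv.2.trans ht.2⟩).mono
          (Icc_subset_Icc le_rfl ht.2)).const_mul (L n ^ 3)
        refine h1.congr_deriv ?_
        rw [vf3_eq]
        ring)
      (fun v => by
        have h1 := (((hasDerivAt_id v).sub_const a).const_mul (D + 1 / 2)).const_add (|X| + 1 / 2)
        simpa using h1)
      (fun v hv => by
        have := hv.1
        have h2 : 0 ≤ (D + 1 / 2) * (v - a) := mul_nonneg (by linarith) (by linarith)
        linarith)
      (by
        have h1 := hinit n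
        have h2 := le_abs_self X
        simp only [sub_self, mul_zero, add_zero]
        rw [abs_mul, abs_of_pos hLn3]
        linarith)
      (fun v hv _ => by
        have hv' : v ∈ Icc a b := ⟨hv.1, hv.2.le.trans ht.2⟩
        have hw := hall v hv
        have g1 := G_bound h 3 (X := W) (W := W) (x := fun j => x j v)
          (fun j => by
            refine le_trans ?_ (hw j)
            have := hL j
            gcongr
            norm_num) hw (fun j => en_one hS hv' j) n
        have g2 := hS.pert n v hv'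
        have g3 := hcφ n
        have g5 : L n ^ 3 * |f n v| ≤ φ 0 * W + cφ := by
          calc L n ^ 3 * |f n v| ≤ L n ^ 3 * (φ 0 * |x n v| + φ n) := by gcongr
            _ = φ 0 * (L n ^ 3 * |x n v|) + L n ^ 3 * φ n := by ring
            _ ≤ φ 0 * W + cφ := by
                have := hφ 0
                have := hw n
                gcongr
        rw [abs_mul, abs_of_pos hLn3]
        have g6 : L n ^ 3 * |Gf L C B (fun j => x j v) n + f n v| ≤ D := by
          calc L n ^ 3 * |Gf L C B (fun j => x j v) n + f n v| ≤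
                L n ^ 3 * (|Gf L C B (fun j => x j v) n| + |f n v|) := by
                have := abs_add_le (Gf L C B (fun j => x j v) n) (f n v)
                gcongr
            _ = L n ^ 3 * |Gf L C B (fun j => x j v) n| + L n ^ 3 * |f n v| := by ring
            _ ≤ (L (3 + 5) ^ (3 + 10) + 7 * (W * W)) + (φ 0 * W + cφ) := add_le_add g1 g5
            _ = D := by rw [hD]
        linarith) t ⟨ht.1, le_rfl⟩
    rw [abs_mul, abs_of_pos hLn3] at hk
    have h2 : (D + 1 / 2) * (t - a) ≤ 1 := by
      have h3 : t - a ≤ 1 / (D + 1) := by linarith [ht.2]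
      have h4 : 0 ≤ t - a := by linarith [ht.1]
      calc (D + 1 / 2) * (t - a) ≤ (D + 1) * (1 / (D + 1)) := by
            gcongr
            linarith
        _ = 1 := by field_simp
    show L n ^ 3 * |x n t| < W
    rw [hW]
    linarith
  intro n t ht
  by_cases hn : n ≤ N
  · have ha := hL n
    calc L n ^ 2 * |x n t| ≤ L n ^ 3 * |x n t| := by
          gcongr
          norm_num
      _ ≤ W := key t ht n hn
  · rw [hN n (not_le.mp hn) t ht]
    simpa using hW0.le

end Pool.Agent.Y7.EJ.Pers
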