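import Pool.Agent.Y7.EJ.Defs
import Pool.Agent.Y303.SK.Stm

/-! Project EJ: exact statements of the steps (modes and fields). -/

open Set Filter Topology MeasureTheory Metric

set_option autoImplicit false

namespace Pool.Agent.Y7.EJ

open Pool.Agent.Y5 (E3)
open Pool.Agent.Y5.D (Ix qd vf3 Init)
open Pool.Agent.Y6.N (lin TSol XSol Rot)
open Pool.Agent.Y6.K (Kz lv)
open Pool.Agent.Y303.SK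

/-- Limits of the solutions of the truncated systems. -/
def S_LIMW : Prop := ∀ (J : Type) (g o : J → ℕ) (σ : J → J) (τ : J → ℝ)
  (lm L C M ℓ ρ : ℕ → ℝ) (B : ℕ → ℕ → ℝ) (R E : Ix J → ℝ) (D : Ix J → Ix J → ℝ)
  (c : Ix J → Ix J → Ix J → ℝ) (Θ : ℝ) (S : ℕ → ℝ) (b : J → ℝ), KD g L C ℓ ρ B R E D c →
  SeqW lm L C ℓ M B → Rot o σ τ → 0 < Θ → (∀ j, 0 ≤ b j) → Summable b →
  ∀ Z : ℕ → Ix J → ℝ → ℝ, (∀ N, TSol Θ S o σ τ D c N (Z N)) →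
  (∀ N j, ∀ t ∈ Icc (0 : ℝ) Θ, |Z N (Sum.inr j) t| ≤ b j) →
  ∀ U : Ultrafilter ℕ, (U : Filter ℕ) ≤ atTop → ∃ z : Ix J → ℝ → ℝ,
    (∀ i, ∀ t ∈ Icc (0 : ℝ) Θ, Tendsto (fun N => Z N i t) U (𝓝 (z i t))) ∧ Init z ∧
    (∀ t ∈ Icc (0 : ℝ) Θ, Summable (fun a => z a t ^ 2) ∧ ∑' a, z a t ^ 2 ≤ 1) ∧
    (∀ j, ∀ t ∈ Icc (0 : ℝ) Θ, |z (Sum.inr j) t| ≤ b j) ∧
    ∀ θ, 0 ≤ θ → θ ≤ Θ →
      (∃ X, ∀ᶠ N in (U : Filter ℕ), ∀ t ∈ Icc 0 θ, ∀ n, L n * |Z N (Sum.inl n) t| ≤ X) →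
      ∀ i, ∀ t ∈ Icc 0 θ, HasDerivWithinAt (z i)
        (Kz S o σ τ (fun a => z a t) i - lin D (fun a => z a t) i + qd c (fun a => z a t) i)
        (Icc 0 θ) t

/-- The perturbation of the main modes is small if the other modes are small. -/
def S_PBW : Prop := ∀ (J : Type) (g o : J → ℕ) (σ : J → J) (τ : J → ℝ)
  (lm L C M ℓ ρ φ : ℕ → ℝ) (B : ℕ → ℕ → ℝ) (R E : Ix J → ℝ) (D : Ix J → Ix J → ℝ)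
  (c : Ix J → Ix J → Ix J → ℝ), KD g L C ℓ ρ B R E D c → SeqW lm L C ℓ M B → Rot o σ τ →
  (∀ n, 0 < φ n) → ∃ β : J → ℝ, (∀ j, 0 < β j) ∧ Summable β ∧
    ∀ z : Ix J → ℝ, Summable (fun a => z a ^ 2) → ∑' a, z a ^ 2 ≤ 1 →
      (∀ j, |z (Sum.inr j)| ≤ β j) → ∀ n,
      Summable (fun p : Ix J × Ix J => c (Sum.inl n) p.1 p.2 * z p.1 * z p.2) →
      |qd c z (Sum.inl n) - lin D z (Sum.inl n) - vf3 L C ℓ B (fun m => z (Sum.inl m)) n|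
        ≤ φ 0 * |z (Sum.inl n)| + φ n

/-- Persistence of the decay. -/
def S_PERSW : Prop := ∀ (lm L C ℓ M : ℕ → ℝ) (B : ℕ → ℕ → ℝ) (φ : ℕ → ℝ),
  SeqW lm L C ℓ M B →
  (∀ n, 0 < φ n) → (∀ k : ℕ, ∃ X, ∀ n, L n ^ k * φ n ≤ X) → ∀ (Θ : ℝ) (k : ℕ) (X : ℝ), ∃ Y : ℝ,
    ∀ (θ : ℝ) (x f : ℕ → ℝ → ℝ), 0 ≤ θ → θ ≤ Θ → XSol L C ℓ B φ 0 θ x f → x 0 0 = 1 →
      (∀ n, x (n + 1) 0 = 0) → (∀ n, ∀ t ∈ Icc 0 θ, L n ^ 2 * |x n t| ≤ X) →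
      (∃ X', ∀ n, ∀ t ∈ Icc 0 θ, L n ^ k * |x n t| ≤ X') →
      ∀ n, ∀ t ∈ Icc 0 θ, L n ^ k * |x n t| ≤ Y

/-- Local bounds. -/
def S_LOCW : Prop := ∀ (lm L C ℓ M : ℕ → ℝ) (B : ℕ → ℕ → ℝ) (φ : ℕ → ℝ),
  SeqW lm L C ℓ M B →
  (∀ n, 0 < φ n) → (∀ k : ℕ, ∃ X, ∀ n, L n ^ k * φ n ≤ X) → ∀ X : ℝ, ∃ δ Y : ℝ, 0 < δ ∧
    ∀ (a b : ℝ) (x f : ℕ → ℝ → ℝ), a ≤ b → b ≤ a + δ → XSol L C ℓ B φ a b x f →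
      (∃ N : ℕ, ∀ n, N < n → ∀ t ∈ Icc a b, x n t = 0) → (∀ n, L n ^ 3 * |x n a| ≤ X) →
      ∀ n, ∀ t ∈ Icc a b, L n ^ 2 * |x n t| ≤ Y

/-- Solutions of the full system on `[0, T)`. -/
structure SolJ {J : Type} (L : ℕ → ℝ) (o : J → ℕ) (σ : J → J) (τ : J → ℝ)
    (D : Ix J → Ix J → ℝ) (c : Ix J → Ix J → Ix J → ℝ) (β : J → ℝ) (S : ℕ → ℝ) (T δ : ℝ)
    (z : Ix J → ℝ → ℝ) : Prop where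
  deriv : ∀ i, ∀ t ∈ Ico 0 T, HasDerivWithinAt (z i)
    (Kz S o σ τ (fun a => z a t) i - lin D (fun a => z a t) i + qd c (fun a => z a t) i)
    (Ico 0 T) t
  init : Init z
  reg : ∀ k : ℕ, ∀ T' < T, ∃ X, ∀ t ∈ Icc 0 T', ∀ n, L n ^ k * |z (Sum.inl n) t| ≤ X
  en : ∀ t ∈ Ico 0 T, Summable (fun a => z a t ^ 2) ∧ ∑' a, z a t ^ 2 ≤ 1
  oth : ∀ w, ∀ t ∈ Ico 0 T, |z (Sum.inr w) t| ≤ β w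
  big : ∀ n, ∃ t ∈ Ico 0 T, 1 - δ ≤ z (Sum.inl n) t

/-- Blow-up for the system of the modes. -/
def S_BLOWJ : Prop := ∀ (J : Type) (g o : J → ℕ) (σ : J → J) (τ : J → ℝ)
  (lm L C M ℓ ρ hh : ℕ → ℝ) (B : ℕ → ℕ → ℝ) (R E : Ix J → ℝ) (D : Ix J → Ix J → ℝ)
  (c : Ix J → Ix J → Ix J → ℝ) (β : J → ℝ), KD g L C ℓ ρ B R E D c →
  SeqP lm L C ℓ M hh B → Rot o σ τ → (∀ j, 0 < β j) → ∃ S : ℕ → ℝ, (∀ n, 1 ≤ S n) ∧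
    ∃ (T : ℝ) (z : Ix J → ℝ → ℝ), 0 < T ∧ SolJ L o σ τ D c β S T (hh 0) z

/-! ### The parameters -/

/-- Parameters: radii `r`, amplitudes `α`, `ε`. -/
structure ParP (a κ h q' G δ : ℝ) (r α ε lm L hh : ℕ → ℝ) : Prop where
  r0 : ∀ n, 0 < r n
  rstep : ∀ n, r (n + 1) ≤ q' * r n
  rδ : r 0 ≤ δ
  α0 : ∀ n, 0 < α n
  ε0 : ∀ n, 0 < ε n
  αε : ∀ n, α n ^ 2 + ε n ^ 2 = 1
  Lr : ∀ n, L n * (r n ^ 2 * √(r n)) = κ * a * α n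
  εr : ∀ n, ε n ^ 2 * r n ^ 2 ≤ r (n + 1) ^ 2
  seq : ∀ ℓ : ℕ → ℝ, (∀ n, 0 ≤ ℓ n ∧ ℓ n * r n ^ 2 ≤ G) →
    SeqP lm L (fun n => ε n ^ 2 * (h / κ) * (L (n + 1) / L n)) ℓ (fun _ => 1) hh
      (fun _ n => α n ^ 2 - ε n ^ 2 * (h / κ))
  Lpol : ∀ n, L (n + 1) ≤ L n ^ 2
  small : ∀ M : ℝ, ∃ n, M * (r n * √(r n)) < 1 / 2
  inf : Tendsto (fun n => (2 ^ n * r n ^ 2)⁻¹) atTop atTop

def S_PARP : Prop := ∀ a κ h q' G δ η : ℝ, 0 < a → 0 < κ → 0 < h → 0 < q' → 0 < G → 0 < δ →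
  0 < η → ∃ r α ε lm L hh : ℕ → ℝ, ParP a κ h q' G δ r α ε lm L hh ∧ hh 0 ≤ η

/-- Elementary properties of the main modes. -/
def S_MMP : Prop := ∀ (p : E3) (Ψ H : E3 → E3) (a κ h q q' G δ : ℝ)
  (r α ε lm L hh : ℕ → ℝ),
  Pk Ψ H a κ h q q' → ParP a κ h q' G δ r α ε lm L hh →
  (∀ n, CS (ball p (r n)) (psi p Ψ H r α ε n)) ∧
  (∀ n, Low p (r (n + 1)) H (psi p Ψ H r α ε n) (Am a r α n) (ε n)) ∧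
  (∀ n m, n + 2 ≤ m → Low p (r m) H (psi p Ψ H r α ε n) (Am a r α n) 0) ∧
  (∀ n, ipr (psi p Ψ H r α ε n) (psi p Ψ H r α ε n) = 1) ∧
  ∀ n, 0 ≤ dirf (psi p Ψ H r α ε n) (psi p Ψ H r α ε n) ∧
    dirf (psi p Ψ H r α ε n) (psi p Ψ H r α ε n) * r n ^ 2 ≤ dirf Ψ Ψ + dirf H H

/-- Interactions with fields of lower index. -/
def S_INTP : Prop := ∀ (p : E3) (Ψ H : E3 → E3) (a κ h q q' G δ : ℝ)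
  (r α ε lm L hh : ℕ → ℝ),
  Pk Ψ H a κ h q q' → ParP a κ h q' G δ r α ε lm L hh → ∀ (m : ℕ) (f f' : E3 → E3)
    (s θ s' θ' : ℝ),
  CS univ f → CS univ f' → Low p (r m) H f s θ → Low p (r m) H f' s' θ' →
  ipr f (psi p Ψ H r α ε m) = 0 ∧ dirf f (psi p Ψ H r α ε m) = 0 ∧
  adv f f' (psi p Ψ H r α ε m) = -(θ * θ' * (Am a r α m * h)) ∧
  adv (psi p Ψ H r α ε m) f f' = 0 ∧
  adv (psi p Ψ H r α ε m) f (psi p Ψ H r α ε m) = -(s * (α m ^ 2 * κ - ε m ^ 2 * h))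

/-- Bounds of the derivatives of the main modes. -/
def S_DERBP : Prop := ∀ (p : E3) (Ψ H : E3 → E3) (a κ h q q' G δ : ℝ)
  (r α ε lm L hh : ℕ → ℝ),
  Pk Ψ H a κ h q q' → ParP a κ h q' G δ r α ε lm L hh → ∀ k : ℕ, ∃ (X : ℝ) (m : ℕ), ∀ n,
    nk k (psi p Ψ H r α ε n) ≤ X * L n ^ m

/-- The kernel. -/
def S_CONCP : Prop := ∀ (ν : ℝ) (Ω : Set E3) (p : E3) (Ψ H : E3 → E3) (a κ h q q' δ : ℝ)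
  (r α ε lm L hh : ℕ → ℝ), 0 < ν → Pk Ψ H a κ h q q' →
  ParP a κ h q' (ν * (dirf Ψ Ψ + dirf H H)) δ r α ε lm L hh → ball p (r 0) ⊆ Ω →
  ∀ (J : Type) (w : J → E3 → E3), Bas Ω p (psi p Ψ H r α ε) w →
  ∃ (g : J → ℕ) (ℓ ρ : ℕ → ℝ) (R E : Ix J → ℝ),
    KD g L (fun n => ε n ^ 2 * (h / κ) * (L (n + 1) / L n)) ℓ ρ
      (fun _ n => α n ^ 2 - ε n ^ 2 * (h / κ)) R E (DD ν (em (psi p Ψ H r α ε) w))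
      (cc (em (psi p Ψ H r α ε) w)) ∧
    SeqP lm L (fun n => ε n ^ 2 * (h / κ) * (L (n + 1) / L n)) ℓ (fun _ => 1) hh
      (fun _ n => α n ^ 2 - ε n ^ 2 * (h / κ))

/-! ### The value at the blow-up time -/

/-- The modes have limits at the blow-up time. -/
def S_LIMT : Prop := ∀ (J : Type) (g o : J → ℕ) (σ : J → J) (τ : J → ℝ)
  (L C ℓ ρ : ℕ → ℝ) (B : ℕ → ℕ → ℝ) (R E : Ix J → ℝ) (D : Ix J → Ix J → ℝ)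
  (c : Ix J → Ix J → Ix J → ℝ) (β : J → ℝ) (S : ℕ → ℝ) (T δ : ℝ) (z : Ix J → ℝ → ℝ),
  KD g L C ℓ ρ B R E D c → Rot o σ τ → 0 < T → SolJ L o σ τ D c β S T δ z →
  (∀ t ∈ Ico 0 T, Summable fun a => |z a t|) →
  ∀ i, ∃ l, Tendsto (z i) (𝓝[<] T) (𝓝 l)

/-- Weak limit at the time `T`. -/
def S_RF : Prop := ∀ (Ω : Set E3) (ι : Type) (e : ι → E3 → E3) (T : ℝ) (u : ℝ → E3 → E3),
  IsOpen Ω → Bornology.IsBounded Ω → Countable ι → (∀ i, CS Ω (e i)) →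
  (∀ i j, (i = j → ipr (e i) (e j) = 1) ∧ (i ≠ j → ipr (e i) (e j) = 0)) →
  (∀ v, CS Ω v → ∀ ε > 0, ∃ (F : Finset ι) (b : ι → ℝ),
    ∫ x, ‖v x - ∑ a ∈ F, b a • e a x‖ ^ 2 < ε) →
  0 < T → (∀ t ∈ Ico 0 T, InH Ω (u t)) → (∀ t ∈ Ico 0 T, ipr (u t) (u t) ≤ 1) →
  (∀ i, ∃ l, Tendsto (fun t => ipr (u t) (e i)) (𝓝[<] T) (𝓝 l)) →
  ∃ v, InH Ω v ∧
    (∀ w, InH Ω w → Tendsto (fun t => ipr (u t) w) (𝓝[<] T) (𝓝 (ipr v w))) ∧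
    ∀ c : ℝ, (∀ F : Finset ι, ∑ i ∈ F, ipr v (e i) ^ 2 ≤ c) → ipr v v ≤ c

end Pool.Agent.Y7.EJ
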